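import Pool.Agent.D0H96.Cur

/-! Equidistribution of the cursor on the cycle. -/

set_option linter.unusedSectionVars false

namespace Pool.Agent.D0H96

open Finset

/-- total displacement -/
def disp : List Lab → ℤ
  | [] => 0
  | l :: L => mv l + disp L

theorem foldl_cstep_s : ∀ (L : List Lab) (c : Cur), (L.foldl cstep c).s = c.s + disp L
  | [], c => by simp [disp]
  | l :: L, c => by
    rw [List.foldl_cons, foldl_cstep_s L]
    simp only [cstep, disp]; ring

theorem cur_s (L : List Lab) : (cur L).s = disp L := by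
  rw [cur, foldl_cstep_s]; simp [cur0]

theorem disp_append (L₁ L₂ : List Lab) : disp (L₁ ++ L₂) = disp L₁ + disp L₂ := by
  induction L₁ with
  | nil => simp [disp]
  | cons l L ih => rw [List.cons_append, disp, disp, ih]; ring

variable {m : ℕ} {n : ℕ} [NeZero n]

/-- the cursor chain applied to a function on the cycle -/
noncomputable def gt (m : ℕ) (g : ZMod n → ℝ) (t : ℕ) (y : ZMod n) : ℝ :=
  Ex m t fun L => g (y + (disp L : ℤ))

theorem gt_succ (g : ZMod n → ℝ) (t : ℕ) (y : ZMod n) :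
    gt m g (t + 1) y = ex1 m fun l => gt m g t (y + (mv l : ℤ)) := by
  unfold gt
  rw [Ex_succ]
  simp only [disp]
  push_cast
  simp only [add_assoc]

/-- maximal difference at distance `a` -/
noncomputable def DD (m : ℕ) (g : ZMod n → ℝ) (t : ℕ) (a : ℤ) : ℝ :=
  ⨆ y : ZMod n, |gt m g t (y + (a : ℤ)) - gt m g t y|

theorem le_DD (g : ZMod n → ℝ) (t : ℕ) (a : ℤ) (y : ZMod n) :
    |gt m g t (y + (a : ℤ)) - gt m g t y| ≤ DD m g t a :=
  le_ciSup (f := fun y : ZMod n => |gt m g t (y + (a : ℤ)) - gt m g t y|)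
    (Set.finite_range _).bddAbove y

theorem DD_le (g : ZMod n → ℝ) (t : ℕ) (a : ℤ) {B : ℝ}
    (h : ∀ y : ZMod n, |gt m g t (y + (a : ℤ)) - gt m g t y| ≤ B) : DD m g t a ≤ B :=
  ciSup_le h

theorem DD_anti (g : ZMod n → ℝ) (t : ℕ) (a : ℤ) : DD m g (t + 1) a ≤ DD m g t a := by
  refine DD_le g _ a fun y => ?_
  rw [gt_succ, gt_succ, ← ex1_sub]
  rw [abs_le]
  constructor
  · have h1 := ex1_mono (m := m) (φ := fun _ => -DD m g t a)
      (ψ := fun l => gt m g t (y + (a : ℤ) + (mv l : ℤ)) - gt m g t (y + (mv l : ℤ))) (fun l => by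
        have h2 := le_DD (m := m) g t a (y + (mv l : ℤ))
        rw [add_right_comm] at h2
        exact (abs_le.1 h2).1)
    rwa [ex1_const] at h1
  · have h1 := ex1_mono (m := m)
      (φ := fun l => gt m g t (y + (a : ℤ) + (mv l : ℤ)) - gt m g t (y + (mv l : ℤ)))
      (ψ := fun _ => DD m g t a) (fun l => by
        have h2 := le_DD (m := m) g t a (y + (mv l : ℤ))
        rw [add_right_comm] at h2
        exact (abs_le.1 h2).2)
    rwa [ex1_const] at h1

theorem two_le_dd : 2 ≤ dd m := by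
  unfold dd
  have : (0 : ℝ) ≤ m := Nat.cast_nonneg m
  linarith

theorem DD_rec (g : ZMod n → ℝ) (t : ℕ) (a : ℤ) :
    DD m g (t + 1) a ≤ (1 - 2 / dd m) * DD m g t a
      + 1 / dd m * (DD m g t (a + 1) + DD m g t (a - 1)) := by
  have hd := dd_pos m
  have hd2 := two_le_dd (m := m)
  refine DD_le g _ a fun y => ?_
  have h1 : gt m g (t + 1) (y + (a : ℤ)) - gt m g (t + 1) y
      = (1 - 2 / dd m) * (gt m g t (y + (a : ℤ)) - gt m g t y)
        + 1 / (2 * dd m) * ((gt m g t (y + ((a + 1 : ℤ) : ZMod n)) - gt m g t y)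
          + (gt m g t (y + ((a - 1 : ℤ) : ZMod n)) - gt m g t y)
          + (gt m g t (y + (a : ℤ)) - gt m g t (y + 1))
          + (gt m g t (y + (a : ℤ)) - gt m g t (y - 1))) := by
    rw [gt_succ, gt_succ]
    unfold ex1
    simp only [mv]
    rw [Finset.sum_const, Finset.sum_const, Finset.card_univ, ZMod.card]
    simp only [nsmul_eq_mul]
    have e1 : y + ((a + 1 : ℤ) : ZMod n) = y + (a : ℤ) + ((1 : ℤ) : ZMod n) := by push_cast; ring
    have e2 : y + ((a - 1 : ℤ) : ZMod n) = y + (a : ℤ) + ((-1 : ℤ) : ZMod n) := by push_cast; ring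
    have e3 : y + 1 = y + ((1 : ℤ) : ZMod n) := by push_cast; ring
    have e4 : y - 1 = y + ((-1 : ℤ) : ZMod n) := by push_cast; ring
    have e5 : y + (a : ℤ) + ((0 : ℤ) : ZMod n) = y + (a : ℤ) := by push_cast; ring
    have e6 : y + ((0 : ℤ) : ZMod n) = y := by push_cast; ring
    rw [e1, e2, e3, e4, e5, e6]
    field_simp
    unfold dd
    push_cast
    ring
  have b1 := le_DD (m := m) g t a y
  have b2 := le_DD (m := m) g t (a + 1) y
  have b3 := le_DD (m := m) g t (a - 1) y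
  have b4 := le_DD (m := m) g t (a - 1) (y + 1)
  have b5 := le_DD (m := m) g t (a + 1) (y - 1)
  have e7 : y + 1 + ((a - 1 : ℤ) : ZMod n) = y + (a : ℤ) := by push_cast; ring
  have e8 : y - 1 + ((a + 1 : ℤ) : ZMod n) = y + (a : ℤ) := by push_cast; ring
  rw [e7] at b4
  rw [e8] at b5
  have hc : 0 ≤ 1 - 2 / dd m := by
    rw [sub_nonneg, div_le_one hd]; exact hd2
  rw [h1]
  rw [abs_le] at b1 b2 b3 b4 b5 ⊢
  have hh : 0 ≤ 1 / (2 * dd m) := by positivity
  have e9 : 1 / dd m * (DD m g t (a + 1) + DD m g t (a - 1))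
      = 1 / (2 * dd m) * (DD m g t (a + 1) + DD m g t (a - 1) + DD m g t (a - 1)
        + DD m g t (a + 1)) := by
    field_simp; ring
  rw [e9]
  constructor
  · have c1 := mul_le_mul_of_nonneg_left b1.1 hc
    have c2 := mul_le_mul_of_nonneg_left (add_le_add (add_le_add (add_le_add b2.1 b3.1) b4.1) b5.1) hh
    linarith
  · have c1 := mul_le_mul_of_nonneg_left b1.2 hc
    have c2 := mul_le_mul_of_nonneg_left (add_le_add (add_le_add (add_le_add b2.2 b3.2) b4.2) b5.2) hh
    linarith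

theorem DD_zero (g : ZMod n → ℝ) (t : ℕ) : DD m g t 0 = 0 := by
  unfold DD
  simp

theorem DD_n (g : ZMod n → ℝ) (t : ℕ) : DD m g t n = 0 := by
  unfold DD
  simp

theorem sum_DD (g : ZMod n → ℝ) {B : ℝ} (hB : 0 ≤ B) (hg : ∀ y y', |g y - g y'| ≤ B) :
    ∀ (t : ℕ) (a : ℕ), a ≤ n →
      ∑ s ∈ Finset.range t, DD m g s a ≤ dd m / 2 * ((a : ℝ) * (n - a)) * B := by
  have hd := dd_pos m
  have hd2 := two_le_dd (m := m)
  have hc : 0 ≤ 1 - 2 / dd m := by
    rw [sub_nonneg, div_le_one hd]; exact hd2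
  intro t
  induction t with
  | zero =>
    intro a ha
    simp only [Finset.range_zero, Finset.sum_empty]
    have : (0 : ℝ) ≤ (n : ℝ) - a := sub_nonneg.2 (by exact_mod_cast ha)
    positivity
  | succ t ih =>
    intro a ha
    rcases Nat.eq_zero_or_pos a with rfl | ha0
    · simp only [Nat.cast_zero, DD_zero]; simp
    rcases Nat.lt_or_ge a n with han | han
    swap
    · have : a = n := le_antisymm ha han
      subst this
      simp only [DD_n]; simp
    rw [Finset.sum_range_succ']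
    have h0 : DD m g 0 a ≤ B := DD_le g _ _ fun y => hg _ _
    have h1 : ∑ s ∈ Finset.range t, DD m g (s + 1) a
        ≤ ∑ s ∈ Finset.range t, ((1 - 2 / dd m) * DD m g s a
          + 1 / dd m * (DD m g s ((a : ℤ) + 1) + DD m g s ((a : ℤ) - 1))) :=
      Finset.sum_le_sum fun s _ => DD_rec g s a
    rw [Finset.sum_add_distrib, ← Finset.mul_sum, ← Finset.mul_sum, Finset.sum_add_distrib] at h1
    have i1 := ih a ha
    have i2 := ih (a + 1) han
    have i3 := ih (a - 1) (by omega)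
    have e2 : (((a + 1 : ℕ)) : ℤ) = (a : ℤ) + 1 := by push_cast; ring
    have e3 : (((a - 1 : ℕ)) : ℤ) = (a : ℤ) - 1 := by
      rw [Nat.cast_sub ha0]; push_cast; ring
    have e3' : (((a - 1 : ℕ)) : ℝ) = (a : ℝ) - 1 := by
      rw [Nat.cast_sub ha0]; push_cast; ring
    rw [e2] at i2
    rw [e3] at i3
    rw [e3'] at i3
    push_cast at i2
    have j1 := mul_le_mul_of_nonneg_left i1 hc
    have j2 := mul_le_mul_of_nonneg_left (add_le_add i2 i3) (by positivity : 0 ≤ 1 / dd m)
    have h2 : ∑ s ∈ Finset.range t, DD m g (s + 1) a + DD m g 0 a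
        ≤ (1 - 2 / dd m) * (dd m / 2 * ((a : ℝ) * (n - a)) * B)
          + 1 / dd m * (dd m / 2 * (((a : ℝ) + 1) * (n - (a + 1))) * B
            + dd m / 2 * (((a : ℝ) - 1) * (n - (a - 1))) * B) + B := by
      linarith
    refine h2.trans (le_of_eq ?_)
    field_simp
    ring

/-- Equidistribution of the cursor. -/
theorem cursor_osc (g : ZMod n → ℝ) {B : ℝ} (hB : 0 ≤ B) (hg : ∀ y y', |g y - g y'| ≤ B)
    {t : ℕ} (ht : 0 < t) (y y' : ZMod n) :
    |gt m g t y - gt m g t y'| ≤ dd m * (n : ℝ) ^ 2 / (8 * t) * B := by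
  have hd := dd_pos m
  have ht' : (0 : ℝ) < t := Nat.cast_pos.2 ht
  set a : ℕ := (y - y').val with ha
  have hay : y = y' + ((a : ℤ) : ZMod n) := by
    rw [ha]; simp
  have h1 : |gt m g t y - gt m g t y'| ≤ DD m g t a := by
    conv_lhs => rw [hay]
    exact le_DD g t a y'
  have h2 : ∀ s k : ℕ, DD m g (s + k) a ≤ DD m g s a := by
    intro s k
    induction k with
    | zero => exact le_rfl
    | succ k ih => exact (DD_anti g (s + k) a).trans ih
  have h3 : (t : ℝ) * DD m g t a ≤ ∑ s ∈ Finset.range t, DD m g s a := by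
    have h4 : ∑ _s ∈ Finset.range t, DD m g t a ≤ ∑ s ∈ Finset.range t, DD m g s a := by
      refine Finset.sum_le_sum fun s hs => ?_
      have h5 := h2 s (t - s)
      rwa [Nat.add_sub_cancel' (Finset.mem_range.1 hs).le] at h5
    rw [Finset.sum_const, Finset.card_range, nsmul_eq_mul] at h4
    exact h4
  have h5 := sum_DD (m := m) g hB hg t a (by rw [ha]; exact (ZMod.val_lt _).le)
  have h6 : (a : ℝ) * (n - a) ≤ (n : ℝ) ^ 2 / 4 := by nlinarith [sq_nonneg ((n : ℝ) - 2 * a)]
  have h7 : dd m / 2 * ((a : ℝ) * (n - a)) * B ≤ dd m / 2 * ((n : ℝ) ^ 2 / 4) * B := by gcongr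
  refine h1.trans ?_
  rw [div_mul_eq_mul_div, le_div_iff₀ (by positivity)]
  have h8 := h3.trans (h5.trans h7)
  nlinarith

end Pool.Agent.D0H96
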