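import Pool.Agent.D0H96.Ex

/-! The cursor: displacement, running minimum and maximum. -/

set_option linter.unusedSectionVars false

namespace Pool.Agent.D0H96

open Finset

/-- displacement caused by a label -/
def mv : Lab → ℤ
  | .cp => 1
  | .cm => -1
  | .c0 => 0
  | .L _ => 0

/-- displacement of the cursor, with its running minimum and maximum -/
@[ext]
structure Cur : Type where
  /-- displacement -/
  s : ℤ
  /-- running minimum -/
  mn : ℤ
  /-- running maximum -/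
  mx : ℤ

/-- one step of the cursor -/
def cstep (c : Cur) (l : Lab) : Cur := ⟨c.s + mv l, min c.mn (c.s + mv l), max c.mx (c.s + mv l)⟩

/-- initial state -/
def cur0 : Cur := ⟨0, 0, 0⟩

/-- final state -/
def cur (L : List Lab) : Cur := L.foldl cstep cur0

/-- the cursor is consistent -/
def Cur.Inv (c : Cur) : Prop := c.mn ≤ c.s ∧ c.s ≤ c.mx

/-- the displacement stayed in `(-ρ, ρ)` -/
def Cur.Al (ρ : ℕ) (c : Cur) : Prop := -(ρ : ℤ) < c.mn ∧ c.mx < ρ

instance (ρ : ℕ) (c : Cur) : Decidable (c.Al ρ) := instDecidableAnd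

theorem Cur.Inv.step {c : Cur} (_h : c.Inv) (l : Lab) : (cstep c l).Inv :=
  ⟨min_le_right _ _, le_max_right _ _⟩

theorem mv_le (l : Lab) : mv l ≤ 1 ∧ -1 ≤ mv l := by
  cases l <;> simp [mv]

theorem Al_of_step {ρ : ℕ} {c : Cur} {l : Lab} (h : (cstep c l).Al ρ) : c.Al ρ :=
  ⟨lt_of_lt_of_le h.1 (min_le_left _ _), lt_of_le_of_lt (le_max_left _ _) h.2⟩

variable {m : ℕ}

theorem ex1_sq (s : ℝ) : ex1 m (fun l => (s + mv l) ^ 2) = s ^ 2 + 1 / dd m := by
  have hd := dd_pos m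
  unfold ex1
  simp only [mv]
  rw [Finset.sum_const, Finset.card_univ, ZMod.card]
  simp only [nsmul_eq_mul]
  push_cast
  field_simp
  unfold dd
  ring

theorem ex1_lin (s : ℝ) : ex1 m (fun l => (s + mv l)) = s := by
  have hd := dd_pos m
  unfold ex1
  simp only [mv]
  rw [Finset.sum_const, Finset.card_univ, ZMod.card]
  simp only [nsmul_eq_mul]
  push_cast
  field_simp
  unfold dd
  ring

/-- counting machine -/
def cntStep (ρ : ℕ) (σ : Cur × ℕ) (l : Lab) : Cur × ℕ :=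
  (cstep σ.1 l, if σ.1.Al ρ then σ.2 + 1 else σ.2)

theorem cntStep_fst (ρ : ℕ) : ∀ (L : List Lab) (σ : Cur × ℕ),
    (L.foldl (cntStep ρ) σ).1 = L.foldl cstep σ.1
  | [], _ => rfl
  | l :: L, σ => cntStep_fst ρ L (cntStep ρ σ l)

theorem Al_of_foldl {ρ : ℕ} : ∀ (L : List Lab) (c : Cur), (L.foldl cstep c).Al ρ → c.Al ρ
  | [], _, h => h
  | _ :: L, _, h => Al_of_step (Al_of_foldl L _ h)

theorem cnt_eq {ρ : ℕ} : ∀ (L : List Lab) (σ : Cur × ℕ), (L.foldl cstep σ.1).Al ρ →
    (L.foldl (cntStep ρ) σ).2 = σ.2 + L.length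
  | [], _, _ => rfl
  | l :: L, σ, h => by
    have h1 : σ.1.Al ρ := Al_of_foldl (l :: L) σ.1 h
    have h2 := cnt_eq L (cntStep ρ σ l) h
    rw [List.foldl_cons, h2]
    simp only [cntStep, h1, if_true, List.length_cons]
    omega

/-- potential of the counting machine -/
noncomputable def cntG (m ρ : ℕ) (σ : Cur × ℕ) : ℝ :=
  σ.2 * (1 / dd m) + (if σ.1.Al ρ then (ρ : ℝ) ^ 2 - (σ.1.s : ℝ) ^ 2 else 0)

theorem cnt_drift (ρ : ℕ) (σ : Cur × ℕ) (hσ : σ.1.Inv) :
    ex1 m (fun l => cntG m ρ (cntStep ρ σ l)) ≤ cntG m ρ σ + 0 := by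
  by_cases ha : σ.1.Al ρ
  · have h1 : ∀ l, cntG m ρ (cntStep ρ σ l) ≤ ((σ.2 : ℝ) + 1) * (1 / dd m) + (ρ : ℝ) ^ 2
        - ((σ.1.s : ℝ) + mv l) ^ 2 := by
      intro l
      have h2 := mv_le l
      have h3 : -(ρ : ℤ) ≤ σ.1.s + mv l := by have := ha.1; have := hσ.1; omega
      have h4 : σ.1.s + mv l ≤ ρ := by have := ha.2; have := hσ.2; omega
      have h5 : ((σ.1.s : ℝ) + mv l) ^ 2 ≤ (ρ : ℝ) ^ 2 := by
        rw [← sq_abs]
        refine pow_le_pow_left₀ (abs_nonneg _) ?_ 2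
        rw [abs_le]
        constructor
        · exact_mod_cast h3
        · exact_mod_cast h4
      simp only [cntG, cntStep, ha, if_true, cstep]
      split_ifs
      · push_cast; linarith
      · push_cast; linarith
    refine (ex1_mono h1).trans ?_
    rw [ex1_sub, ex1_const, ex1_sq]
    simp only [cntG, ha, if_true]
    linarith
  · have h1 : ∀ l, cntG m ρ (cntStep ρ σ l) = cntG m ρ σ := by
      intro l
      have h2 : ¬ (cstep σ.1 l).Al ρ := fun h => ha (Al_of_step h)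
      simp only [cntG, cntStep, ha, h2, if_false]
    simp only [h1]
    rw [ex1_const, add_zero]

/-- the cursor leaves `(-ρ, ρ)` -/
theorem leave_prob (ρ : ℕ) {t : ℕ} (ht : 0 < t) :
    Ex m t (fun L => if (cur L).Al ρ then 1 else 0) ≤ (ρ : ℝ) ^ 2 * dd m / t := by
  have hd := dd_pos m
  have h1 := Ex_foldl_le (m := m) (cntStep ρ) (cntG m ρ) (fun σ => σ.1.Inv) 0
    (fun σ h l => h.step l) (fun σ h => cnt_drift ρ σ h) t (cur0, 0) ⟨le_rfl, le_rfl⟩
  have h2 : cntG m ρ (cur0, 0) ≤ (ρ : ℝ) ^ 2 := by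
    simp only [cntG, cur0]
    split_ifs <;> simp
  have ht' : (0 : ℝ) < t := Nat.cast_pos.2 ht
  have h3 : Ex m t (fun L => (t / dd m) * (if (cur L).Al ρ then 1 else 0))
      ≤ Ex m t (fun L => cntG m ρ (L.foldl (cntStep ρ) (cur0, 0))) := by
    refine Ex_mono_len t fun L hL => ?_
    by_cases ha : (cur L).Al ρ
    · have h4 := cnt_eq L (cur0, 0) ha
      have h5 : (L.foldl (cntStep ρ) (cur0, 0)).1 = cur L := cntStep_fst ρ L _
      simp only [cntG, h4, h5, ha, if_true]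
      have hInv : (cur L).Inv :=
        foldl_inv cstep Cur.Inv (fun σ h l => h.step l) L cur0 ⟨le_rfl, le_rfl⟩
      have h6 : ((cur L).s : ℝ) ^ 2 ≤ (ρ : ℝ) ^ 2 := by
        rw [← sq_abs]
        refine pow_le_pow_left₀ (abs_nonneg _) ?_ 2
        rw [abs_le]
        have h7 : -(ρ : ℤ) ≤ (cur L).s := by have := ha.1; have := hInv.1; omega
        have h8 : (cur L).s ≤ ρ := by have := ha.2; have := hInv.2; omega
        constructor
        · exact_mod_cast h7
        · exact_mod_cast h8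
      rw [hL]
      push_cast
      rw [div_eq_mul_one_div]
      linarith
    · have h5 : (L.foldl (cntStep ρ) (cur0, 0)).1 = cur L := cntStep_fst ρ L _
      simp only [cntG, h5, ha, if_false, mul_zero, add_zero]
      positivity
  rw [Ex_mul] at h3
  have h4 := h3.trans (h1.trans (by linarith : _ ≤ (ρ : ℝ) ^ 2))
  rw [div_mul_eq_mul_div, div_le_iff₀ hd] at h4
  rw [le_div_iff₀ ht']
  linarith

/-- the cosine potential -/
noncomputable def cosG (ρ : ℕ) (c : Cur) : ℝ :=
  if c.Al ρ then Real.cos (Real.pi * c.s / (2 * ρ)) else 0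

theorem cos_drift {ρ : ℕ} (hρ : 0 < ρ) (c : Cur) (hc : c.Inv) :
    (1 - 1 / dd m * (1 - Real.cos (Real.pi / (2 * ρ)))) * cosG ρ c
      ≤ ex1 m (fun l => cosG ρ (cstep c l)) := by
  have hd := dd_pos m
  have hρ' : (0 : ℝ) < ρ := Nat.cast_pos.2 hρ
  by_cases ha : c.Al ρ
  · have h1 : ∀ l, cosG ρ (cstep c l) = Real.cos (Real.pi * ((c.s : ℝ) + mv l) / (2 * ρ)) := by
      intro l
      have h2 := mv_le l
      by_cases hb : (cstep c l).Al ρ
      · have h3 : cosG ρ (cstep c l) = Real.cos (Real.pi * (cstep c l).s / (2 * ρ)) := if_pos hb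
        rw [h3]
        simp only [cstep]
        push_cast; rfl
      · simp only [cosG, hb, if_false]
        have hcases : c.s + mv l = ρ ∨ c.s + mv l = -ρ := by
          have h3 := ha.1; have h4 := ha.2; have h5 := hc.1; have h6 := hc.2
          simp only [Cur.Al, cstep, not_and_or, not_lt, min_le_iff, le_max_iff] at hb
          omega
        rcases hcases with h | h
        · have : (c.s : ℝ) + mv l = ρ := by exact_mod_cast h
          rw [this]
          have h2 : Real.pi * ρ / (2 * ρ) = Real.pi / 2 := by field_simp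
          rw [h2, Real.cos_pi_div_two]
        · have : (c.s : ℝ) + mv l = -ρ := by exact_mod_cast h
          rw [this]
          have h2 : Real.pi * -ρ / (2 * ρ) = -(Real.pi / 2) := by field_simp
          rw [h2, Real.cos_neg, Real.cos_pi_div_two]
    simp only [h1]
    unfold ex1
    simp only [mv]
    rw [Finset.sum_const, Finset.card_univ, ZMod.card]
    simp only [nsmul_eq_mul, cosG, ha, if_true]
    push_cast
    have h2 : Real.cos (Real.pi * ((c.s : ℝ) + 1) / (2 * ρ))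
        + Real.cos (Real.pi * ((c.s : ℝ) + -1) / (2 * ρ))
        = 2 * Real.cos (Real.pi * c.s / (2 * ρ)) * Real.cos (Real.pi / (2 * ρ)) := by
      have e1 : Real.pi * ((c.s : ℝ) + 1) / (2 * ρ) = Real.pi * c.s / (2 * ρ) + Real.pi / (2 * ρ) := by
        ring
      have e2 : Real.pi * ((c.s : ℝ) + -1) / (2 * ρ)
          = Real.pi * c.s / (2 * ρ) - Real.pi / (2 * ρ) := by ring
      rw [e1, e2, Real.cos_add, Real.cos_sub]; ring
    rw [h2, add_zero]
    refine le_of_eq ?_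
    field_simp
    unfold dd
    ring
  · simp only [cosG, ha, if_false, mul_zero]
    have h1 : ∀ l, (0 : ℝ) ≤ (if (cstep c l).Al ρ then
        Real.cos (Real.pi * (cstep c l).s / (2 * ρ)) else 0) := by
      intro l
      have h2 : ¬ (cstep c l).Al ρ := fun h => ha (Al_of_step h)
      simp [h2]
    have h2 := ex1_mono (m := m) h1
    rwa [ex1_const] at h2

/-- the cursor stays in `(-ρ, ρ)` -/
theorem stay_prob (hm : 500 ≤ dd m) {ρ : ℕ} (hρ : 0 < ρ) (C : ℕ) :
    (24 / 25 : ℝ) ^ C ≤ Ex m ((16 * ρ ^ 2) * C) (fun L => if (cur L).Al ρ then 1 else 0) := by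
  have hd := dd_pos m
  have hρ' : (0 : ℝ) < ρ := Nat.cast_pos.2 hρ
  set b : ℝ := Real.pi / (2 * ρ) with hb
  have hcos : 1 - Real.cos b ≤ b ^ 2 / 2 := by
    have := Real.one_sub_sq_div_two_le_cos (x := b); linarith
  set lam : ℝ := 1 - 1 / dd m * (1 - Real.cos b) with hlam
  have hpi : Real.pi ^ 2 ≤ 9.87 := by
    have h1 := Real.pi_lt_d4
    have h2 := Real.pi_pos
    nlinarith
  have h1 : 1 - lam ≤ 1 / dd m * (Real.pi ^ 2 / (8 * ρ ^ 2)) := by
    rw [hlam]
    have h2 : b ^ 2 / 2 = Real.pi ^ 2 / (8 * ρ ^ 2) := by rw [hb]; field_simp; norm_num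
    rw [← h2, sub_sub_cancel]
    exact mul_le_mul_of_nonneg_left hcos (by positivity)
  have hlam1 : lam ≤ 1 := by
    rw [hlam]
    have : 0 ≤ 1 / dd m * (1 - Real.cos b) :=
      mul_nonneg (by positivity) (by linarith [Real.cos_le_one b])
    linarith
  have h3 : (16 * (ρ : ℝ) ^ 2) * (1 - lam) ≤ 1 / 25 := by
    calc (16 * (ρ : ℝ) ^ 2) * (1 - lam)
        ≤ (16 * (ρ : ℝ) ^ 2) * (1 / dd m * (Real.pi ^ 2 / (8 * ρ ^ 2))) :=
          mul_le_mul_of_nonneg_left h1 (by positivity)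
      _ = 2 * Real.pi ^ 2 / dd m := by field_simp; norm_num
      _ ≤ 2 * 9.87 / 500 := by gcongr
      _ ≤ 1 / 25 := by norm_num
  have hρ1 : (1 : ℝ) ≤ (ρ : ℝ) ^ 2 := by
    have : (1 : ℝ) ≤ ρ := by exact_mod_cast hρ
    nlinarith
  have hlam0 : 0 ≤ lam := by nlinarith
  have hbern : 24 / 25 ≤ lam ^ (16 * ρ ^ 2) := by
    have h4 := one_add_mul_le_pow (a := lam - 1) (by linarith) (16 * ρ ^ 2)
    have h5 : 1 + (lam - 1) = lam := by ring
    rw [h5] at h4
    push_cast at h4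
    nlinarith
  have h6 : (24 / 25 : ℝ) ^ C ≤ lam ^ ((16 * ρ ^ 2) * C) := by
    rw [pow_mul]
    exact pow_le_pow_left₀ (by norm_num) hbern C
  have h7 := Ex_foldl_ge (m := m) cstep (cosG ρ) Cur.Inv lam hlam0 (fun σ h l => h.step l)
    (fun σ h => cos_drift hρ σ h) ((16 * ρ ^ 2) * C) cur0 ⟨le_rfl, le_rfl⟩
  have h8 : cosG ρ cur0 = 1 := by
    have : cur0.Al ρ := by
      constructor <;> simp [cur0, hρ]
    rw [cosG, if_pos this]
    simp [cur0]
  rw [h8, mul_one] at h7
  refine h6.trans (h7.trans (Ex_mono _ fun L => ?_))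
  show cosG ρ (cur L) ≤ _
  unfold cosG
  split_ifs
  · exact Real.cos_le_one _
  · exact le_rfl

end Pool.Agent.D0H96
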