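import Mathlib

/-! Expectations over lists of labels. -/

set_option linter.unusedSectionVars false

namespace Pool.Agent.D0H96

open Finset

/-- the labels of one step: cursor up, cursor down, hold, action of head `k` -/
inductive Lab : Type
  | cp | cm | c0
  | L (k : ZMod 3)

variable (m : ℕ)

/-- degree -/
noncomputable def dd : ℝ := 2 + 3 * m

theorem dd_pos : 0 < dd m := by unfold dd; positivity

/-- one step average -/
noncomputable def ex1 (φ : Lab → ℝ) : ℝ :=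
  1 / (2 * dd m) * (φ .cp + φ .cm) + 1 / dd m * φ .c0 + m / dd m * ∑ k : ZMod 3, φ (.L k)

/-- average over label lists of length `t` -/
noncomputable def Ex : ℕ → (List Lab → ℝ) → ℝ
  | 0, Φ => Φ []
  | t + 1, Φ => ex1 m fun l => Ex t fun L => Φ (l :: L)

variable {m}

theorem ex1_mono {φ ψ : Lab → ℝ} (h : ∀ l, φ l ≤ ψ l) : ex1 m φ ≤ ex1 m ψ := by
  have hd := dd_pos m
  unfold ex1
  have h1 : ∑ k : ZMod 3, φ (.L k) ≤ ∑ k : ZMod 3, ψ (.L k) := Finset.sum_le_sum fun k _ => h _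
  have h2 := h .cp
  have h3 := h .cm
  have h4 := h .c0
  gcongr

theorem ex1_const (c : ℝ) : ex1 m (fun _ => c) = c := by
  have hd := dd_pos m
  unfold ex1
  rw [Finset.sum_const, Finset.card_univ, ZMod.card]
  simp only [nsmul_eq_mul]
  field_simp
  unfold dd
  push_cast
  ring

theorem ex1_add (φ ψ : Lab → ℝ) : ex1 m (fun l => φ l + ψ l) = ex1 m φ + ex1 m ψ := by
  unfold ex1
  rw [Finset.sum_add_distrib]; ring

theorem ex1_mul (c : ℝ) (φ : Lab → ℝ) : ex1 m (fun l => c * φ l) = c * ex1 m φ := by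
  unfold ex1
  rw [← Finset.mul_sum]; ring

theorem ex1_sub (φ ψ : Lab → ℝ) : ex1 m (fun l => φ l - ψ l) = ex1 m φ - ex1 m ψ := by
  unfold ex1
  rw [Finset.sum_sub_distrib]; ring

theorem ex1_sum {ι : Type} (s : Finset ι) (φ : ι → Lab → ℝ) :
    ex1 m (fun l => ∑ i ∈ s, φ i l) = ∑ i ∈ s, ex1 m (φ i) := by
  classical
  induction s using Finset.induction_on with
  | empty => simp only [Finset.sum_empty]; exact ex1_const 0
  | insert a s ha ih => simp only [Finset.sum_insert ha]; rw [ex1_add, ih]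

theorem Ex_zero (Φ : List Lab → ℝ) : Ex m 0 Φ = Φ [] := rfl
theorem Ex_succ (t : ℕ) (Φ : List Lab → ℝ) :
    Ex m (t + 1) Φ = ex1 m fun l => Ex m t fun L => Φ (l :: L) := rfl

theorem Ex_mono_len : ∀ (t : ℕ) {Φ Ψ : List Lab → ℝ}, (∀ L, L.length = t → Φ L ≤ Ψ L) →
    Ex m t Φ ≤ Ex m t Ψ
  | 0, _, _, h => h [] rfl
  | t + 1, _, _, h => ex1_mono fun l => Ex_mono_len t fun L hL => h (l :: L) (by simp [hL])

theorem Ex_mono (t : ℕ) {Φ Ψ : List Lab → ℝ} (h : ∀ L, Φ L ≤ Ψ L) : Ex m t Φ ≤ Ex m t Ψ :=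
  Ex_mono_len t fun L _ => h L

theorem Ex_congr_len (t : ℕ) {Φ Ψ : List Lab → ℝ} (h : ∀ L, L.length = t → Φ L = Ψ L) :
    Ex m t Φ = Ex m t Ψ :=
  le_antisymm (Ex_mono_len t fun L hL => (h L hL).le) (Ex_mono_len t fun L hL => (h L hL).ge)

theorem Ex_const (c : ℝ) : ∀ t : ℕ, Ex m t (fun _ => c) = c
  | 0 => rfl
  | t + 1 => by rw [Ex_succ]; simp only [Ex_const c t]; exact ex1_const c

theorem Ex_add : ∀ (t : ℕ) (Φ Ψ : List Lab → ℝ),
    Ex m t (fun L => Φ L + Ψ L) = Ex m t Φ + Ex m t Ψ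
  | 0, _, _ => rfl
  | t + 1, Φ, Ψ => by
    rw [Ex_succ]
    simp only [Ex_add t]
    rw [ex1_add]; rfl

theorem Ex_sub : ∀ (t : ℕ) (Φ Ψ : List Lab → ℝ),
    Ex m t (fun L => Φ L - Ψ L) = Ex m t Φ - Ex m t Ψ
  | 0, _, _ => rfl
  | t + 1, Φ, Ψ => by
    rw [Ex_succ]
    simp only [Ex_sub t]
    rw [ex1_sub]; rfl

theorem Ex_mul (c : ℝ) : ∀ (t : ℕ) (Φ : List Lab → ℝ),
    Ex m t (fun L => c * Φ L) = c * Ex m t Φ
  | 0, _ => rfl
  | t + 1, Φ => by
    rw [Ex_succ]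
    simp only [Ex_mul c t]
    rw [ex1_mul]; rfl

theorem Ex_sum {ι : Type} (s : Finset ι) : ∀ (t : ℕ) (Φ : ι → List Lab → ℝ),
    Ex m t (fun L => ∑ i ∈ s, Φ i L) = ∑ i ∈ s, Ex m t (Φ i)
  | 0, _ => rfl
  | t + 1, Φ => by
    rw [Ex_succ]
    simp only [Ex_sum s t]
    rw [ex1_sum]; rfl

theorem Ex_nonneg (t : ℕ) {Φ : List Lab → ℝ} (h : ∀ L, 0 ≤ Φ L) : 0 ≤ Ex m t Φ := by
  rw [← Ex_const (m := m) 0 t]; exact Ex_mono t h

theorem Ex_abs_le (t : ℕ) (Φ : List Lab → ℝ) : |Ex m t Φ| ≤ Ex m t fun L => |Φ L| := by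
  rw [abs_le]
  constructor
  · have h1 : Ex m t (fun L => (-1) * |Φ L|) ≤ Ex m t Φ :=
      Ex_mono t fun L => by linarith [neg_abs_le (Φ L)]
    rw [Ex_mul] at h1; linarith
  · exact Ex_mono t fun L => le_abs_self _

theorem Ex_append : ∀ (s t : ℕ) (Φ : List Lab → ℝ),
    Ex m (s + t) Φ = Ex m s fun L₁ => Ex m t fun L₂ => Φ (L₁ ++ L₂)
  | 0, t, Φ => by rw [Nat.zero_add]; rfl
  | s + 1, t, Φ => by
    rw [Nat.add_right_comm, Ex_succ, Ex_succ]
    simp only [Ex_append s t]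
    rfl

/-- supermartingale inequality -/
theorem Ex_foldl_le {St : Type} (step : St → Lab → St) (G : St → ℝ) (Inv : St → Prop) (c : ℝ)
    (hInv : ∀ σ, Inv σ → ∀ l, Inv (step σ l))
    (hG : ∀ σ, Inv σ → ex1 m (fun l => G (step σ l)) ≤ G σ + c) :
    ∀ (t : ℕ) (σ : St), Inv σ → Ex m t (fun L => G (L.foldl step σ)) ≤ G σ + t * c
  | 0, σ, _ => by rw [Ex_zero]; simp
  | t + 1, σ, hσ => by
    rw [Ex_succ]
    have h1 : ex1 m (fun l => Ex m t fun L => G ((l :: L).foldl step σ))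
        ≤ ex1 m (fun l => G (step σ l) + t * c) :=
      ex1_mono fun l => by
        have := Ex_foldl_le step G Inv c hInv hG t (step σ l) (hInv σ hσ l)
        simpa using this
    refine h1.trans ?_
    rw [ex1_add, ex1_const]
    have := hG σ hσ
    push_cast
    linarith

/-- multiplicative submartingale inequality -/
theorem Ex_foldl_ge {St : Type} (step : St → Lab → St) (G : St → ℝ) (Inv : St → Prop) (c : ℝ)
    (hc : 0 ≤ c) (hInv : ∀ σ, Inv σ → ∀ l, Inv (step σ l))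
    (hG : ∀ σ, Inv σ → c * G σ ≤ ex1 m (fun l => G (step σ l))) :
    ∀ (t : ℕ) (σ : St), Inv σ → c ^ t * G σ ≤ Ex m t (fun L => G (L.foldl step σ))
  | 0, σ, _ => by rw [Ex_zero]; simp
  | t + 1, σ, hσ => by
    rw [Ex_succ]
    have h1 : ex1 m (fun l => c ^ t * G (step σ l))
        ≤ ex1 m (fun l => Ex m t fun L => G ((l :: L).foldl step σ)) :=
      ex1_mono fun l => by
        have := Ex_foldl_ge step G Inv c hc hInv hG t (step σ l) (hInv σ hσ l)
        simpa using this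
    refine le_trans ?_ h1
    rw [ex1_mul, pow_succ, mul_assoc]
    exact mul_le_mul_of_nonneg_left (hG σ hσ) (pow_nonneg hc t)

theorem foldl_inv {St : Type} (step : St → Lab → St) (Inv : St → Prop)
    (hInv : ∀ σ, Inv σ → ∀ l, Inv (step σ l)) : ∀ (L : List Lab) (σ : St), Inv σ →
    Inv (L.foldl step σ)
  | [], _, h => h
  | l :: L, σ, h => foldl_inv step Inv hInv L (step σ l) (hInv σ h l)

open Classical in
/-- Markov inequality -/
theorem Ex_markov (t : ℕ) {Z : List Lab → ℝ} (hZ : ∀ L, 0 ≤ Z L) {a : ℝ} (ha : 0 < a) :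
    Ex m t (fun L => if a ≤ Z L then 1 else 0) ≤ Ex m t Z / a := by
  rw [div_eq_inv_mul, ← Ex_mul]
  refine Ex_mono t fun L => ?_
  split_ifs with h
  · rw [le_inv_mul_iff₀ ha]; linarith
  · exact mul_nonneg (by positivity) (hZ L)

end Pool.Agent.D0H96
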