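import Pool.Agent.D0H96.Nrm

/-! Averages over subgroups of a finite group, acting by right translations. -/

set_option linter.unusedSectionVars false

namespace Pool.Agent.D0H96

open Matrix Finset

variable {G : Type} [Group G] [Fintype G] [DecidableEq G]

/-- right translation -/
def tr (h : G) : Matrix G G ℝ := fun q q' => if q' = q * h then 1 else 0

theorem tr_mulVec (h : G) (f : G → ℝ) : tr h *ᵥ f = fun q => f (q * h) := by
  funext q; simp [tr, Matrix.mulVec, dotProduct]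

theorem mulVec_ext {A B : Matrix G G ℝ} (h : ∀ f, A *ᵥ f = B *ᵥ f) : A = B := by
  ext i j
  have := congrFun (h (Pi.single j 1)) i
  simpa using this

theorem tr_mul (h h' : G) : tr h * tr h' = tr (h * h') := by
  refine mulVec_ext fun f => ?_
  rw [← Matrix.mulVec_mulVec, tr_mulVec, tr_mulVec, tr_mulVec]
  funext q
  show f (q * h * h') = f (q * (h * h'))
  rw [mul_assoc]

theorem tr_mem (h : G) : tr h ∈ doublyStochastic ℝ G := by
  rw [mem_doublyStochastic_iff_sum]
  refine ⟨fun i j => ?_, fun i => ?_, fun j => ?_⟩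
  · simp only [tr]; split_ifs <;> norm_num
  · simp [tr]
  · simp only [tr]
    rw [Finset.sum_eq_single (j * h⁻¹)]
    · simp
    · intro b _ hb
      rw [if_neg]
      rintro rfl
      exact hb (by simp)
    · simp

/-- convex combinations -/
theorem avg_mem {ι : Type} [Fintype ι] [Nonempty ι] (A : ι → Matrix G G ℝ)
    (hA : ∀ i, A i ∈ doublyStochastic ℝ G) :
    ((Fintype.card ι : ℝ)⁻¹) • ∑ i, A i ∈ doublyStochastic ℝ G := by
  have h := (convex_doublyStochastic (R := ℝ) (n := G)).sum_mem (t := Finset.univ)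
    (w := fun _ : ι => ((Fintype.card ι : ℝ)⁻¹)) (z := A) (fun _ _ => by positivity)
    (by
      rw [Finset.sum_const, Finset.card_univ, nsmul_eq_mul, mul_inv_cancel₀]
      exact Nat.cast_ne_zero.2 Fintype.card_ne_zero) (fun i _ => hA i)
  rw [← Finset.smul_sum] at h
  exact h

noncomputable instance (K : Subgroup G) : Fintype K := Fintype.ofFinite K

/-- average over the subgroup `K` -/
noncomputable def av (K : Subgroup G) : Matrix G G ℝ :=
  ((Fintype.card K : ℝ)⁻¹) • ∑ h : K, tr (h : G)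

theorem av_mem (K : Subgroup G) : av K ∈ doublyStochastic ℝ G :=
  avg_mem _ fun h => tr_mem _

theorem av_apply (K : Subgroup G) (f : G → ℝ) (q : G) :
    (av K *ᵥ f) q = ((Fintype.card K : ℝ)⁻¹) * ∑ h : K, f (q * h) := by
  rw [av, Matrix.smul_mulVec, Matrix.sum_mulVec, Pi.smul_apply, Finset.sum_apply, smul_eq_mul]
  simp only [tr_mulVec]

theorem card_inv_pos (K : Subgroup G) : (0 : ℝ) < (Fintype.card K : ℝ)⁻¹ :=
  inv_pos.2 (Nat.cast_pos.2 Fintype.card_pos)

theorem av_inv (K : Subgroup G) (f : G → ℝ) (q : G) {k : G} (hk : k ∈ K) :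
    (av K *ᵥ f) (q * k) = (av K *ᵥ f) q := by
  rw [av_apply, av_apply]
  congr 1
  refine Fintype.sum_equiv (Equiv.mulLeft (⟨k, hk⟩ : K)) _ _ fun h => ?_
  simp [mul_assoc]

theorem av_fix (K : Subgroup G) {f : G → ℝ} (hf : ∀ k ∈ K, ∀ q, f (q * k) = f q) :
    av K *ᵥ f = f := by
  funext q
  rw [av_apply]
  simp only [hf _ (Subtype.coe_prop _)]
  rw [Finset.sum_const, Finset.card_univ, nsmul_eq_mul, ← mul_assoc, inv_mul_cancel₀, one_mul]
  exact Nat.cast_ne_zero.2 Fintype.card_ne_zero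

theorem av_idem (K : Subgroup G) : av K * av K = av K :=
  mulVec_ext fun f => by
    rw [← Matrix.mulVec_mulVec]
    exact av_fix K fun k hk q => av_inv K f q hk

theorem tr_mul_av (K : Subgroup G) {k : G} (hk : k ∈ K) : tr k * av K = av K :=
  mulVec_ext fun f => by
    rw [← Matrix.mulVec_mulVec, tr_mulVec]
    funext q
    exact av_inv K f q hk

theorem av_mul_tr (K : Subgroup G) {k : G} (hk : k ∈ K) : av K * tr k = av K :=
  mulVec_ext fun f => by
    rw [← Matrix.mulVec_mulVec, tr_mulVec]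
    funext q
    rw [av_apply, av_apply]
    congr 1
    refine Fintype.sum_equiv (Equiv.mulRight (⟨k, hk⟩ : K)) _ _ fun h => ?_
    simp [mul_assoc]

theorem av_mul_av_of_le {L K : Subgroup G} (h : L ≤ K) : av K * av L = av K := by
  conv_lhs => rw [av.eq_def L]
  rw [Matrix.mul_smul, Matrix.mul_sum]
  simp only [av_mul_tr K (h (Subtype.coe_prop _))]
  rw [Finset.sum_const, Finset.card_univ, ← Nat.cast_smul_eq_nsmul ℝ, smul_smul,
    inv_mul_cancel₀, one_smul]
  exact Nat.cast_ne_zero.2 Fintype.card_ne_zero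

theorem av_mul_av_of_le' {L K : Subgroup G} (h : L ≤ K) : av L * av K = av K := by
  conv_lhs => rw [av.eq_def L]
  rw [Matrix.smul_mul, Matrix.sum_mul]
  simp only [tr_mul_av K (h (Subtype.coe_prop _))]
  rw [Finset.sum_const, Finset.card_univ, ← Nat.cast_smul_eq_nsmul ℝ, smul_smul,
    inv_mul_cancel₀, one_smul]
  exact Nat.cast_ne_zero.2 Fintype.card_ne_zero

theorem tr_adj (h : G) (f g : G → ℝ) :
    ∑ q, (tr h *ᵥ f) q * g q = ∑ q, f q * (tr h⁻¹ *ᵥ g) q := by
  simp only [tr_mulVec]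
  refine Fintype.sum_equiv (Equiv.mulRight h) _ _ fun q => ?_
  simp

theorem av_adj (K : Subgroup G) (f g : G → ℝ) :
    ∑ q, (av K *ᵥ f) q * g q = ∑ q, f q * (av K *ᵥ g) q := by
  simp only [av_apply, mul_assoc, mul_left_comm (f _), ← Finset.mul_sum, Finset.sum_mul]
  congr 1
  simp only [Finset.mul_sum]
  rw [Finset.sum_comm, Finset.sum_comm (γ := G)]
  rw [← Equiv.sum_comp (Equiv.inv K)]
  refine Finset.sum_congr rfl fun h _ => ?_
  have := tr_adj ((h : G)⁻¹) f g
  simp only [tr_mulVec, inv_inv] at this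
  simpa using this

/-- averages commute when one subgroup normalises the other -/
theorem av_comm {K L : Subgroup G} (h : ∀ k ∈ K, ∀ l ∈ L, k * l * k⁻¹ ∈ L) :
    av K * av L = av L * av K := by
  have key : ∀ k ∈ K, tr k * av L = av L * tr k := by
    intro k hk
    refine mulVec_ext fun f => ?_
    rw [← Matrix.mulVec_mulVec, ← Matrix.mulVec_mulVec, tr_mulVec, tr_mulVec]
    funext q
    rw [av_apply, av_apply]
    congr 1
    have h' : ∀ l ∈ L, k⁻¹ * l * k ∈ L := fun l hl => by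
      have := h k⁻¹ (K.inv_mem hk) l hl
      simpa using this
    refine Fintype.sum_equiv
      ⟨fun l => ⟨k * l * k⁻¹, h k hk l l.2⟩, fun l => ⟨k⁻¹ * l * k, h' l l.2⟩,
        fun l => by ext; simp [mul_assoc], fun l => by ext; simp [mul_assoc]⟩ _ _ fun l => ?_
    simp [mul_assoc]
  conv_lhs => rw [av.eq_def K]
  conv_rhs => rw [av.eq_def K]
  rw [Matrix.smul_mul, Matrix.sum_mul, Matrix.mul_smul, Matrix.mul_sum]
  congr 1
  exact Finset.sum_congr rfl fun k _ => key k k.2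

theorem nrm_sub_av_le (K : Subgroup G) (f : G → ℝ) : nrm (f - av K *ᵥ f) ≤ nrm f := by
  have h1 : ∑ q, (av K *ᵥ f) q * (av K *ᵥ f) q = ∑ q, f q * (av K *ᵥ f) q := by
    rw [av_adj, Matrix.mulVec_mulVec, av_idem]
  have h2 : nrm (f - av K *ᵥ f) ^ 2 = nrm f ^ 2 - nrm (av K *ᵥ f) ^ 2 := by
    rw [nrm_sq, nrm_sq, nrm_sq, ← Finset.sum_sub_distrib]
    have h3 : ∑ q, (f - av K *ᵥ f) q ^ 2 - ∑ q, (f q ^ 2 - (av K *ᵥ f) q ^ 2) = 0 := by
      rw [← Finset.sum_sub_distrib]
      have h4 : ∀ q, (f - av K *ᵥ f) q ^ 2 - (f q ^ 2 - (av K *ᵥ f) q ^ 2)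
          = 2 * ((av K *ᵥ f) q * (av K *ᵥ f) q) - 2 * (f q * (av K *ᵥ f) q) := by
        intro q; simp only [Pi.sub_apply]; ring
      simp only [h4]
      rw [Finset.sum_sub_distrib, ← Finset.mul_sum, ← Finset.mul_sum, h1, sub_self]
    linarith
  have h5 : nrm (f - av K *ᵥ f) ^ 2 ≤ nrm f ^ 2 := by
    rw [h2]; nlinarith [sq_nonneg (nrm (av K *ᵥ f))]
  exact (abs_le_of_sq_le_sq' h5 (nrm_nonneg _)).2

/-! The lazy step operator with generators `S`. -/

variable {ι : Type} [Fintype ι] [Nonempty ι]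

/-- plain average of the generators -/
noncomputable def Tm (S : ι → G) : Matrix G G ℝ := ((Fintype.card ι : ℝ)⁻¹) • ∑ i, tr (S i)

/-- lazy average of the generators -/
noncomputable def Rm (S : ι → G) : Matrix G G ℝ := (1 / 2 : ℝ) • (1 + Tm S)

theorem Tm_mem (S : ι → G) : Tm S ∈ doublyStochastic ℝ G := avg_mem _ fun _ => tr_mem _

theorem Rm_mem (S : ι → G) : Rm S ∈ doublyStochastic ℝ G := by
  have h := (convex_doublyStochastic (R := ℝ) (n := G)) (one_mem _) (Tm_mem S)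
    (a := 1 / 2) (b := 1 / 2) (by norm_num) (by norm_num) (by norm_num)
  rw [Rm, smul_add]; exact h

theorem Tm_apply (S : ι → G) (f : G → ℝ) (q : G) :
    (Tm S *ᵥ f) q = ((Fintype.card ι : ℝ)⁻¹) * ∑ i, f (q * S i) := by
  rw [Tm, Matrix.smul_mulVec, Matrix.sum_mulVec, Pi.smul_apply, Finset.sum_apply, smul_eq_mul]
  simp only [tr_mulVec]

theorem Rm_apply (S : ι → G) (f : G → ℝ) (q : G) :
    (Rm S *ᵥ f) q = 1 / 2 * f q + 1 / (2 * Fintype.card ι) * ∑ i, f (q * S i) := by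
  rw [Rm, Matrix.smul_mulVec, Matrix.add_mulVec, Matrix.one_mulVec, Pi.smul_apply, Pi.add_apply,
    Tm_apply, smul_eq_mul]
  field_simp

theorem avg_const {M : Type} [AddCommGroup M] [Module ℝ M] (x : M) :
    ((Fintype.card ι : ℝ)⁻¹) • ∑ _i : ι, x = x := by
  rw [Finset.sum_const, Finset.card_univ, ← Nat.cast_smul_eq_nsmul ℝ, smul_smul,
    inv_mul_cancel₀, one_smul]
  exact Nat.cast_ne_zero.2 Fintype.card_ne_zero

theorem Tm_mul_av (S : ι → G) {K : Subgroup G} (hS : ∀ i, S i ∈ K) : Tm S * av K = av K := by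
  rw [Tm, Matrix.smul_mul, Matrix.sum_mul]
  simp only [tr_mul_av K (hS _)]
  exact avg_const _

theorem av_mul_Tm (S : ι → G) {K : Subgroup G} (hS : ∀ i, S i ∈ K) : av K * Tm S = av K := by
  rw [Tm, Matrix.mul_smul, Matrix.mul_sum]
  simp only [av_mul_tr K (hS _)]
  exact avg_const _

theorem Rm_mul_av (S : ι → G) {K : Subgroup G} (hS : ∀ i, S i ∈ K) : Rm S * av K = av K := by
  rw [Rm, Matrix.smul_mul, add_mul, one_mul, Tm_mul_av S hS, ← two_smul ℝ, smul_smul]
  norm_num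

theorem av_mul_Rm (S : ι → G) {K : Subgroup G} (hS : ∀ i, S i ∈ K) : av K * Rm S = av K := by
  rw [Rm, Matrix.mul_smul, mul_add, mul_one, av_mul_Tm S hS, ← two_smul ℝ, smul_smul]
  norm_num

/-- equality case -/
theorem inv_of_nrm_eq (S : ι → G) {g : G → ℝ} (h : nrm g ≤ nrm (Rm S *ᵥ g)) (i : ι) (q : G) :
    g (q * S i) = g q := by
  have hT : nrm (Tm S *ᵥ g) ≤ nrm g := by
    have := DS_Bd (Tm_mem S) g; rwa [one_mul] at this
  -- inner product of Tg and g is at least |g|^2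
  have h1 : nrm (Rm S *ᵥ g) ^ 2
      = 1 / 4 * (nrm g ^ 2 + 2 * ∑ q, (Tm S *ᵥ g) q * g q + nrm (Tm S *ᵥ g) ^ 2) := by
    rw [nrm_sq, nrm_sq, nrm_sq, Finset.mul_sum (s := Finset.univ) (a := (2 : ℝ)),
      ← Finset.sum_add_distrib, ← Finset.sum_add_distrib, Finset.mul_sum]
    refine Finset.sum_congr rfl fun q _ => ?_
    rw [Rm, Matrix.smul_mulVec, Matrix.add_mulVec, Matrix.one_mulVec, Pi.smul_apply,
      Pi.add_apply, smul_eq_mul]
    ring
  have h2 : nrm g ^ 2 ≤ ∑ q, (Tm S *ᵥ g) q * g q := by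
    have h3 : nrm g ^ 2 ≤ nrm (Rm S *ᵥ g) ^ 2 := pow_le_pow_left₀ (nrm_nonneg _) h 2
    have h4 : nrm (Tm S *ᵥ g) ^ 2 ≤ nrm g ^ 2 := pow_le_pow_left₀ (nrm_nonneg _) hT 2
    linarith
  -- sum of squares
  have h5 : ∑ i, ∑ q, (g (q * S i) - g q) ^ 2 ≤ 0 := by
    have h6 : ∀ i, ∑ q, (g (q * S i) - g q) ^ 2
        = 2 * nrm g ^ 2 - 2 * ∑ q, g (q * S i) * g q := by
      intro i
      have h7 : ∑ q, g (q * S i) ^ 2 = nrm g ^ 2 := by
        rw [nrm_sq]
        exact Fintype.sum_equiv (Equiv.mulRight (S i)) _ _ fun q => rfl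
      have h8 : ∑ q, (g (q * S i) - g q) ^ 2
          = ∑ q, g (q * S i) ^ 2 + ∑ q, g q ^ 2 - 2 * ∑ q, g (q * S i) * g q := by
        rw [Finset.mul_sum, ← Finset.sum_add_distrib, ← Finset.sum_sub_distrib]
        exact Finset.sum_congr rfl fun q _ => by ring
      rw [h8, h7, ← nrm_sq]; ring
    simp only [h6]
    have hc : (0 : ℝ) < Fintype.card ι := Nat.cast_pos.2 Fintype.card_pos
    have h9 : ∑ q, (Tm S *ᵥ g) q * g q
        = (Fintype.card ι : ℝ)⁻¹ * ∑ i, ∑ q, g (q * S i) * g q := by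
      simp only [Tm_apply, mul_assoc, ← Finset.mul_sum, Finset.sum_mul]
      rw [Finset.sum_comm]
    rw [h9, le_inv_mul_iff₀ hc] at h2
    rw [Finset.sum_sub_distrib, Finset.sum_const, Finset.card_univ, nsmul_eq_mul,
      ← Finset.mul_sum]
    linarith
  have h10 : ∑ i, ∑ q, (g (q * S i) - g q) ^ 2 = 0 :=
    le_antisymm h5 (Finset.sum_nonneg fun _ _ => Finset.sum_nonneg fun _ _ => sq_nonneg _)
  have h11 := (Finset.sum_eq_zero_iff_of_nonneg
    (fun i _ => Finset.sum_nonneg fun q _ => sq_nonneg (g (q * S i) - g q))).1 h10 i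
    (Finset.mem_univ i)
  have h12 := (Finset.sum_eq_zero_iff_of_nonneg
    (fun q _ => sq_nonneg (g (q * S i) - g q))).1 h11 q (Finset.mem_univ q)
  have h13 := pow_eq_zero_iff (two_ne_zero) |>.1 h12
  linarith

theorem nrm_smul' (c : ℝ) (f : G → ℝ) : nrm (c • f) = |c| * nrm f := nrm_smul c f

/-- a matrix which strictly contracts every nonzero vector contracts uniformly -/
theorem exists_contract (V : Matrix G G ℝ) (hV : ∀ f : G → ℝ, f ≠ 0 → nrm (V *ᵥ f) < nrm f) :
    ∃ θ : ℝ, 0 ≤ θ ∧ θ < 1 ∧ Bd V θ := by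
  have hcomp : IsCompact (Metric.sphere (0 : EuclideanSpace ℝ G) 1) := isCompact_sphere _ _
  have hne : (Metric.sphere (0 : EuclideanSpace ℝ G) 1).Nonempty :=
    NormedSpace.sphere_nonempty.2 zero_le_one
  have hlin : Continuous fun u : EuclideanSpace ℝ G => nrm (V *ᵥ (WithLp.ofLp u)) := by
    simp only [nrm_eq]
    refine continuous_norm.comp ?_
    have h1 : Continuous fun u : EuclideanSpace ℝ G => (V.mulVecLin (WithLp.ofLp u)) :=
      (LinearMap.continuous_of_finiteDimensional V.mulVecLin).comp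
        (PiLp.continuous_ofLp 2 _)
    exact (PiLp.continuous_toLp 2 _).comp h1
  obtain ⟨u, hu, hmax⟩ := hcomp.exists_isMaxOn hne hlin.continuousOn
  have hu1 : nrm (WithLp.ofLp u) = 1 := by
    rw [nrm_eq]; simpa using hu
  have hu0 : WithLp.ofLp u ≠ 0 := by
    intro h; rw [h, nrm_zero] at hu1; norm_num at hu1
  refine ⟨nrm (V *ᵥ (WithLp.ofLp u)), nrm_nonneg _, by
    have := hV _ hu0; rwa [hu1] at this, fun f => ?_⟩
  by_cases hf : nrm f = 0
  · rw [nrm_eq_zero hf, Matrix.mulVec_zero, nrm_zero]; simp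
  · have hfpos : 0 < nrm f := lt_of_le_of_ne (nrm_nonneg f) (Ne.symm hf)
    have hmem : WithLp.toLp 2 ((nrm f)⁻¹ • f) ∈ Metric.sphere (0 : EuclideanSpace ℝ G) 1 := by
      rw [mem_sphere_zero_iff_norm, ← nrm_eq, nrm_smul, abs_of_pos (inv_pos.2 hfpos),
        inv_mul_cancel₀ hf]
    have h1 := hmax hmem
    simp only [Set.mem_setOf_eq] at h1
    rw [Matrix.mulVec_smul, nrm_smul, abs_of_pos (inv_pos.2 hfpos), inv_mul_le_iff₀ hfpos] at h1
    linarith

theorem pow_sub_av (S : ι → G) {K : Subgroup G} (hS : ∀ i, S i ∈ K) (v : ℕ) :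
    (Rm S - av K) ^ (v + 1) = Rm S ^ (v + 1) - av K := by
  have hpow : ∀ v : ℕ, Rm S ^ v * av K = av K := by
    intro v
    induction v with
    | zero => rw [pow_zero, one_mul]
    | succ v ih => rw [pow_succ, mul_assoc, Rm_mul_av S hS, ih]
  induction v with
  | zero => simp
  | succ v ih =>
    rw [pow_succ, ih, sub_mul, mul_sub, mul_sub, hpow, av_mul_Rm S hS, av_idem, ← pow_succ]
    simp

/-- Uniform geometric convergence of the powers of the lazy operator. -/
theorem exists_gap (S : ι → G) {K : Subgroup G} (hS : Subgroup.closure (Set.range S) = K) :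
    ∃ θ : ℝ, 0 ≤ θ ∧ θ < 1 ∧ ∀ v : ℕ, Bd (Rm S ^ v - av K) (θ ^ v) := by
  have hS' : ∀ i, S i ∈ K := fun i => by
    rw [← hS]; exact Subgroup.subset_closure ⟨i, rfl⟩
  have hinv : ∀ g : G → ℝ, (∀ i q, g (q * S i) = g q) → ∀ k ∈ K, ∀ q, g (q * k) = g q := by
    intro g hg k hk
    rw [← hS] at hk
    induction hk using Subgroup.closure_induction with
    | mem x hx => obtain ⟨i, rfl⟩ := hx; exact hg i
    | one => intro q; rw [mul_one]
    | mul x y _ _ hx hy => intro q; rw [← mul_assoc, hy, hx]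
    | inv x _ hx => intro q; have := hx (q * x⁻¹); rw [inv_mul_cancel_right] at this; exact this.symm
  have hV : ∀ f : G → ℝ, f ≠ 0 → nrm ((Rm S - av K) *ᵥ f) < nrm f := by
    intro f hf
    set g := f - av K *ᵥ f with hg
    have h1 : (Rm S - av K) *ᵥ f = Rm S *ᵥ g := by
      rw [hg, Matrix.sub_mulVec, Matrix.mulVec_sub, Matrix.mulVec_mulVec, Rm_mul_av S hS']
    have h2 : nrm g ≤ nrm f := nrm_sub_av_le K f
    have h3 : nrm (Rm S *ᵥ g) ≤ nrm g := by
      have := DS_Bd (Rm_mem S) g; rwa [one_mul] at this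
    rw [h1]
    by_contra hcon
    rw [not_lt] at hcon
    have h4 : ∀ k ∈ K, ∀ q, g (q * k) = g q :=
      hinv g fun i q => inv_of_nrm_eq S (h2.trans hcon) i q
    have h5 : av K *ᵥ g = g := av_fix K h4
    have h6 : av K *ᵥ g = 0 := by
      rw [hg, Matrix.mulVec_sub, Matrix.mulVec_mulVec, av_idem, sub_self]
    have h7 : g = 0 := h5.symm.trans h6
    rw [h7, Matrix.mulVec_zero, nrm_zero] at hcon
    exact hf (nrm_eq_zero (le_antisymm hcon (nrm_nonneg f)))
  obtain ⟨θ, h0, h1, h2⟩ := exists_contract _ hV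
  refine ⟨θ, h0, h1, fun v => ?_⟩
  cases v with
  | zero =>
    intro f
    rw [pow_zero, pow_zero, Matrix.sub_mulVec, Matrix.one_mulVec, one_mul]
    exact nrm_sub_av_le K f
  | succ v =>
    rw [← pow_sub_av S hS']
    have hp : ∀ u : ℕ, Bd ((Rm S - av K) ^ u) (θ ^ u) := by
      intro u
      induction u with
      | zero => rw [pow_zero, pow_zero]; exact Bd_one
      | succ u ih => rw [pow_succ, pow_succ]; exact ih.mul h2 (pow_nonneg h0 u)
    exact hp (v + 1)

end Pool.Agent.D0H96
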