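import Pool.Agent.D0H96.Mach3

/-! The chain of lamps with a cursor, expanded over lists of labels. -/

set_option linter.unusedSectionVars false

namespace Pool.Agent.D0H96

open Finset Matrix

instance instNZ3 (w : ℕ) [h : NeZero w] : NeZero (3 * w) := ⟨by have := h.ne; omega⟩

variable {Q : Type} [Fintype Q] [DecidableEq Q]

/-- lamp configurations -/
abbrev Cf (Q : Type) (w : ℕ) : Type := ZMod (3 * w) → Q

/-- states -/
abbrev XX (Q : Type) (w : ℕ) : Type := Cf Q w × ZMod (3 * w)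

/-- position of head `k` -/
def site {w : ℕ} (y : ZMod (3 * w)) (k : ZMod 3) : ZMod (3 * w) := y - ((k.val * w : ℕ) : ZMod (3 * w))

variable {w : ℕ}

/-- action of a label on functions -/
def T (R : ZMod 3 → Matrix Q Q ℝ) : Lab → (XX Q w → ℝ) → XX Q w → ℝ
  | .L k, f, p =>
    (R k *ᵥ fun q => f (Function.update p.1 (site p.2 k) q, p.2)) (p.1 (site p.2 k))
  | .cp, f, p => f (p.1, p.2 + ((mv .cp : ℤ) : ZMod (3 * w)))
  | .cm, f, p => f (p.1, p.2 + ((mv .cm : ℤ) : ZMod (3 * w)))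
  | .c0, f, p => f (p.1, p.2 + ((mv .c0 : ℤ) : ZMod (3 * w)))

/-- action of a list of labels -/
def TL (R : ZMod 3 → Matrix Q Q ℝ) : List Lab → (XX Q w → ℝ) → XX Q w → ℝ
  | [], f => f
  | l :: L, f => T R l (TL R L f)

variable {R : ZMod 3 → Matrix Q Q ℝ}

theorem T_mono (hR : ∀ k, R k ∈ doublyStochastic ℝ Q) {f g : XX Q w → ℝ} (h : ∀ x, f x ≤ g x)
    (l : Lab) (x : XX Q w) : T R l f x ≤ T R l g x := by
  cases l with
  | L k => exact DS_mono (hR k) (fun q => h _) _
  | cp => exact h _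
  | cm => exact h _
  | c0 => exact h _

theorem T_const (hR : ∀ k, R k ∈ doublyStochastic ℝ Q) (c : ℝ) (l : Lab) :
    T R l (fun _ : XX Q w => c) = fun _ => c := by
  funext x
  cases l with
  | L k => simp only [T]; rw [DS_const (hR k)]
  | cp => rfl
  | cm => rfl
  | c0 => rfl

theorem TL_mono (hR : ∀ k, R k ∈ doublyStochastic ℝ Q) : ∀ (L : List Lab) {f g : XX Q w → ℝ},
    (∀ x, f x ≤ g x) → ∀ x, TL R L f x ≤ TL R L g x
  | [], _, _, h, x => h x
  | l :: L, _, _, h, x => T_mono hR (TL_mono hR L h) l x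

theorem TL_const (hR : ∀ k, R k ∈ doublyStochastic ℝ Q) (c : ℝ) : ∀ (L : List Lab),
    TL R L (fun _ : XX Q w => c) = fun _ => c
  | [] => rfl
  | l :: L => by rw [TL, TL_const hR c L, T_const hR]

theorem TL_osc [Nonempty Q] [NeZero w] (hR : ∀ k, R k ∈ doublyStochastic ℝ Q)
    {f : XX Q w → ℝ} {B : ℝ}
    (h : ∀ x x', |f x - f x'| ≤ B) (L : List Lab) (x x' : XX Q w) :
    |TL R L f x - TL R L f x'| ≤ B := by
  obtain ⟨z, hz⟩ := Finite.exists_min f
  have h1 : ∀ x, f x ≤ f z + B := fun x => by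
    have := (abs_le.1 (h x z)).2; linarith
  have h2 : ∀ x, TL R L f x ≤ f z + B := fun x => by
    have := TL_mono hR L h1 x
    rwa [TL_const hR] at this
  have h3 : ∀ x, f z ≤ TL R L f x := fun x => by
    have := TL_mono hR L hz x
    rwa [TL_const hR] at this
  rw [abs_le]
  constructor
  · linarith [h2 x', h3 x]
  · linarith [h2 x, h3 x']

/-- the values of `f` when only the lamp at `Y` varies -/
def slc (Y : ZMod (3 * w)) (f : XX Q w → ℝ) (ξ : Cf Q w) (y : ZMod (3 * w)) : Q → ℝ :=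
  fun q => f (Function.update ξ Y q, y)

theorem site_eq_iff (y Y : ZMod (3 * w)) (k : ZMod 3) :
    site y k = Y ↔ y - Y = ((k.val * w : ℕ) : ZMod (3 * w)) := by
  unfold site
  constructor
  · rintro rfl; abel
  · intro h; rw [← h]; abel

theorem slice_TL (Y : ZMod (3 * w)) (hR : ∀ k, R k ∈ doublyStochastic ℝ Q)
    (Cv : (Q → ℝ) → Prop)
    (hconv : ∀ (c : Q → ℝ) (F : Q → Q → ℝ), (∀ i, 0 ≤ c i) → ∑ i, c i = 1 → (∀ i, Cv (F i)) →
      Cv (∑ i, c i • F i)) {f : XX Q w → ℝ} (hf : ∀ ξ y, Cv (slc Y f ξ y)) :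
    ∀ (L : List Lab) (ξ : Cf Q w) (y : ZMod (3 * w)),
      ∃ Ψ, Cv Ψ ∧ slc Y (TL R L f) ξ y = Wm w R (y - Y) L *ᵥ Ψ
  | [], ξ, y => ⟨slc Y f ξ y, hf ξ y, by rw [Wm, Matrix.one_mulVec]; rfl⟩
  | l :: L, ξ, y => by
    have ih := slice_TL Y hR Cv hconv hf L
    have hmv : ∀ l : Lab, y + ((mv l : ℤ) : ZMod (3 * w)) - Y = y - Y + ((mv l : ℤ) : ZMod (3 * w)) :=
      fun l => by ring
    cases l with
    | cp =>
      obtain ⟨Ψ, h1, h2⟩ := ih ξ (y + ((mv .cp : ℤ) : ZMod (3 * w)))
      refine ⟨Ψ, h1, ?_⟩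
      rw [hmv] at h2
      simp only [Wm, op, one_mul]
      rw [← h2]; rfl
    | cm =>
      obtain ⟨Ψ, h1, h2⟩ := ih ξ (y + ((mv .cm : ℤ) : ZMod (3 * w)))
      refine ⟨Ψ, h1, ?_⟩
      rw [hmv] at h2
      simp only [Wm, op, one_mul]
      rw [← h2]; rfl
    | c0 =>
      obtain ⟨Ψ, h1, h2⟩ := ih ξ (y + ((mv .c0 : ℤ) : ZMod (3 * w)))
      refine ⟨Ψ, h1, ?_⟩
      rw [hmv] at h2
      simp only [Wm, op, one_mul]
      rw [← h2]; rfl
    | L k =>
      have hz : y - Y + ((mv (.L k) : ℤ) : ZMod (3 * w)) = y - Y := by simp [mv]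
      rw [Wm, hz]
      simp only [op]
      by_cases hY : site y k = Y
      · obtain ⟨Ψ, h1, h2⟩ := ih ξ y
        refine ⟨Ψ, h1, ?_⟩
        rw [if_pos ((site_eq_iff y Y k).1 hY), ← Matrix.mulVec_mulVec, ← h2]
        funext q
        simp only [slc, TL, T]
        rw [hY, Function.update_self]
        congr 1
        congr 1
        funext q'
        rw [Function.update_idem]
        rfl
      · rw [if_neg (fun h => hY ((site_eq_iff y Y k).2 h)), one_mul]
        choose Ψ h1 h2 using fun q' : Q => ih (Function.update ξ (site y k) q') y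
        refine ⟨∑ q', R k (ξ (site y k)) q' • Ψ q',
          hconv _ _ (fun i => nonneg_of_mem_doublyStochastic (hR k))
            (sum_row_of_mem_doublyStochastic (hR k) _) h1, ?_⟩
        rw [Matrix.mulVec_sum]
        simp only [Matrix.mulVec_smul, ← h2]
        funext q
        simp only [slc, TL, T, Finset.sum_apply, Pi.smul_apply, smul_eq_mul, Matrix.mulVec,
          dotProduct]
        rw [Function.update_of_ne hY]
        refine Finset.sum_congr rfl fun q' _ => ?_
        rw [Function.update_comm (Ne.symm hY)]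

theorem TL_prod [NeZero w] (φ : ZMod (3 * w) → ZMod (3 * w) → Q → ℝ) :
    ∀ (L : List Lab) (ξ : Cf Q w) (y : ZMod (3 * w)),
      TL R L (fun p : XX Q w => ∏ Y, φ Y p.2 (p.1 Y)) (ξ, y)
        = ∏ Y, (Wm w R (y - Y) L *ᵥ φ Y (y + ((disp L : ℤ) : ZMod (3 * w)))) (ξ Y)
  | [], ξ, y => by
    simp [TL, Wm, disp]
  | l :: L, ξ, y => by
    have ih := TL_prod φ L
    have hmv : ∀ (l : Lab) (Y : ZMod (3 * w)),
        y + ((mv l : ℤ) : ZMod (3 * w)) - Y = y - Y + ((mv l : ℤ) : ZMod (3 * w)) :=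
      fun l Y => by ring
    have hds : ∀ l : Lab, y + ((mv l : ℤ) : ZMod (3 * w)) + ((disp L : ℤ) : ZMod (3 * w))
        = y + ((disp (l :: L) : ℤ) : ZMod (3 * w)) := fun l => by
      simp only [disp]; push_cast; ring
    cases l with
    | cp =>
      have := ih ξ (y + ((mv .cp : ℤ) : ZMod (3 * w)))
      simp only [hmv, hds] at this
      simp only [Wm, op, one_mul]
      rw [← this]; rfl
    | cm =>
      have := ih ξ (y + ((mv .cm : ℤ) : ZMod (3 * w)))
      simp only [hmv, hds] at this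
      simp only [Wm, op, one_mul]
      rw [← this]; rfl
    | c0 =>
      have := ih ξ (y + ((mv .c0 : ℤ) : ZMod (3 * w)))
      simp only [hmv, hds] at this
      simp only [Wm, op, one_mul]
      rw [← this]; rfl
    | L k =>
      have hz : ∀ Y : ZMod (3 * w), y - Y + ((mv (.L k) : ℤ) : ZMod (3 * w)) = y - Y := fun Y => by
        simp [mv]
      have hd : y + ((disp (.L k :: L) : ℤ) : ZMod (3 * w)) = y + ((disp L : ℤ) : ZMod (3 * w)) := by
        simp only [disp, mv]; push_cast; ring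
      rw [hd]
      simp only [Wm, hz]
      set a : ZMod (3 * w) → Q → ℝ := fun Y =>
        Wm w R (y - Y) L *ᵥ φ Y (y + ((disp L : ℤ) : ZMod (3 * w))) with ha
      have h1 : ∀ q, TL R L (fun p : XX Q w => ∏ Y, φ Y p.2 (p.1 Y))
          (Function.update ξ (site y k) q, y)
          = (∏ Y ∈ Finset.univ.erase (site y k), a Y (ξ Y)) * a (site y k) q := by
        intro q
        rw [ih, ← Finset.mul_prod_erase Finset.univ _ (Finset.mem_univ (site y k))]
        rw [Function.update_self, mul_comm]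
        congr 1
        refine Finset.prod_congr rfl fun Y hY => ?_
        rw [Function.update_of_ne (Finset.ne_of_mem_erase hY)]
      have h2 : TL R (.L k :: L) (fun p : XX Q w => ∏ Y, φ Y p.2 (p.1 Y)) (ξ, y)
          = (∏ Y ∈ Finset.univ.erase (site y k), a Y (ξ Y))
            * (R k *ᵥ a (site y k)) (ξ (site y k)) := by
        show (R k *ᵥ fun q => TL R L (fun p : XX Q w => ∏ Y, φ Y p.2 (p.1 Y))
          (Function.update ξ (site y k) q, y)) (ξ (site y k)) = _
        simp only [h1]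
        have h3 : (fun q => (∏ Y ∈ Finset.univ.erase (site y k), a Y (ξ Y)) * a (site y k) q)
            = (∏ Y ∈ Finset.univ.erase (site y k), a Y (ξ Y)) • a (site y k) := rfl
        rw [h3, Matrix.mulVec_smul]; rfl
      rw [h2, ← Finset.mul_prod_erase Finset.univ _ (Finset.mem_univ (site y k)), mul_comm]
      have h4 : ∀ Y : ZMod (3 * w), (op w R (y - Y) (.L k) * Wm w R (y - Y) L) *ᵥ
          φ Y (y + ((disp L : ℤ) : ZMod (3 * w))) = op w R (y - Y) (.L k) *ᵥ a Y := fun Y => by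
        rw [← Matrix.mulVec_mulVec]
      simp only [h4]
      congr 1
      · simp only [op]
        rw [if_pos ((site_eq_iff y (site y k) k).1 rfl)]
      · refine Finset.prod_congr rfl fun Y hY => ?_
        simp only [op]
        rw [if_neg (fun h => Finset.ne_of_mem_erase hY ((site_eq_iff y Y k).2 h).symm),
          Matrix.one_mulVec]

/-- one step of the chain -/
noncomputable def Pop (m : ℕ) (R : ZMod 3 → Matrix Q Q ℝ) (f : XX Q w → ℝ) : XX Q w → ℝ :=
  fun x => ex1 m fun l => T R l f x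

variable {m : ℕ}

theorem T_Ex (l : Lab) (t : ℕ) (F : List Lab → XX Q w → ℝ) (x : XX Q w) :
    T R l (fun x => Ex m t fun L => F L x) x = Ex m t fun L => T R l (F L) x := by
  cases l with
  | L k =>
    simp only [T, Matrix.mulVec, dotProduct]
    rw [Ex_sum]
    simp only [Ex_mul]
  | cp => rfl
  | cm => rfl
  | c0 => rfl

theorem Pop_iter (f : XX Q w → ℝ) : ∀ (t : ℕ) (x : XX Q w),
    (Pop m R)^[t] f x = Ex m t fun L => TL R L f x
  | 0, x => rfl
  | t + 1, x => by
    rw [Function.iterate_succ_apply']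
    have h : (Pop m R)^[t] f = fun x => Ex m t fun L => TL R L f x :=
      funext fun x => Pop_iter f t x
    rw [h]
    simp only [Pop, T_Ex]
    rfl

/-- averages over all lamps -/
theorem sum_T (hR : ∀ k, R k ∈ doublyStochastic ℝ Q) [NeZero w] (l : Lab) (g : XX Q w → ℝ)
    (y : ZMod (3 * w)) :
    ∑ ξ : Cf Q w, T R l g (ξ, y) = ∑ ξ : Cf Q w, g (ξ, y + ((mv l : ℤ) : ZMod (3 * w))) := by
  cases l with
  | cp => rfl
  | cm => rfl
  | c0 => rfl
  | L k =>
    have hz : y + ((mv (.L k) : ℤ) : ZMod (3 * w)) = y := by simp [mv]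
    rw [hz]
    simp only [T, Matrix.mulVec, dotProduct]
    have h1 : ∑ ξ : Cf Q w, ∑ q, R k (ξ (site y k)) q * g (Function.update ξ (site y k) q, y)
        = ∑ p : Cf Q w × Q, R k (p.1 (site y k)) p.2 * g (Function.update p.1 (site y k) p.2, y) := by
      rw [Fintype.sum_prod_type]
    have h2 : ∑ p : Cf Q w × Q, R k (p.1 (site y k)) p.2 * g (Function.update p.1 (site y k) p.2, y)
        = ∑ p : Cf Q w × Q, R k p.2 (p.1 (site y k)) * g (p.1, y) := by
      refine Fintype.sum_equiv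
        ⟨fun p => (Function.update p.1 (site y k) p.2, p.1 (site y k)),
          fun p => (Function.update p.1 (site y k) p.2, p.1 (site y k)),
          fun p => by simp, fun p => by simp⟩ _ _ fun p => ?_
      simp
    rw [h1, h2, Fintype.sum_prod_type]
    refine Finset.sum_congr rfl fun ξ _ => ?_
    simp only []
    rw [← Finset.sum_mul, sum_col_of_mem_doublyStochastic (hR k), one_mul]

theorem sum_TL (hR : ∀ k, R k ∈ doublyStochastic ℝ Q) [NeZero w] : ∀ (L : List Lab)
    (g : XX Q w → ℝ) (y : ZMod (3 * w)),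
    ∑ ξ : Cf Q w, TL R L g (ξ, y) = ∑ ξ : Cf Q w, g (ξ, y + ((disp L : ℤ) : ZMod (3 * w)))
  | [], g, y => by simp [TL, disp]
  | l :: L, g, y => by
    rw [TL, sum_T hR, sum_TL hR L]
    simp only [disp]
    push_cast
    simp only [add_assoc]

/-- the average over the lamps -/
noncomputable def bar [NeZero w] (f : XX Q w → ℝ) (y : ZMod (3 * w)) : ℝ :=
  (∑ ξ : Cf Q w, f (ξ, y)) / Fintype.card (Cf Q w)

theorem bar_iter (hR : ∀ k, R k ∈ doublyStochastic ℝ Q) [NeZero w] (f : XX Q w → ℝ) (t : ℕ)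
    (y : ZMod (3 * w)) : bar ((Pop m R)^[t] f) y = gt m (bar f) t y := by
  unfold bar gt
  simp only [Pop_iter]
  rw [← Ex_sum]
  simp only [sum_TL hR]
  rw [div_eq_inv_mul, ← Ex_mul]
  congr 1
  funext L
  rw [div_eq_inv_mul]

/-- changing the lamps one at a time -/
theorem hybrid {ι : Type} [Fintype ι] [DecidableEq ι] (g : (ι → Q) → ℝ) (δ : ι → ℝ)
    (h : ∀ ξ Y q, |g (Function.update ξ Y q) - g ξ| ≤ δ Y) (ξ ξ' : ι → Q) :
    |g ξ' - g ξ| ≤ ∑ Y, δ Y := by
  have key : ∀ s : Finset ι, |g (s.piecewise ξ' ξ) - g ξ| ≤ ∑ Y ∈ s, δ Y := by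
    intro s
    induction s using Finset.induction_on with
    | empty => simp
    | insert Y s hY ih =>
      rw [Finset.piecewise_insert, Finset.sum_insert hY]
      have h1 := h (s.piecewise ξ' ξ) Y (ξ' Y)
      calc |g (Function.update (s.piecewise ξ' ξ) Y (ξ' Y)) - g ξ|
          ≤ |g (Function.update (s.piecewise ξ' ξ) Y (ξ' Y)) - g (s.piecewise ξ' ξ)|
            + |g (s.piecewise ξ' ξ) - g ξ| := abs_sub_le _ _ _
        _ ≤ δ Y + ∑ Y ∈ s, δ Y := add_le_add h1 ih
  have := key Finset.univ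
  rwa [Finset.piecewise_univ] at this

end Pool.Agent.D0H96
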