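import Pool.Agent.D0H96.LampMeas

/-! The surviving observable of the lamp group. -/

set_option linter.unusedSectionVars false

namespace Pool.Agent.D0H96

open Matrix Finset

namespace Lamp

variable {F : Type} [Group F] [Fintype F] [DecidableEq F] {N : ℕ} [NeZero N]

/-- centred indicator that the value at relative position `x` is trivial -/
noncomputable def hx (x : Crd N) (p : Lamp F N) : ℝ :=
  (if p.e (x + p.a) = 1 then 1 else 0) - 1 / Fintype.card F

variable (F) in
/-- linear combinations of the `hx` -/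
noncomputable def HH (φ : Crd N → ℝ) : Lamp F N → ℝ := ∑ x, φ x • hx x

/-- action of head `k` on the weights -/
noncomputable def pk (k : ZMod 3) (φ : Crd N → ℝ) : Crd N → ℝ :=
  fun x => if alive N k x then (1 / N : ℝ) * ∑ c : ZMod N, φ (x + Pi.single k c) else 0

theorem hx_mul (x : Crd N) (q h : Lamp F N) :
    hx x (q * h) = (if q.e (x + h.a + q.a) * h.e (x + h.a) = 1 then 1 else 0)
      - 1 / Fintype.card F := by
  have h1 : x + (q * h).a = x + h.a + q.a := by rw [mul_a]; abel
  have h2 : x + h.a + q.a - q.a = x + h.a := by abel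
  simp only [hx]
  rw [h1, mul_e, h2]

theorem KK_a {k : ZMod 3} {p : Lamp F N} (hp : p ∈ KK F N k) : p.a = Pi.single k (p.a k) := by
  funext i
  by_cases hi : i = k
  · subst hi; simp
  · rw [hp.1 i hi, Pi.single_eq_of_ne hi]

theorem E_hx_dead {k : ZMod 3} {x : Crd N} (hd : ¬ alive N k x) : EE F N k *ᵥ hx (F := F) x = 0 := by
  have h1 : ∀ u : F, EE F N k *ᵥ (tr (fn (Pi.mulSingle x u)) *ᵥ hx x) = EE F N k *ᵥ hx x := by
    intro u
    rw [Matrix.mulVec_mulVec, EE, av_mul_tr]
    refine ⟨fun _ _ => rfl, fun y hy => ?_⟩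
    have : y ≠ x := by rintro rfl; exact hd hy
    simp [fn, this]
  have h2 : ∑ u : F, (tr (fn (Pi.mulSingle x u)) *ᵥ hx x) = (0 : Lamp F N → ℝ) := by
    funext q
    rw [Finset.sum_apply]
    simp only [tr_mulVec]
    have h3 : ∀ u : F, hx x (q * fn (Pi.mulSingle x u))
        = (if u = (q.e (x + q.a))⁻¹ then 1 else 0) - 1 / Fintype.card F := by
      intro u
      rw [hx_mul]
      have h4 : (fn (Pi.mulSingle x u) : Lamp F N).a = 0 := rfl
      have h5 : (fn (Pi.mulSingle x u) : Lamp F N).e (x + 0) = u := by simp [fn]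
      rw [h4, h5, add_zero]
      congr 1
      have : q.e (x + q.a) * u = 1 ↔ u = (q.e (x + q.a))⁻¹ := by
        rw [mul_eq_one_iff_eq_inv']
      simp only [this]
    simp only [h3]
    rw [Finset.sum_sub_distrib, Finset.sum_ite_eq' Finset.univ]
    simp
  have h4 : (Fintype.card F : ℝ) • (EE F N k *ᵥ hx (F := F) x) = 0 := by
    calc (Fintype.card F : ℝ) • (EE F N k *ᵥ hx (F := F) x)
        = ∑ u : F, EE F N k *ᵥ (tr (fn (Pi.mulSingle x u)) *ᵥ hx x) := by
          simp only [h1]
          rw [Finset.sum_const, Finset.card_univ, Nat.cast_smul_eq_nsmul]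
      _ = EE F N k *ᵥ ∑ u : F, (tr (fn (Pi.mulSingle x u)) *ᵥ hx x) := by
          rw [Matrix.mulVec_sum]
      _ = 0 := by rw [h2, Matrix.mulVec_zero]
  rcases smul_eq_zero.1 h4 with h | h
  · exact absurd h (Nat.cast_ne_zero.2 Fintype.card_ne_zero)
  · exact h

theorem E_hx_alive {k : ZMod 3} {x : Crd N} (ha : alive N k x) :
    EE F N k *ᵥ hx (F := F) x = (1 / N : ℝ) • ∑ c : ZMod N, hx (x + Pi.single k c) := by
  have hN : (N : ℝ) ≠ 0 := Nat.cast_ne_zero.2 (NeZero.ne N)
  set G : Lamp F N → ℝ := (1 / N : ℝ) • ∑ c : ZMod N, hx (x + Pi.single k c) with hG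
  have h1 : EE F N k *ᵥ G = G := by
    refine av_fix _ fun h hh q => ?_
    rw [hG]
    simp only [Pi.smul_apply, Finset.sum_apply]
    congr 1
    have h2 : ∀ c : ZMod N, hx (x + Pi.single k c) (q * h)
        = hx (x + Pi.single k (c + h.a k)) q := by
      intro c
      rw [hx_mul]
      have h3 : x + Pi.single k c + h.a = x + Pi.single k (c + h.a k) := by
        conv_lhs => rw [KK_a hh]
        rw [add_assoc, ← Pi.single_add]
      rw [h3, hh.2 _ ((alive_shift' k _ x).2 ha), mul_one, hx]
    simp only [h2]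
    exact Fintype.sum_equiv (Equiv.addRight (h.a k)) _ _ fun c => rfl
  have h2 : EE F N k *ᵥ G = EE F N k *ᵥ hx x := by
    rw [hG, Matrix.mulVec_smul, Matrix.mulVec_sum]
    have h3 : ∀ c : ZMod N, EE F N k *ᵥ hx (F := F) (x + Pi.single k c) = EE F N k *ᵥ hx x := by
      intro c
      have h4 : hx (F := F) (x + Pi.single k c) = tr (sh (Pi.single k c)) *ᵥ hx x := by
        rw [tr_mulVec]
        funext q
        rw [hx_mul, hx]
        have h5 : (sh (Pi.single k c) : Lamp F N).a = Pi.single k c := rfl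
        have h6 : ∀ y, (sh (Pi.single k c) : Lamp F N).e y = 1 := fun _ => rfl
        rw [h5, h6, mul_one]
      rw [h4, Matrix.mulVec_mulVec, EE, av_mul_tr]
      exact sh_mem_KK fun i hi => by simp [hi]
    simp only [h3]
    rw [Finset.sum_const, Finset.card_univ, ZMod.card, ← Nat.cast_smul_eq_nsmul ℝ, smul_smul,
      one_div, inv_mul_cancel₀ hN, one_smul]
  rw [← h2, h1]

theorem E_HH (k : ZMod 3) (φ : Crd N → ℝ) : EE F N k *ᵥ HH F φ = HH F (pk k φ) := by
  classical
  have h1 : EE F N k *ᵥ HH F φ = ∑ x, φ x • (EE F N k *ᵥ hx x) := by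
    rw [HH, Matrix.mulVec_sum]
    simp only [Matrix.mulVec_smul]
  have h2 : ∀ x : Crd N, φ x • (EE F N k *ᵥ hx (F := F) x)
      = ∑ c : ZMod N, (if alive N k (x + Pi.single k c) then (1 / N : ℝ) * φ x else 0)
        • hx (F := F) (x + Pi.single k c) := by
    intro x
    simp only [alive_shift']
    by_cases ha : alive N k x
    · rw [E_hx_alive ha]
      simp only [ha, if_true]
      rw [smul_smul, Finset.smul_sum]
      refine Finset.sum_congr rfl fun c _ => ?_
      rw [mul_comm]
    · rw [E_hx_dead ha]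
      simp [ha]
  rw [h1]
  simp only [h2]
  rw [Finset.sum_comm, HH]
  have h3 : ∀ c : ZMod N,
      ∑ x : Crd N, (if alive N k (x + Pi.single k c) then (1 / N : ℝ) * φ x else 0)
        • hx (F := F) (x + Pi.single k c)
      = ∑ y : Crd N, (if alive N k y then (1 / N : ℝ) * φ (y + Pi.single k (-c)) else 0)
        • hx (F := F) y := by
    intro c
    refine Fintype.sum_equiv (Equiv.addRight (Pi.single k c)) _ _ fun x => ?_
    simp only [Equiv.coe_addRight]
    have : x + Pi.single k c + Pi.single k (-c) = x := by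
      rw [add_assoc, ← Pi.single_add, add_neg_cancel, Pi.single_zero, add_zero]
    rw [this]
  simp only [h3]
  rw [Finset.sum_comm]
  refine Finset.sum_congr rfl fun y _ => ?_
  rw [← Finset.sum_smul]
  congr 1
  by_cases ha : alive N k y
  · simp only [ha, if_true, pk]
    rw [Finset.mul_sum]
    exact Fintype.sum_equiv (Equiv.neg _) _ _ fun c => rfl
  · simp [ha, pk]

/-- weights after a word -/
noncomputable def phi : List ℤ → Crd N → ℝ
  | [] => fun _ => 1
  | j :: js => pk (j : ZMod 3) (phi js)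

theorem word_HH (js : List ℤ) : word F N js *ᵥ HH F (fun _ => 1) = HH F (phi js) := by
  induction js with
  | nil => rw [word_nil, Matrix.one_mulVec]; rfl
  | cons j js ih => rw [word_cons, ← Matrix.mulVec_mulVec, ih, E_HH]; rfl

theorem phi_nonneg (js : List ℤ) : ∀ x : Crd N, 0 ≤ phi js x := by
  induction js with
  | nil => intro x; exact zero_le_one
  | cons j js ih =>
    intro x
    simp only [phi, pk]
    split_ifs
    · exact mul_nonneg (by positivity) (Finset.sum_nonneg fun c _ => ih _)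
    · exact le_rfl

theorem HH_one (φ : Crd N → ℝ) :
    HH F φ (1 : Lamp F N) = (1 - 1 / Fintype.card F) * ∑ x, φ x := by
  simp only [HH, Finset.sum_apply, Pi.smul_apply, smul_eq_mul, hx]
  simp only [one_e, if_true]
  rw [← Finset.sum_mul, mul_comm]

theorem pk_ge {k : ZMod 3} {φ : Crd N → ℝ} (hφ : ∀ x, 0 ≤ φ x) {x : Crd N} (hx : alive N k x)
    (c : ZMod N) : (1 / N : ℝ) * φ (x + Pi.single k c) ≤ pk k φ x := by
  simp only [pk, hx, if_true]
  refine mul_le_mul_of_nonneg_left ?_ (by positivity)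
  exact Finset.single_le_sum (f := fun c => φ (x + Pi.single k c)) (fun _ _ => hφ _)
    (Finset.mem_univ c)

theorem val_pred {z : ZMod N} (hz : z.val ≠ 0) : (z - 1).val + 1 = z.val ∧
    (z - 1 ≠ -1) := by
  have hz0 : z ≠ 0 := by rintro rfl; exact hz (ZMod.val_zero)
  have hN : 2 ≤ N := by
    have := ZMod.val_lt z; omega
  have h1 : z - 1 ≠ -1 := by
    intro h
    apply hz0
    have : z - 1 + 1 = -1 + 1 := by rw [h]
    simpa using this
  refine ⟨?_, h1⟩
  have := val_succ hN h1
  rw [sub_add_cancel] at this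
  exact this.symm

theorem ne_neg_one {z : ZMod N} (hz : z.val + 1 < N) : z ≠ -1 := by
  rintro rfl
  have h : ((-1 : ZMod N)) + 1 = 0 := by ring
  have h2 := ZMod.val_add (-1 : ZMod N) 1
  rw [h, ZMod.val_zero] at h2
  have : Fact (1 < N) := ⟨by omega⟩
  rw [ZMod.val_one, Nat.mod_eq_of_lt hz] at h2
  omega

theorem phi_ge (hN : 2 ≤ N) : ∀ (js : List ℤ) (j : ℤ), Chn (j :: js) → ∀ (l : ℤ),
    (∀ i ∈ j :: js, 0 ≤ l + j - i ∧ l + j - i ≤ N - 2) →
    ∀ x : Crd N, alive N (j : ZMod 3) x → ((x ((j : ZMod 3) + 2)).val : ℤ) = l →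
      (1 / N : ℝ) ^ (js.length + 1) ≤ phi (j :: js) x := by
  have hN0 : (0 : ℝ) < N := Nat.cast_pos.2 (by omega)
  have hN1 : (1 / N : ℝ) ≤ 1 := by
    rw [div_le_one hN0]; exact_mod_cast (by omega : 1 ≤ N)
  intro js
  induction js with
  | nil =>
    intro j _ l _ x hx _
    have := pk_ge (φ := fun _ => (1 : ℝ)) (fun _ => zero_le_one) hx 0
    simp only [phi]
    simpa using this
  | cons j' js ih =>
    intro j hch l hl x hx hxl
    have hch' : Chn (j' :: js) := (List.isChain_cons_cons.1 hch).2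
    have hjj : j' = j + 1 ∨ j' = j - 1 := (List.isChain_cons_cons.1 hch).1
    have hl' : ∀ i ∈ j' :: js, 0 ≤ (l + j - j') + j' - i ∧ (l + j - j') + j' - i ≤ N - 2 := by
      intro i hi
      have := hl i (List.mem_cons_of_mem _ hi)
      constructor <;> [linarith [this.1]; linarith [this.2]]
    have hlj := hl' j' List.mem_cons_self
    have hlj0 := hl j List.mem_cons_self
    obtain ⟨hx1, hx2⟩ := hx
    have hstep : ∃ c : ZMod N, alive N (j' : ZMod 3) (x + Pi.single (j : ZMod 3) c) ∧
        (((x + Pi.single (j : ZMod 3) c : Crd N) ((j' : ZMod 3) + 2)).val : ℤ) = l + j - j' := by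
      rcases hjj with h | h
      · subst h
        rw [cast_add_one]
        generalize ((j : ℤ) : ZMod 3) = k at *
        have hv : (x (k + 2)).val ≠ 0 := by omega
        obtain ⟨hp1, hp2⟩ := val_pred hv
        refine ⟨x (k + 2) - 1 - x k, ⟨?_, ?_⟩, ?_⟩
        · rw [z3a, z3b]
          simp [Pi.single_apply, two_ne]
        · rw [z3b]
          simpa using hp2
        · rw [z3b]
          have : (x + Pi.single k (x (k + 2) - 1 - x k) : Crd N) k = x (k + 2) - 1 := by simp
          rw [this]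
          omega
      · subst h
        rw [cast_sub_one]
        generalize ((j : ℤ) : ZMod 3) = k at *
        have hv := val_succ hN hx2
        rw [← hx1] at hv
        refine ⟨x (k + 1) + 1 - x k, ⟨?_, ?_⟩, ?_⟩
        · rw [z3c, z3d]
          simp [Pi.single_apply]
        · rw [z3d]
          have : (x + Pi.single k (x (k + 1) + 1 - x k) : Crd N) (k + 1) = x (k + 1) := by
            simp [Pi.single_apply]
          rw [this]
          refine ne_neg_one ?_
          omega
        · rw [z3d]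
          have : (x + Pi.single k (x (k + 1) + 1 - x k) : Crd N) (k + 1) = x (k + 1) := by
            simp [Pi.single_apply]
          rw [this, hv]
          push_cast
          omega
    obtain ⟨c, hc1, hc2⟩ := hstep
    have h1 := ih j' hch' (l + j - j') hl' _ hc1 hc2
    have h2 := pk_ge (phi_nonneg (j' :: js)) (⟨hx1, hx2⟩ : alive N (j : ZMod 3) x) c
    have h3 : (1 / N : ℝ) ^ ((j' :: js).length + 1) = (1 / N : ℝ) * (1 / N : ℝ) ^ (js.length + 1) := by
      rw [List.length_cons, pow_succ, mul_comm]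
    rw [h3]
    refine le_trans ?_ h2
    exact mul_le_mul_of_nonneg_left h1 (by positivity)

/-- lower bound for the observable after a short word -/
theorem word_HH_ge (hN : 2 ≤ N) (hF : 2 ≤ Fintype.card F) (js : List ℤ) (hch : Chn js)
    (hr : ∃ hi : ℤ, ∀ i ∈ js, i ≤ hi ∧ hi ≤ i + (N - 2)) :
    1 / 2 * (1 / N : ℝ) ^ js.length ≤ (word F N js *ᵥ HH F (fun _ => 1)) 1 := by
  have hF' : (1 : ℝ) / 2 ≤ 1 - 1 / Fintype.card F := by
    have h1 : (1 : ℝ) / Fintype.card F ≤ 1 / 2 :=
      one_div_le_one_div_of_le (by norm_num) (by exact_mod_cast hF)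
    linarith
  have hex : ∃ x : Crd N, (1 / N : ℝ) ^ js.length ≤ phi js x := by
    cases js with
    | nil => exact ⟨0, by simp [phi]⟩
    | cons j js =>
      obtain ⟨hi, hhi⟩ := hr
      have h0 := hhi j List.mem_cons_self
      set l : ℕ := (hi - j).toNat with hl
      have hl' : (l : ℤ) = hi - j := by rw [hl, Int.toNat_of_nonneg]; linarith
      have hlN : l + 1 < N := by omega
      set x : Crd N := fun i => if i = (j : ZMod 3) + 1 then (l : ZMod N) + 1 else (l : ZMod N)
        with hx
      have hx2 : x ((j : ZMod 3) + 2) = (l : ZMod N) := by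
        rw [hx]; simp only [(k12_ne _).symm, if_false]
      have hval : ((l : ZMod N)).val = l := ZMod.val_natCast_of_lt (by omega)
      have hal : alive N (j : ZMod 3) x := by
        refine ⟨?_, ?_⟩
        · rw [hx2, hx]; simp
        · rw [hx2]; exact ne_neg_one (by rw [hval]; exact hlN)
      refine ⟨x, phi_ge hN js j hch (l : ℤ) (fun i hi' => ?_) x hal ?_⟩
      · have := hhi i hi'
        constructor <;> omega
      · rw [hx2, hval]
  obtain ⟨x, hx⟩ := hex
  rw [word_HH, HH_one]
  have h1 : (1 / N : ℝ) ^ js.length ≤ ∑ x, phi (N := N) js x :=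
    hx.trans (Finset.single_le_sum (f := phi js) (fun _ _ => phi_nonneg js _) (Finset.mem_univ x))
  exact mul_le_mul hF' h1 (by positivity) (by linarith)

theorem word_HH_nonneg (hF : 2 ≤ Fintype.card F) (js : List ℤ) :
    0 ≤ (word F N js *ᵥ HH F (fun _ => 1)) 1 := by
  rw [word_HH, HH_one]
  refine mul_nonneg ?_ (Finset.sum_nonneg fun x _ => phi_nonneg js x)
  have h1 : (1 : ℝ) / Fintype.card F ≤ 1 / 2 :=
    one_div_le_one_div_of_le (by norm_num) (by exact_mod_cast hF)
  linarith

theorem sum_hx (x : Crd N) : ∑ q : Lamp F N, hx x q = 0 := by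
  -- invariance under multiplication by point functions
  have h1 : ∀ u : F, ∑ q : Lamp F N, hx x q = ∑ q : Lamp F N, hx x (q * fn (Pi.mulSingle x u)) := by
    intro u
    exact (Fintype.sum_equiv (Equiv.mulRight (fn (Pi.mulSingle x u))) _ _ fun q => rfl).symm
  have h2 : ∑ _u : F, ∑ q : Lamp F N, hx x q = 0 := by
    rw [Finset.sum_congr rfl fun u _ => h1 u, Finset.sum_comm]
    refine Finset.sum_eq_zero fun q _ => ?_
    have h3 : ∀ u : F, hx x (q * fn (Pi.mulSingle x u))
        = (if u = (q.e (x + q.a))⁻¹ then 1 else 0) - 1 / Fintype.card F := by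
      intro u
      rw [hx_mul]
      have h4 : (fn (Pi.mulSingle x u) : Lamp F N).a = 0 := rfl
      have h5 : (fn (Pi.mulSingle x u) : Lamp F N).e (x + 0) = u := by simp [fn]
      rw [h4, h5, add_zero]
      congr 1
      have : q.e (x + q.a) * u = 1 ↔ u = (q.e (x + q.a))⁻¹ := by
        rw [mul_eq_one_iff_eq_inv']
      simp only [this]
    simp only [h3]
    rw [Finset.sum_sub_distrib, Finset.sum_ite_eq' Finset.univ]
    simp
  rw [Finset.sum_const, Finset.card_univ, nsmul_eq_mul] at h2
  rcases mul_eq_zero.1 h2 with h | h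
  · exact absurd h (Nat.cast_ne_zero.2 Fintype.card_ne_zero)
  · exact h

theorem sum_HH (φ : Crd N → ℝ) : ∑ q : Lamp F N, HH F φ q = 0 := by
  simp only [HH, Finset.sum_apply, Pi.smul_apply, smul_eq_mul]
  rw [Finset.sum_comm]
  refine Finset.sum_eq_zero fun x _ => ?_
  rw [← Finset.mul_sum, sum_hx, mul_zero]

theorem abs_HH_le (hF : 2 ≤ Fintype.card F) (q : Lamp F N) :
    |HH F (fun _ => 1) q| ≤ Fintype.card (Crd N) := by
  simp only [HH, Finset.sum_apply, Pi.smul_apply, smul_eq_mul, one_mul]
  refine (Finset.abs_sum_le_sum_abs _ _).trans ?_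
  have h1 : ∀ x : Crd N, |hx x q| ≤ 1 := by
    intro x
    have h2 : (0 : ℝ) ≤ 1 / Fintype.card F := by positivity
    have h3 : (1 : ℝ) / Fintype.card F ≤ 1 / 2 :=
      one_div_le_one_div_of_le (by norm_num) (by exact_mod_cast hF)
    rw [hx, abs_le]
    split_ifs <;> constructor <;> linarith
  calc ∑ x : Crd N, |hx x q| ≤ ∑ _x : Crd N, (1 : ℝ) := Finset.sum_le_sum fun x _ => h1 x
    _ = Fintype.card (Crd N) := by simp

end Lamp

end Pool.Agent.D0H96
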