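import Mathlib

/-! Definitions for MP_cf7fa9_pr: lazy simple random walk, mixing time, relaxation time, product
condition, pre-cutoff. -/

namespace Pool.Agent.D0H96

open Filter

/-- Transition matrix of the lazy simple random walk on a finite graph: hold with probability
`1/2`, otherwise move to a uniformly chosen neighbour. -/
noncomputable def lsrw {V : Type} [Fintype V] [DecidableEq V] (G : SimpleGraph V)
    [DecidableRel G.Adj] : Matrix V V ℝ :=
  fun x y => (if x = y then 1 / 2 else 0) + (if G.Adj x y then 1 / (2 * (G.degree x : ℝ)) else 0)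

/-- Stationary distribution of the lazy simple random walk: degree divided by the sum of all
degrees. -/
noncomputable def statDist {V : Type} [Fintype V] (G : SimpleGraph V)
    [DecidableRel G.Adj] : V → ℝ :=
  fun x => (G.degree x : ℝ) / ∑ y, (G.degree y : ℝ)

/-- Vertex-transitivity: the automorphism group acts transitively on the vertices. -/
def VertexTransitive {V : Type} (G : SimpleGraph V) : Prop :=
  ∀ x y : V, ∃ φ : G ≃g G, φ x = y

/-- Worst-case total variation distance at time `t` between the chain with transition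
matrix `P` and the distribution `π`: `max_x (1/2) * ∑_y |P^t(x,y) - π(y)|`. -/
noncomputable def dTV {V : Type} [Fintype V] [DecidableEq V] (P : Matrix V V ℝ) (π : V → ℝ)
    (t : ℕ) : ℝ :=
  ⨆ x : V, (1 / 2 : ℝ) * ∑ y, |(P ^ t) x y - π y|

/-- The mixing time: the least `t` with `dTV P π t ≤ ε`. -/
noncomputable def tmix {V : Type} [Fintype V] [DecidableEq V] (P : Matrix V V ℝ) (π : V → ℝ)
    (ε : ℝ) : ℕ :=
  sInf {t : ℕ | dTV P π t ≤ ε}

/-- The second largest eigenvalue of the transition matrix of a connected graph (for which the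
eigenvalue `1` is simple): the largest real eigenvalue different from `1`. -/
noncomputable def lambda2 {V : Type} [Fintype V] [DecidableEq V] (P : Matrix V V ℝ) : ℝ :=
  sSup (spectrum ℝ P \ {1})

/-- The relaxation time `1 / (1 - λ₂)`. -/
noncomputable def trel {V : Type} [Fintype V] [DecidableEq V] (P : Matrix V V ℝ) : ℝ :=
  1 / (1 - lambda2 P)

/-- The product condition `t_rel = o(t_mix(1/4))` for the lazy simple random walks. -/
def ProductCondition (V : ℕ → Type) [∀ n, Fintype (V n)] [∀ n, DecidableEq (V n)]
    (G : ∀ n, SimpleGraph (V n)) [∀ n, DecidableRel (G n).Adj] : Prop :=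
  Asymptotics.IsLittleO atTop (fun n => trel (lsrw (G n)))
    (fun n => (tmix (lsrw (G n)) (statDist (G n)) (1 / 4) : ℝ))

/-- Pre-cutoff for the lazy simple random walks:
`sup_{0 < ε < 1/2} limsup_n t_mix(ε) / t_mix(1 - ε) < ∞`. -/
def PreCutoff (V : ℕ → Type) [∀ n, Fintype (V n)] [∀ n, DecidableEq (V n)]
    (G : ∀ n, SimpleGraph (V n)) [∀ n, DecidableRel (G n).Adj] : Prop :=
  ⨆ ε ∈ Set.Ioo (0 : ℝ) (1 / 2), limsup (fun n =>
    (tmix (lsrw (G n)) (statDist (G n)) ε : ENNReal)
      / (tmix (lsrw (G n)) (statDist (G n)) (1 - ε) : ENNReal)) atTop < ⊤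

end Pool.Agent.D0H96
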