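import Pool.Agent.D0H96.Global
import Pool.Agent.D0H96.LampH
import Pool.Agent.D0H96.PCDefs

/-! The graph of lamps with a cursor. -/

set_option linter.unusedSectionVars false

namespace Pool.Agent.D0H96

open Finset Matrix

namespace Lamp

variable {F : Type} [Group F] [Fintype F] [DecidableEq F] {N : ℕ} [NeZero N]

theorem small_ne (hN : 4 ≤ N) : (1 : ZMod N) ≠ 0 ∧ (2 : ZMod N) ≠ 0 ∧ (3 : ZMod N) ≠ 0 := by
  refine ⟨?_, ?_, ?_⟩
  · intro h
    have h1 : ((1 : ℕ) : ZMod N) = 0 := by exact_mod_cast h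
    rw [ZMod.natCast_eq_zero_iff] at h1
    have := Nat.le_of_dvd (by norm_num) h1
    omega
  · intro h
    have h1 : ((2 : ℕ) : ZMod N) = 0 := by exact_mod_cast h
    rw [ZMod.natCast_eq_zero_iff] at h1
    have := Nat.le_of_dvd (by norm_num) h1
    omega
  · intro h
    have h1 : ((3 : ℕ) : ZMod N) = 0 := by exact_mod_cast h
    rw [ZMod.natCast_eq_zero_iff] at h1
    have := Nat.le_of_dvd (by norm_num) h1
    omega

/-- test points -/
def pp (N : ℕ) (k : ZMod 3) : Fin 3 → Crd N
  | 0 => fun i => if i = k then 0 else 2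
  | 1 => fun i => if i = k + 2 then 0 else 2
  | 2 => fun i => if i = k + 1 then 0 else 2

theorem sl_zero (hN : 4 ≤ N) (k : ZMod 3) (j : Fin 3) (u : F) : sl N k j u 0 = u := by
  have h1 := (small_ne hN).1
  have h2 : ¬ alive N k (0 : Crd N) := by
    rintro ⟨h, _⟩
    simp only [Pi.zero_apply, zero_add] at h
    exact h1 h.symm
  have h3 : slice k j (0 : Crd N) := by
    fin_cases j <;> simp [slice]
  simp [sl, h2, h3]

theorem sl_pp (hN : 4 ≤ N) (k : ZMod 3) (j : Fin 3) (u : F) : sl N k j u (pp N k j) = u := by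
  obtain ⟨h1, h2, h3⟩ := small_ne hN
  have a1 := k1_ne k
  have a2 := k2_ne k
  have a3 := k12_ne k
  have hal : ¬ alive N k (pp N k j) := by
    rintro ⟨h, _⟩
    fin_cases j
    · simp only [pp, a1, a2, if_false] at h
      apply h1
      have : (2 : ZMod N) + 0 = 2 + 1 := by rw [add_zero]; exact h
      exact (add_left_cancel this).symm
    · simp only [pp, a3, if_false, if_true] at h
      apply h1
      have : (1 : ZMod N) + 1 = 0 + 1 := by rw [← h]; norm_num
      exact add_right_cancel this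
    · simp only [pp, Ne.symm a3, if_false, if_true] at h
      apply h3
      rw [h]; norm_num
  have hs : slice k j (pp N k j) := by
    fin_cases j
    · simp [slice, pp]
    · simp only [slice, pp]
      simp [Ne.symm a2, a3]
    · simp only [slice, pp]
      simp [Ne.symm a1, Ne.symm a3]
  simp [sl, hal, hs]

theorem sl_pp_ne (hN : 4 ≤ N) (k : ZMod 3) {j j' : Fin 3} (hj : j ≠ j') (u : F) :
    sl N k j' u (pp N k j) = 1 := by
  obtain ⟨h1, h2, h3⟩ := small_ne hN
  have a1 := k1_ne k
  have a2 := k2_ne k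
  have a3 := k12_ne k
  have hs : ¬ slice k j' (pp N k j) := by
    fin_cases j <;> fin_cases j' <;> first
      | exact absurd rfl hj
      | (simp only [slice, pp]
         simp [a1, a2, a3, Ne.symm a1, Ne.symm a2, Ne.symm a3, h2, Ne.symm h2])
  simp [sl, hs]

theorem gen_injective (hN : 4 ≤ N) (k : ZMod 3) : Function.Injective (gen (F := F) (N := N) k) := by
  obtain ⟨h1, h2, h3⟩ := small_ne hN
  have hpm : (1 : ZMod N) ≠ -1 := by
    intro h
    apply h2
    have : (1 : ZMod N) + 1 = -1 + 1 := by rw [← h]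
    rw [neg_add_cancel] at this
    rw [← this]; norm_num
  have hshfn : ∀ (c : ZMod N) (g : Crd N → F), c ≠ 0 → sh (Pi.single k c) ≠ fn g := by
    intro c g hc h
    have h4 : (Pi.single k c : Crd N) = 0 := congrArg Lamp.a h
    have h5 := congrFun h4 k
    simp only [Pi.single_eq_same, Pi.zero_apply] at h5
    exact hc h5
  have hneg : (-1 : ZMod N) ≠ 0 := neg_ne_zero.2 h1
  rintro ((_ | _) | ⟨j, u⟩) ((_ | _) | ⟨j', u'⟩) h
  · rfl
  · have h4 : (Pi.single k (-1) : Crd N) = Pi.single k 1 := congrArg Lamp.a h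
    have h5 := congrFun h4 k
    simp only [Pi.single_eq_same] at h5
    exact absurd h5.symm hpm
  · exact absurd h (hshfn _ _ hneg)
  · have h4 : (Pi.single k 1 : Crd N) = Pi.single k (-1) := congrArg Lamp.a h
    have h5 := congrFun h4 k
    simp only [Pi.single_eq_same] at h5
    exact absurd h5 hpm
  · rfl
  · exact absurd h (hshfn _ _ h1)
  · exact absurd h.symm (hshfn _ _ hneg)
  · exact absurd h.symm (hshfn _ _ h1)
  · have h4 : sl N k j u.1 = sl N k j' u'.1 := congrArg Lamp.e h
    have h5 := congrFun h4 0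
    rw [sl_zero hN, sl_zero hN] at h5
    have h6 : j = j' := by
      by_contra hj
      have h7 := congrFun h4 (pp N k j)
      rw [sl_pp hN, sl_pp_ne hN k hj] at h7
      exact u.2 h7
    subst h6
    have h7 : u = u' := Subtype.ext h5
    rw [h7]

theorem gen_ne_one (hN : 4 ≤ N) (k : ZMod 3) (l : Lbl F) : gen (F := F) (N := N) k l ≠ 1 := by
  obtain ⟨h1, h2, h3⟩ := small_ne hN
  intro h
  rcases l with (_ | _) | ⟨j, u⟩
  · have h4 : (Pi.single k (-1) : Crd N) = 0 := congrArg Lamp.a h
    have h5 := congrFun h4 k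
    simp only [Pi.single_eq_same, Pi.zero_apply] at h5
    exact neg_ne_zero.2 h1 h5
  · have h4 : (Pi.single k 1 : Crd N) = 0 := congrArg Lamp.a h
    have h5 := congrFun h4 k
    simp only [Pi.single_eq_same, Pi.zero_apply] at h5
    exact h1 h5
  · have h4 : sl N k j u.1 = fun _ => 1 := congrArg Lamp.e h
    have h5 := congrFun h4 0
    rw [sl_zero hN] at h5
    exact u.2 h5

/-- every generator has its inverse among the generators -/
theorem gen_inv (k : ZMod 3) (l : Lbl F) : ∃ l' : Lbl F,
    gen (F := F) (N := N) k l * gen k l' = 1 := by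
  rcases l with (_ | _) | ⟨j, u⟩
  · refine ⟨Sum.inl true, ?_⟩
    simp only [gen]
    rw [sh_mul, ← Pi.single_add, neg_add_cancel, Pi.single_zero, sh_zero]
  · refine ⟨Sum.inl false, ?_⟩
    simp only [gen]
    rw [sh_mul, ← Pi.single_add, add_neg_cancel, Pi.single_zero, sh_zero]
  · refine ⟨Sum.inr (j, ⟨u.1⁻¹, inv_ne_one.2 u.2⟩), ?_⟩
    simp only [gen]
    rw [fn_mul]
    have : sl N k j u.1 * sl N k j u.1⁻¹ = 1 := by
      funext x
      simp only [sl, Pi.mul_apply, Pi.one_apply]
      split_ifs <;> simp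
    rw [this, fn_one]

end Lamp

open Lamp

variable {F : Type} [Group F] [Fintype F] [DecidableEq F] {N : ℕ} [NeZero N]
variable {w : ℕ} [NeZero w]

variable (F) in
/-- labels of the edges at a vertex -/
abbrev ELbl : Type := Bool ⊕ (ZMod 3 × Lbl F)

/-- endpoint of a labelled edge -/
def mvx : ELbl F → XX (Lamp F N) w → XX (Lamp F N) w
  | Sum.inl true, x => (x.1, x.2 + 1)
  | Sum.inl false, x => (x.1, x.2 - 1)
  | Sum.inr (k, s), x =>
    (Function.update x.1 (site x.2 k) (x.1 (site x.2 k) * gen k s), x.2)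

theorem w3_ne : (1 : ZMod (3 * w)) ≠ 0 := by
  intro h
  have h1 : ((1 : ℕ) : ZMod (3 * w)) = 0 := by exact_mod_cast h
  rw [ZMod.natCast_eq_zero_iff] at h1
  have := Nat.le_of_dvd (by norm_num) h1
  have := NeZero.ne w
  omega

theorem w3_ne2 : (2 : ZMod (3 * w)) ≠ 0 := by
  intro h
  have h1 : ((2 : ℕ) : ZMod (3 * w)) = 0 := by exact_mod_cast h
  rw [ZMod.natCast_eq_zero_iff] at h1
  have := Nat.le_of_dvd (by norm_num) h1
  have := NeZero.ne w
  omega

theorem site_inj (y : ZMod (3 * w)) : Function.Injective (site (w := w) y) := by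
  intro k k' h
  unfold site at h
  have h1 : ((k.val * w : ℕ) : ZMod (3 * w)) = ((k'.val * w : ℕ) : ZMod (3 * w)) :=
    sub_right_injective h
  have hw := NeZero.pos w
  have hk := ZMod.val_lt k
  have hk' := ZMod.val_lt k'
  have h2 := congrArg ZMod.val h1
  rw [ZMod.val_natCast_of_lt (Nat.mul_lt_mul_of_pos_right hk hw),
    ZMod.val_natCast_of_lt (Nat.mul_lt_mul_of_pos_right hk' hw)] at h2
  exact ZMod.val_injective 3 (Nat.eq_of_mul_eq_mul_right hw h2)

theorem mvx_inj (hN : 4 ≤ N) (x : XX (Lamp F N) w) :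
    Function.Injective fun l : ELbl F => mvx l x := by
  have hlamp : ∀ (k : ZMod 3) (s : Lbl F) (y' : ZMod (3 * w)), y' ≠ x.2 →
      mvx (Sum.inr (k, s)) x ≠ (x.1, y') := by
    intro k s y' hy h
    exact hy (congrArg Prod.snd h).symm
  have hp : x.2 + 1 ≠ x.2 := by
    intro h; exact w3_ne (w := w) (by simpa using h)
  have hm : x.2 - 1 ≠ x.2 := by
    intro h; exact w3_ne (w := w) (by simpa using h)
  have hpm : x.2 + 1 ≠ x.2 - 1 := by
    intro h
    apply w3_ne2 (w := w)
    have h1 : x.2 + 1 - (x.2 - 1) = 0 := by rw [h, sub_self]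
    have h2 : x.2 + 1 - (x.2 - 1) = 2 := by ring
    rw [← h2, h1]
  rintro ((_ | _) | ⟨k, s⟩) ((_ | _) | ⟨k', s'⟩) h
  · rfl
  · exact absurd (congrArg Prod.snd h).symm hpm
  · exact absurd h.symm (hlamp k' s' _ hm)
  · exact absurd (congrArg Prod.snd h) hpm
  · rfl
  · exact absurd h.symm (hlamp k' s' _ hp)
  · exact absurd h (hlamp k s _ hm)
  · exact absurd h (hlamp k s _ hp)
  · have h1 : Function.update x.1 (site x.2 k) (x.1 (site x.2 k) * gen k s)
        = Function.update x.1 (site x.2 k') (x.1 (site x.2 k') * gen k' s') := congrArg Prod.fst h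
    have hkk : k = k' := by
      by_contra hne
      have h2 := congrFun h1 (site x.2 k)
      rw [Function.update_self, Function.update_of_ne (fun h => hne (site_inj _ h))] at h2
      have h3 : gen (F := F) (N := N) k s = 1 := by
        have : x.1 (site x.2 k) * gen k s = x.1 (site x.2 k) * 1 := by rw [h2, mul_one]
        exact mul_left_cancel this
      exact gen_ne_one hN k s h3
    subst hkk
    have h2 := congrFun h1 (site x.2 k)
    rw [Function.update_self, Function.update_self] at h2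
    have h3 := gen_injective hN k (mul_left_cancel h2)
    rw [h3]

theorem mvx_ne (hN : 4 ≤ N) (x : XX (Lamp F N) w) (l : ELbl F) : mvx l x ≠ x := by
  intro h
  rcases l with (_ | _) | ⟨k, s⟩
  · have h1 : x.2 - 1 = x.2 := congrArg Prod.snd h
    exact w3_ne (w := w) (by simpa using h1)
  · have h1 : x.2 + 1 = x.2 := congrArg Prod.snd h
    exact w3_ne (w := w) (by simpa using h1)
  · have h1 : Function.update x.1 (site x.2 k) (x.1 (site x.2 k) * gen k s) = x.1 :=
      congrArg Prod.fst h
    have h2 := congrFun h1 (site x.2 k)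
    rw [Function.update_self] at h2
    have h3 : gen (F := F) (N := N) k s = 1 := by
      have : x.1 (site x.2 k) * gen k s = x.1 (site x.2 k) * 1 := by rw [h2, mul_one]
      exact mul_left_cancel this
    exact gen_ne_one hN k s h3

theorem mvx_symm (x : XX (Lamp F N) w) (l : ELbl F) : ∃ l' : ELbl F, mvx l' (mvx l x) = x := by
  rcases l with (_ | _) | ⟨k, s⟩
  · refine ⟨Sum.inl true, ?_⟩
    simp [mvx]
  · refine ⟨Sum.inl false, ?_⟩
    simp [mvx]
  · obtain ⟨s', hs'⟩ := gen_inv (F := F) (N := N) k s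
    refine ⟨Sum.inr (k, s'), ?_⟩
    simp only [mvx, Function.update_self, Function.update_idem, mul_assoc, hs', mul_one,
      Function.update_eq_self]

variable (F N w) in
/-- The graph: lamps on a cycle of length `3 w`, a cursor, and three heads at distance `w`. -/
def GR3 (hN : 4 ≤ N) : SimpleGraph (XX (Lamp F N) w) where
  Adj x y := ∃ l : ELbl F, mvx l x = y
  symm := ⟨by
    rintro x _ ⟨l, rfl⟩
    exact mvx_symm x l⟩
  loopless := ⟨by
    rintro x ⟨l, hl⟩
    exact mvx_ne hN x l hl⟩

noncomputable instance (hN : 4 ≤ N) : DecidableRel (GR3 F N w hN).Adj := fun _ _ =>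
  Classical.propDecidable _

theorem GR3_nbr (hN : 4 ≤ N) (x : XX (Lamp F N) w) :
    (GR3 F N w hN).neighborFinset x = Finset.univ.image fun l : ELbl F => mvx l x := by
  ext y
  rw [SimpleGraph.mem_neighborFinset]
  simp [GR3]

theorem GR3_degree (hN : 4 ≤ N) (x : XX (Lamp F N) w) :
    (GR3 F N w hN).degree x = 2 + 3 * Fintype.card (Lbl F) := by
  rw [← SimpleGraph.card_neighborFinset_eq_degree, GR3_nbr,
    Finset.card_image_of_injective _ (mvx_inj hN x), Finset.card_univ]
  simp [ZMod.card]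

/-- the operators of the heads -/
noncomputable def Rg (F : Type) [Group F] [Fintype F] [DecidableEq F] (N : ℕ) [NeZero N]
    (k : ZMod 3) : Matrix (Lamp F N) (Lamp F N) ℝ := Rm (gen (F := F) (N := N) k)

instance : Nonempty (Lbl F) := ⟨Sum.inl true⟩

theorem lsrw_mulVec (hN : 4 ≤ N) (f : XX (Lamp F N) w → ℝ) :
    lsrw (GR3 F N w hN) *ᵥ f = Pop (Fintype.card (Lbl F)) (Rg F N) f := by
  funext x
  have hcard : (0 : ℝ) < Fintype.card (Lbl F) := Nat.cast_pos.2 Fintype.card_pos
  have h1 : (lsrw (GR3 F N w hN) *ᵥ f) x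
      = 1 / 2 * f x + 1 / (2 * dd (Fintype.card (Lbl F))) * ∑ l : ELbl F, f (mvx l x) := by
    simp only [Matrix.mulVec, dotProduct, lsrw, add_mul, Finset.sum_add_distrib]
    congr 1
    · simp [ite_mul]
    · have h2 : ∀ y, (if (GR3 F N w hN).Adj x y then 1 / (2 * ((GR3 F N w hN).degree x : ℝ)) else 0)
          * f y = if y ∈ (GR3 F N w hN).neighborFinset x then
            1 / (2 * ((GR3 F N w hN).degree x : ℝ)) * f y else 0 := by
        intro y
        by_cases hadj : (GR3 F N w hN).Adj x y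
        · rw [if_pos hadj, if_pos ((SimpleGraph.mem_neighborFinset _ _ _).2 hadj)]
        · rw [if_neg hadj, if_neg (fun h => hadj ((SimpleGraph.mem_neighborFinset _ _ _).1 h)),
            zero_mul]
      simp only [h2]
      rw [Finset.sum_ite_mem, Finset.univ_inter, ← Finset.mul_sum, GR3_nbr,
        Finset.sum_image (fun a _ b _ h => mvx_inj hN x h), GR3_degree]
      congr 2
      simp [dd]
  rw [h1]
  have h2 : ∑ l : ELbl F, f (mvx l x)
      = f (x.1, x.2 + 1) + f (x.1, x.2 - 1) + ∑ k : ZMod 3, ∑ s : Lbl F,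
        f (Function.update x.1 (site x.2 k) (x.1 (site x.2 k) * gen k s), x.2) := by
    rw [Fintype.sum_sum_type, Fintype.sum_bool, Fintype.sum_prod_type]
    rfl
  rw [h2]
  have h3 : ∀ k, T (Rg F N) (.L k) f x = 1 / 2 * f x + 1 / (2 * Fintype.card (Lbl F)) * ∑ s : Lbl F,
      f (Function.update x.1 (site x.2 k) (x.1 (site x.2 k) * gen k s), x.2) := by
    intro k
    simp only [T, Rg]
    rw [Rm_apply, Function.update_eq_self]
  simp only [Pop, ex1, h3]
  have h4 : T (Rg F N) .cp f x = f (x.1, x.2 + 1) := by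
    simp [T, mv]
  have h5 : T (Rg F N) .cm f x = f (x.1, x.2 - 1) := by
    simp [T, mv, sub_eq_add_neg]
  have h6 : T (Rg F N) .c0 f x = f x := by
    simp [T, mv]
  rw [h4, h5, h6, Finset.sum_add_distrib, Finset.sum_const, Finset.card_univ, ZMod.card,
    ← Finset.mul_sum]
  have hd := dd_pos (Fintype.card (Lbl F))
  simp only [nsmul_eq_mul]
  field_simp
  unfold dd
  push_cast
  ring

/-- symmetries -/
def symm3 (γ : ZMod (3 * w) → Lamp F N) (c : ZMod (3 * w)) :
    XX (Lamp F N) w ≃ XX (Lamp F N) w where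
  toFun x := (fun Y => γ Y * x.1 (Y - c), x.2 + c)
  invFun x := (fun Y => (γ (Y + c))⁻¹ * x.1 (Y + c), x.2 - c)
  left_inv x := by
    ext1
    · funext Y; simp
    · simp
  right_inv x := by
    ext1
    · funext Y; simp
    · simp

theorem symm3_mvx (γ : ZMod (3 * w) → Lamp F N) (c : ZMod (3 * w)) (l : ELbl F)
    (x : XX (Lamp F N) w) : symm3 γ c (mvx l x) = mvx l (symm3 γ c x) := by
  rcases l with (_ | _) | ⟨k, s⟩
  · simp only [symm3, mvx, Equiv.coe_fn_mk]
    ext1
    · rfl
    · simp only []; ring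
  · simp only [symm3, mvx, Equiv.coe_fn_mk]
    ext1
    · rfl
    · simp only []; ring
  · simp only [symm3, mvx, Equiv.coe_fn_mk]
    have hsite : site (x.2 + c) k = site x.2 k + c := by unfold site; ring
    ext1
    · funext Y
      simp only [hsite]
      by_cases hY : Y = site x.2 k + c
      · subst hY
        rw [Function.update_self, add_sub_cancel_right, Function.update_self, mul_assoc]
      · rw [Function.update_of_ne hY, Function.update_of_ne]
        intro h
        exact hY (by rw [← h]; ring)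
    · rfl

theorem GR3_trans (hN : 4 ≤ N) : VertexTransitive (GR3 F N w hN) := by
  intro x y
  refine ⟨⟨symm3 (fun Y => y.1 Y * (x.1 (Y - (y.2 - x.2)))⁻¹) (y.2 - x.2), ?_⟩, ?_⟩
  · intro a b
    constructor
    · rintro ⟨l, hl⟩
      refine ⟨l, ?_⟩
      rw [← symm3_mvx] at hl
      exact (Equiv.injective _) hl
    · rintro ⟨l, rfl⟩
      exact ⟨l, (symm3_mvx _ _ _ _).symm⟩
  · show symm3 (fun Y => y.1 Y * (x.1 (Y - (y.2 - x.2)))⁻¹) (y.2 - x.2) x = y
    ext1
    · funext Y
      simp [symm3]
    · simp [symm3]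

end Pool.Agent.D0H96
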