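import Pool.Agent.D0H96.PCDefs

/-! Total variation distance of doubly stochastic chains: general facts. -/

set_option linter.unusedSectionVars false

namespace Pool.Agent.D0H96

open Finset Matrix

variable {V : Type} [Fintype V] [DecidableEq V] [Nonempty V] {P : Matrix V V ℝ}

theorem le_dTV (π : V → ℝ) (t : ℕ) (x : V) :
    (1 / 2 : ℝ) * ∑ y, |(P ^ t) x y - π y| ≤ dTV P π t :=
  le_ciSup (f := fun x : V => (1 / 2 : ℝ) * ∑ y, |(P ^ t) x y - π y|)
    (Set.finite_range _).bddAbove x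

theorem dTV_succ (hP : P ∈ doublyStochastic ℝ V) {π : V → ℝ} {c : ℝ} (hπ : ∀ x, π x = c) (t : ℕ) :
    dTV P π (t + 1) ≤ dTV P π t := by
  refine ciSup_le fun x => ?_
  have h1 : ∀ y, |(P ^ (t + 1)) x y - π y| ≤ ∑ z, P x z * |(P ^ t) z y - π y| := by
    intro y
    have h2 : (P ^ (t + 1)) x y - π y = ∑ z, P x z * ((P ^ t) z y - π y) := by
      rw [pow_succ', Matrix.mul_apply]
      simp only [mul_sub, Finset.sum_sub_distrib]
      rw [← Finset.sum_mul, sum_row_of_mem_doublyStochastic hP, one_mul]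
    rw [h2]
    refine (Finset.abs_sum_le_sum_abs _ _).trans ?_
    refine Finset.sum_le_sum fun z _ => ?_
    rw [abs_mul, abs_of_nonneg (nonneg_of_mem_doublyStochastic hP)]
  calc (1 / 2 : ℝ) * ∑ y, |(P ^ (t + 1)) x y - π y|
      ≤ (1 / 2 : ℝ) * ∑ y, ∑ z, P x z * |(P ^ t) z y - π y| :=
        mul_le_mul_of_nonneg_left (Finset.sum_le_sum fun y _ => h1 y) (by norm_num)
    _ = ∑ z, P x z * ((1 / 2 : ℝ) * ∑ y, |(P ^ t) z y - π y|) := by
        rw [Finset.sum_comm, Finset.mul_sum]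
        refine Finset.sum_congr rfl fun z _ => ?_
        rw [← Finset.mul_sum]; ring
    _ ≤ ∑ z, P x z * dTV P π t := by
        refine Finset.sum_le_sum fun z _ => ?_
        exact mul_le_mul_of_nonneg_left (le_dTV π t z) (nonneg_of_mem_doublyStochastic hP)
    _ = dTV P π t := by
        rw [← Finset.sum_mul, sum_row_of_mem_doublyStochastic hP, one_mul]

theorem dTV_anti (hP : P ∈ doublyStochastic ℝ V) {π : V → ℝ} {c : ℝ} (hπ : ∀ x, π x = c) :
    Antitone (dTV P π) := antitone_nat_of_succ_le (dTV_succ hP hπ)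

theorem pow_mem' (hP : P ∈ doublyStochastic ℝ V) (t : ℕ) : P ^ t ∈ doublyStochastic ℝ V :=
  pow_mem hP t

/-- upper bound from the oscillation of the iterates -/
theorem dTV_le (hP : P ∈ doublyStochastic ℝ V) {π : V → ℝ}
    (hπ : ∀ x, π x = 1 / Fintype.card V) {t : ℕ} {δ : ℝ}
    (h : ∀ f : V → ℝ, (∀ x x', |f x - f x'| ≤ 2) → ∀ x x',
      |((P ^ t) *ᵥ f) x - ((P ^ t) *ᵥ f) x'| ≤ 2 * δ) : dTV P π t ≤ δ := by
  have hc : (0 : ℝ) < Fintype.card V := Nat.cast_pos.2 Fintype.card_pos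
  refine ciSup_le fun x => ?_
  set f : V → ℝ := fun y => if 0 ≤ (P ^ t) x y - π y then 1 else -1 with hf
  have hf2 : ∀ y y', |f y - f y'| ≤ 2 := by
    intro y y'
    simp only [hf]
    split_ifs <;> norm_num
  have h1 : ∑ y, |(P ^ t) x y - π y| = ((P ^ t) *ᵥ f) x - (∑ x', ((P ^ t) *ᵥ f) x') / Fintype.card V := by
    have h2 : ∑ x', ((P ^ t) *ᵥ f) x' = ∑ y, f y :=
      sum_mulVec_of_mem_doublyStochastic (pow_mem' hP t)
    rw [h2]
    simp only [Matrix.mulVec, dotProduct]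
    rw [Finset.sum_div, ← Finset.sum_sub_distrib]
    refine Finset.sum_congr rfl fun y _ => ?_
    rw [hπ y] at *
    simp only [hf, hπ]
    split_ifs with h3
    · rw [abs_of_nonneg h3]; ring
    · rw [abs_of_neg (not_le.1 h3)]; ring
  have h3 : ((P ^ t) *ᵥ f) x - (∑ x', ((P ^ t) *ᵥ f) x') / Fintype.card V
      = (∑ x', (((P ^ t) *ᵥ f) x - ((P ^ t) *ᵥ f) x')) / Fintype.card V := by
    rw [Finset.sum_sub_distrib, Finset.sum_const, Finset.card_univ, nsmul_eq_mul, sub_div,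
      mul_div_cancel_left₀ _ hc.ne']
  rw [h1, h3]
  have h4 : (∑ x', (((P ^ t) *ᵥ f) x - ((P ^ t) *ᵥ f) x')) / Fintype.card V ≤ 2 * δ := by
    rw [div_le_iff₀ hc]
    calc ∑ x', (((P ^ t) *ᵥ f) x - ((P ^ t) *ᵥ f) x') ≤ ∑ _x' : V, 2 * δ :=
          Finset.sum_le_sum fun x' _ => (abs_le.1 (h f hf2 x x')).2
      _ = 2 * δ * Fintype.card V := by simp [mul_comm]
  linarith

open Classical in
/-- lower bound from a set -/
theorem le_dTV_set (hP : P ∈ doublyStochastic ℝ V) {π : V → ℝ}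
    (hπ : ∀ x, π x = 1 / Fintype.card V) (t : ℕ) (B : Finset V) (x : V) :
    ((P ^ t) *ᵥ fun y => if y ∈ B then (1 : ℝ) else 0) x - B.card / Fintype.card V
      ≤ dTV P π t := by
  have hc : (0 : ℝ) < Fintype.card V := Nat.cast_pos.2 Fintype.card_pos
  refine le_trans ?_ (le_dTV π t x)
  set a : V → ℝ := fun y => (P ^ t) x y - π y with ha
  have hsum : ∑ y, a y = 0 := by
    simp only [ha, Finset.sum_sub_distrib, hπ]
    rw [sum_row_of_mem_doublyStochastic (pow_mem' hP t), Finset.sum_const, Finset.card_univ,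
      nsmul_eq_mul, mul_one_div_cancel hc.ne', sub_self]
  have h1 : ((P ^ t) *ᵥ fun y => if y ∈ B then (1 : ℝ) else 0) x - B.card / Fintype.card V
      = ∑ y ∈ B, a y := by
    simp only [ha, Finset.sum_sub_distrib, hπ, Matrix.mulVec, dotProduct, mul_ite, mul_one,
      mul_zero]
    rw [Finset.sum_ite_mem, Finset.univ_inter, Finset.sum_const, nsmul_eq_mul, mul_one_div]
  rw [h1]
  have h2 : ∑ y ∈ B, a y + ∑ y ∈ Bᶜ, a y = 0 := by
    rw [Finset.sum_add_sum_compl, hsum]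
  have h3 : ∑ y, |a y| = ∑ y ∈ B, |a y| + ∑ y ∈ Bᶜ, |a y| := by
    rw [Finset.sum_add_sum_compl]
  have h4 : ∑ y ∈ B, a y ≤ ∑ y ∈ B, |a y| := Finset.sum_le_sum fun y _ => le_abs_self _
  have h5 : -∑ y ∈ Bᶜ, a y ≤ ∑ y ∈ Bᶜ, |a y| := by
    rw [← Finset.sum_neg_distrib]
    exact Finset.sum_le_sum fun y _ => neg_le_abs _
  show ∑ y ∈ B, a y ≤ 1 / 2 * ∑ y, |a y|
  rw [h3]
  linarith

/-- iterating a contraction of oscillations -/
theorem osc_iter {t : ℕ}
    (h : ∀ (f : V → ℝ) (B : ℝ), 0 ≤ B → (∀ x x', |f x - f x'| ≤ B) → ∀ x x',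
      |((P ^ t) *ᵥ f) x - ((P ^ t) *ᵥ f) x'| ≤ B / 2) (k : ℕ) :
    ∀ (f : V → ℝ) (B : ℝ), 0 ≤ B → (∀ x x', |f x - f x'| ≤ B) → ∀ x x',
      |((P ^ (t * k)) *ᵥ f) x - ((P ^ (t * k)) *ᵥ f) x'| ≤ B / 2 ^ k := by
  induction k with
  | zero =>
    intro f B _ hf x x'
    simpa using hf x x'
  | succ k ih =>
    intro f B hB hf x x'
    have h1 := ih ((P ^ t) *ᵥ f) (B / 2) (by positivity) (h f B hB hf) x x'
    rw [Matrix.mulVec_mulVec, ← pow_add] at h1
    have e1 : t * (k + 1) = t * k + t := by ring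
    have e2 : B / 2 ^ (k + 1) = B / 2 / 2 ^ k := by rw [pow_succ]; field_simp
    rw [e1, e2]
    exact h1

theorem dTV_tendsto (hP : P ∈ doublyStochastic ℝ V) {π : V → ℝ}
    (hπ : ∀ x, π x = 1 / Fintype.card V) {t : ℕ}
    (h : ∀ (f : V → ℝ) (B : ℝ), 0 ≤ B → (∀ x x', |f x - f x'| ≤ B) → ∀ x x',
      |((P ^ t) *ᵥ f) x - ((P ^ t) *ᵥ f) x'| ≤ B / 2) (k : ℕ) :
    dTV P π (t * k) ≤ 1 / 2 ^ k := by
  refine dTV_le hP hπ fun f hf x x' => ?_
  have := osc_iter h k f 2 (by norm_num) hf x x'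
  rwa [← mul_one_div] at this

end Pool.Agent.D0H96
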