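import Pool.Agent.D0H96.Lower
import Pool.Agent.D0H96.Graph
import Pool.Agent.D0H96.TV

/-! The lamp system over `A_5` and the choice of the distance between the heads. -/

set_option linter.unusedSectionVars false

namespace Pool.Agent.D0H96

open Finset Matrix Filter Topology

open Lamp

section general

variable {F : Type} [Group F] [Fintype F] [DecidableEq F] {N : ℕ} [NeZero N]

theorem exists_theta (hF : commutator F = ⊤) :
    ∃ θ : ℝ, Sys (Lamp F N) (Rg F N) (EE F N) θ := by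
  have h : ∀ k : ZMod 3, ∃ θ : ℝ, 0 ≤ θ ∧ θ < 1 ∧ ∀ v : ℕ, Bd (Rg F N k ^ v - EE F N k) (θ ^ v) :=
    fun k => exists_gap (gen (F := F) (N := N) k) (closure_gen hF k)
  choose θ h0 h1 h2 using h
  refine ⟨max (θ 0) (max (θ 1) (θ 2)), ⟨fun k => Rm_mem _, fun k => av_mem _, ?_, ?_, ?_⟩⟩
  · exact le_max_of_le_left (h0 0)
  · exact max_lt (h1 0) (max_lt (h1 1) (h1 2))
  · intro k v
    have hk : θ k ≤ max (θ 0) (max (θ 1) (θ 2)) := by
      have : k = 0 ∨ k = 1 ∨ k = 2 := by revert k; decide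
      rcases this with rfl | rfl | rfl
      · exact le_max_left _ _
      · exact (le_max_left _ _).trans (le_max_right _ _)
      · exact (le_max_right _ _).trans (le_max_right _ _)
    exact (h2 k v).mono (pow_le_pow_left₀ (h0 k) hk v)

theorem words_lamp (hN : 2 ≤ N) : Words (EE F N) N where
  short js hch hall := word_short js hch hall
  long js hch hall hr := by
    intro f hf
    have h : wd (EE F N) js = av ⊤ := word_long hN js hch hall hr
    rw [h, mean_zero_av_top hf, nrm_zero]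
    simp

theorem obs_lamp (hN : 2 ≤ N) (hF : 2 ≤ Fintype.card F) :
    Obs (EE F N) N (HH F (fun _ => 1)) (1 : Lamp F N) (Fintype.card (Crd N)) where
  one_le := by exact_mod_cast Nat.one_le_iff_ne_zero.2 Fintype.card_ne_zero
  bound q := abs_HH_le hF q
  mean := sum_HH _
  surv js hch hr := word_HH_ge hN hF js hch hr

end general

theorem lsrw_mem {V : Type} [Fintype V] [DecidableEq V] (G : SimpleGraph V)
    [DecidableRel G.Adj] {d : ℕ} (hd : 0 < d) (hG : G.IsRegularOfDegree d) :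
    lsrw G ∈ doublyStochastic ℝ V := by
  have hdR : (0 : ℝ) < d := Nat.cast_pos.2 hd
  have hdeg : ∀ x, (G.degree x : ℝ) = d := fun x => by rw [hG x]
  have hrow : ∀ x, ∑ y, lsrw G x y = 1 := by
    intro x
    simp only [lsrw, Finset.sum_add_distrib, hdeg]
    rw [Finset.sum_ite_eq, if_pos (Finset.mem_univ x), ← Finset.sum_filter, Finset.sum_const]
    have h1 : (Finset.univ.filter fun y => G.Adj x y).card = d := by
      rw [← hG x, ← SimpleGraph.card_neighborFinset_eq_degree]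
      congr 1
      ext y
      simp [SimpleGraph.mem_neighborFinset]
    rw [h1, nsmul_eq_mul]
    field_simp
    norm_num
  have hsymm : ∀ x y, lsrw G x y = lsrw G y x := by
    intro x y
    simp only [lsrw, hdeg]
    congr 1
    · simp only [eq_comm]
    · by_cases h : G.Adj x y
      · rw [if_pos h, if_pos h.symm]
      · rw [if_neg h, if_neg (fun h' => h h'.symm)]
  rw [mem_doublyStochastic_iff_sum]
  refine ⟨fun x y => ?_, hrow, fun y => ?_⟩
  · simp only [lsrw]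
    have h1 : (0 : ℝ) ≤ (if x = y then 1 / 2 else 0) := by split_ifs <;> norm_num
    have h2 : (0 : ℝ) ≤ (if G.Adj x y then 1 / (2 * (G.degree x : ℝ)) else 0) := by
      split_ifs <;> positivity
    linarith
  · rw [← hrow y]
    exact Finset.sum_congr rfl fun x _ => hsymm x y

theorem pow_mulVec_iter {V : Type} [Fintype V] [DecidableEq V] {P : Matrix V V ℝ}
    {A : (V → ℝ) → V → ℝ} (h : ∀ f, P *ᵥ f = A f) (t : ℕ) (f : V → ℝ) :
    (P ^ t) *ᵥ f = A^[t] f := by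
  induction t with
  | zero => simp
  | succ t ih =>
    rw [pow_succ', ← Matrix.mulVec_mulVec, ih, h, Function.iterate_succ_apply']

/-- the alternating group of degree five -/
abbrev A5 : Type := alternatingGroup (Fin 5)

theorem card_A5 : Fintype.card A5 = 60 := by
  have h := two_mul_nat_card_alternatingGroup (α := Fin 5)
  rw [Nat.card_eq_fintype_card, Nat.card_eq_fintype_card, Fintype.card_perm,
    Fintype.card_fin] at h
  have h2 : Nat.factorial 5 = 120 := rfl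
  rw [h2] at h
  have h3 : 2 * Fintype.card A5 = 120 := by convert h
  omega

theorem perfect_A5 : commutator A5 = ⊤ :=
  commutator_alternatingGroup_eq_top (by simp)

theorem card_Lbl : Fintype.card (Lbl A5) = 179 := by
  rw [Fintype.card_sum, Fintype.card_bool, Fintype.card_prod, Fintype.card_fin,
    Fintype.card_subtype_compl, Fintype.card_subtype_eq, card_A5]

theorem dd_179 : dd 179 = 539 := by unfold dd; norm_num

/-- everything needed about one graph -/
structure GoodW (N w : ℕ) [NeZero N] [NeZero w] (hN : 4 ≤ N) : Prop where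
  osc : ∀ (f : XX (Lamp A5 N) w → ℝ) (B : ℝ), 0 ≤ B → (∀ x x', |f x - f x'| ≤ B) → ∀ x x',
    |((lsrw (GR3 A5 N w hN) ^ (40000 * (N ^ 2 * w ^ 2))) *ᵥ f) x
      - ((lsrw (GR3 A5 N w hN) ^ (40000 * (N ^ 2 * w ^ 2))) *ᵥ f) x'| ≤ B / 2
  eig : ∀ (f : XX (Lamp A5 N) w → ℝ) (lam : ℝ), f ≠ 0 → lsrw (GR3 A5 N w hN) *ᵥ f = lam • f →
    lam ≠ 1 → 1 / (320000 * (w : ℝ) ^ 2) ≤ 1 - lam
  low : ∀ C ≤ N, 1 / 2 * (24 / 25 : ℝ) ^ C ≤
    dTV (lsrw (GR3 A5 N w hN)) (fun _ => 1 / (Fintype.card (XX (Lamp A5 N) w) : ℝ))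
      (N ^ 2 * w ^ 2 * C)

theorem GR3_reg (N w : ℕ) [NeZero N] [NeZero w] (hN : 4 ≤ N) :
    (GR3 A5 N w hN).IsRegularOfDegree 539 := by
  intro x
  rw [GR3_degree, card_Lbl]

/-- explicit conditions on `w` -/
theorem goodW_of (N w : ℕ) [NeZero N] [NeZero w] (hN : 16 ≤ N) {u : ℕ} (hwu : w = 4 * u)
    {θ : ℝ} (S : Sys (Lamp A5 N) (Rg A5 N) (EE A5 N) θ) {u0 : ℝ} (hu : 0 ≤ u0) (hu1 : u0 ≤ 1)
    (hu0 : 1 - u0 ≤ u0 * (179 : ℕ) * (1 - θ) * w)
    (c1 : 12 * Real.sqrt (Fintype.card (Lamp A5 N)) * (w * u0 ^ 2)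
      * (2 + 20000 * (N : ℝ) ^ 2 / 539) ^ 2 ≤ 1 / 4)
    (c2 : u0 * (2 + 160000 / 539) ≤ 1 / 8)
    (rb : ℕ → ℕ) (hrb : ∀ C, 0 < rb C)
    (hrb' : ∀ C, (1 + ((N : ℝ) ^ 2 * C) / 539) / rb C ≤ (24 / 25 : ℝ) ^ C / 8)
    (d0 : ℕ → ℝ) (hd0 : ∀ C, 0 < d0 C)
    (hd0' : ∀ C, 4 * d0 C * nrm (HH A5 (fun _ => 1) : Lamp A5 N → ℝ)
      ≤ 1 / 48 * (1 / N : ℝ) ^ (12 * rb C))
    (c3 : ∀ C ≤ N, u0 * (2 + ((N : ℝ) ^ 2 * C) / 539) / d0 C ≤ (24 / 25 : ℝ) ^ C / 8)
    (c4 : ∀ C ≤ N, 2 * Real.exp (-((1 / 48 * (1 / N : ℝ) ^ (12 * rb C)) ^ 2 * (3 * w)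
      / (16 * (Fintype.card (Crd N) : ℝ) ^ 2))) ≤ (24 / 25 : ℝ) ^ C / 8) :
    GoodW N w (by omega) := by
  have hwR : (0 : ℝ) < w := by exact_mod_cast (wpos (w := w))
  have hN0 : (0 : ℝ) < N := by exact_mod_cast (by omega : 0 < N)
  have hN16 : (16 : ℝ) ≤ N := by exact_mod_cast hN
  have hN4 : 4 ≤ N := by omega
  have hop : ∀ f, lsrw (GR3 A5 N w hN4) *ᵥ f = Pop 179 (Rg A5 N) f := by
    intro f
    rw [lsrw_mulVec, card_Lbl]
  have hW : Words (EE A5 N) N := words_lamp (by omega)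
  have hO := obs_lamp (F := A5) (N := N) (by omega) (by rw [card_A5]; norm_num)
  have hpw := pow_mulVec_iter hop
  refine ⟨?_, ?_, ?_⟩
  · intro f B hB hf x x'
    have ht : 40000 * (N ^ 2 * w ^ 2) = 20000 * (N ^ 2 * w ^ 2) + 20000 * (N ^ 2 * w ^ 2) := by ring
    have htpos : 0 < 20000 * (N ^ 2 * w ^ 2) := by
      have := wpos (w := w)
      have : 0 < N := by omega
      positivity
    rw [hpw, ht]
    refine (iter_osc (m := 179) S (by omega) hW hu hu1 hu0 hB hf htpos x x').trans ?_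
    rw [dd_179]
    have e1 : (((N + 3) * w : ℕ) : ℝ) ^ 2 * 539 / ((20000 * (N ^ 2 * w ^ 2) : ℕ) : ℝ)
        = 539 / 20000 * (((N : ℝ) + 3) ^ 2 / (N : ℝ) ^ 2) := by
      push_cast; field_simp
    have e2 : ((N : ℝ) + 3) ^ 2 / (N : ℝ) ^ 2 ≤ 3 / 2 := by
      rw [div_le_iff₀ (by positivity)]; nlinarith
    have e3 : ((20000 * (N ^ 2 * w ^ 2) : ℕ) : ℝ) / (539 * (w : ℝ) ^ 2)
        = 20000 * (N : ℝ) ^ 2 / 539 := by
      push_cast; field_simp
    have e4 : (539 : ℝ) * ((3 * w : ℕ) : ℝ) ^ 2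
        / (8 * ((20000 * (N ^ 2 * w ^ 2) + 20000 * (N ^ 2 * w ^ 2) : ℕ) : ℝ))
        = 4851 / 320000 / (N : ℝ) ^ 2 := by
      push_cast; field_simp; norm_num
    have e5 : (4851 : ℝ) / 320000 / (N : ℝ) ^ 2 ≤ 1 / 1000 := by
      rw [div_le_iff₀ (by positivity)]; nlinarith
    rw [e1, e3, e4]
    have e6 : 2 * (2 * Real.sqrt (Fintype.card (Lamp A5 N)) *
        (3 * (w : ℝ) * (u0 * (2 + 20000 * (N : ℝ) ^ 2 / 539)) ^ 2)) =
        12 * Real.sqrt (Fintype.card (Lamp A5 N)) * (w * u0 ^ 2)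
          * (2 + 20000 * (N : ℝ) ^ 2 / 539) ^ 2 := by ring
    have e7 : 2 * (2 * (539 / 20000 * (((N : ℝ) + 3) ^ 2 / (N : ℝ) ^ 2)) +
        2 * Real.sqrt (Fintype.card (Lamp A5 N)) *
        (3 * (w : ℝ) * (u0 * (2 + 20000 * (N : ℝ) ^ 2 / 539)) ^ 2)) + 4851 / 320000 / (N : ℝ) ^ 2
        ≤ 1 / 2 := by
      rw [mul_add 2 (2 * _), e6]
      linarith
    calc B * _ ≤ B * (1 / 2) := mul_le_mul_of_nonneg_left e7 hB
      _ = B / 2 := by ring
  · intro f lam hf hfl hne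
    rcases lt_or_ge lam 0 with hneg | hlam
    · have h1 : 1 / (320000 * (w : ℝ) ^ 2) ≤ 1 := by
        rw [div_le_one (by positivity)]
        have : (1 : ℝ) ≤ w := by exact_mod_cast (wpos (w := w))
        nlinarith
      linarith
    have htpos : 0 < 160000 * w ^ 2 := by
      have := wpos (w := w)
      positivity
    have heig : ∀ x, Pop 179 (Rg A5 N) f x = lam * f x := by
      intro x
      rw [← hop, hfl]; rfl
    have hb := eig_bound (m := 179) S hW hu hu1 hu0 hlam hne heig hf htpos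
    rw [dd_179] at hb
    have hsq : 1 / Real.sqrt N ≤ 1 / 4 := by
      refine one_div_le_one_div_of_le (by norm_num) ?_
      refine Real.le_sqrt_of_sq_le ?_
      linarith
    have e1 : ((6 * w : ℕ) : ℝ) ^ 2 * 539 / ((160000 * w ^ 2 : ℕ) : ℝ) = 36 * 539 / 160000 := by
      push_cast; field_simp; norm_num
    have e2 : ((160000 * w ^ 2 : ℕ) : ℝ) / (539 * (w : ℝ) ^ 2) = 160000 / 539 := by
      push_cast; field_simp
    have e3 : (539 : ℝ) * ((3 * w : ℕ) : ℝ) ^ 2 / (8 * ((160000 * w ^ 2 : ℕ) : ℝ))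
        = 539 * 9 / 1280000 := by
      push_cast; field_simp; norm_num
    rw [e1, e2, e3] at hb
    have hhalf : lam ^ (160000 * w ^ 2) ≤ 1 / 2 := by
      rcases hb with h | h
      · refine h.trans ?_
        have : (36 : ℝ) * 539 / 160000 ≤ 1 / 8 := by norm_num
        linarith
      · refine h.trans ?_
        norm_num
    have hbern := one_add_mul_le_pow (a := lam - 1) (by linarith) (160000 * w ^ 2)
    have e4 : 1 + (lam - 1) = lam := by ring
    rw [e4] at hbern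
    push_cast at hbern
    rw [div_le_iff₀ (by positivity)]
    nlinarith
  · intro C hC
    obtain ⟨B, hB⟩ := lower_main (m := 179) (w := w) S (by rw [dd_179]; norm_num) hN4 hO hu hu1 hu0
      hwu C (rb C) (hrb C) (hd0 C) (hd0' C)
    rw [dd_179] at hB
    have h1 := le_dTV_set (lsrw_mem (GR3 A5 N w hN4) (by norm_num) (GR3_reg N w hN4))
      (π := fun _ => 1 / (Fintype.card (XX (Lamp A5 N) w) : ℝ)) (fun _ => rfl)
      (N ^ 2 * w ^ 2 * C) B ((fun _ => 1), 0)
    refine le_trans ?_ h1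
    rw [hpw]
    refine le_trans ?_ hB
    have h2 := hrb' C
    have h3 := c3 C hC
    have h4 := c4 C hC
    have h5 : (0 : ℝ) < (24 / 25 : ℝ) ^ C := by positivity
    linarith

instance nz4 (k : ℕ) : NeZero (4 * (k + 1)) := ⟨by omega⟩

theorem exists_goodW (N : ℕ) [NeZero N] (hN : 16 ≤ N) :
    ∃ g : ℕ, GoodW N (4 * (g + 1)) (by omega) := by
  obtain ⟨θ, S⟩ := exists_theta (F := A5) (N := N) perfect_A5
  have hN0 : (0 : ℝ) < N := by exact_mod_cast (by omega : 0 < N)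
  set β : ℝ := (179 : ℕ) * (1 - θ) with hβ
  have hβ0 : 0 < β := by
    have := S.h1
    rw [hβ]; push_cast
    nlinarith
  -- the function u0
  set U : ℕ → ℝ := fun g => 1 / (1 + β * ((4 * (g + 1) : ℕ) : ℝ)) with hU
  have hwt : Tendsto (fun g : ℕ => ((4 * (g + 1) : ℕ) : ℝ)) atTop atTop := by
    refine tendsto_natCast_atTop_atTop.comp ?_
    refine tendsto_atTop_mono (fun g => ?_) tendsto_id
    simp only [id]; omega
  have hden : Tendsto (fun g : ℕ => 1 + β * ((4 * (g + 1) : ℕ) : ℝ)) atTop atTop :=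
    tendsto_atTop_add_const_left _ _ (hwt.const_mul_atTop hβ0)
  have hUt : Tendsto U atTop (𝓝 0) := by
    rw [hU]
    simp only [one_div]
    exact tendsto_inv_atTop_zero.comp hden
  have hUpos : ∀ g, 0 < U g := fun g => by
    rw [hU]; positivity
  have hwU : ∀ g, ((4 * (g + 1) : ℕ) : ℝ) * U g ^ 2 ≤ 1 / β * U g := by
    intro g
    have h1 : ((4 * (g + 1) : ℕ) : ℝ) * U g ≤ 1 / β := by
      rw [hU]
      simp only []
      rw [mul_one_div, div_le_div_iff₀ (by positivity) hβ0]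
      nlinarith
    calc ((4 * (g + 1) : ℕ) : ℝ) * U g ^ 2 = ((4 * (g + 1) : ℕ) : ℝ) * U g * U g := by ring
      _ ≤ 1 / β * U g := mul_le_mul_of_nonneg_right h1 (hUpos g).le
  -- constants
  have hrbex : ∀ C : ℕ, ∃ r : ℕ, 0 < r ∧
      (1 + ((N : ℝ) ^ 2 * C) / 539) / r ≤ (24 / 25 : ℝ) ^ C / 8 := by
    intro C
    obtain ⟨r, hr⟩ := exists_nat_gt ((1 + ((N : ℝ) ^ 2 * C) / 539) / ((24 / 25 : ℝ) ^ C / 8))
    have hr0 : (0 : ℝ) < r := lt_of_le_of_lt (by positivity) hr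
    refine ⟨r, by exact_mod_cast hr0, ?_⟩
    rw [div_lt_iff₀ (by positivity)] at hr
    rw [div_le_iff₀ hr0]
    linarith
  choose rb hrb hrb' using hrbex
  set d0 : ℕ → ℝ := fun C => 1 / 48 * (1 / N : ℝ) ^ (12 * rb C)
    / (4 * (nrm (HH A5 (fun _ => 1) : Lamp A5 N → ℝ) + 1)) with hd0def
  have hnrm := nrm_nonneg (HH A5 (fun _ => 1) : Lamp A5 N → ℝ)
  have hd0 : ∀ C, 0 < d0 C := fun C => by
    rw [hd0def]; positivity
  have hd0' : ∀ C, 4 * d0 C * nrm (HH A5 (fun _ => 1) : Lamp A5 N → ℝ)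
      ≤ 1 / 48 * (1 / N : ℝ) ^ (12 * rb C) := by
    intro C
    rw [hd0def]
    simp only []
    generalize nrm (HH A5 (fun _ => 1) : Lamp A5 N → ℝ) = a at *
    have hp : 0 ≤ 1 / 48 * (1 / N : ℝ) ^ (12 * rb C) := by positivity
    generalize 1 / 48 * (1 / N : ℝ) ^ (12 * rb C) = b at *
    rw [← mul_div_assoc, div_mul_eq_mul_div, div_le_iff₀ (by positivity)]
    nlinarith
  -- eventual conditions
  have v1 : ∀ᶠ g in atTop, 12 * Real.sqrt (Fintype.card (Lamp A5 N)) *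
      (((4 * (g + 1) : ℕ) : ℝ) * U g ^ 2) * (2 + 20000 * (N : ℝ) ^ 2 / 539) ^ 2 ≤ 1 / 4 := by
    have h1 : Tendsto (fun g => 12 * Real.sqrt (Fintype.card (Lamp A5 N)) *
        (1 / β * U g) * (2 + 20000 * (N : ℝ) ^ 2 / 539) ^ 2) atTop (𝓝 0) := by
      have h2 := ((hUt.const_mul (1 / β)).const_mul
        (12 * Real.sqrt (Fintype.card (Lamp A5 N)))).mul_const
        ((2 + 20000 * (N : ℝ) ^ 2 / 539) ^ 2)
      simpa using h2
    filter_upwards [h1.eventually_le_const (by norm_num : (0 : ℝ) < 1 / 4)] with g hg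
    refine le_trans ?_ hg
    refine mul_le_mul_of_nonneg_right ?_ (by positivity)
    exact mul_le_mul_of_nonneg_left (hwU g) (by positivity)
  have v2 : ∀ᶠ g in atTop, U g * (2 + 160000 / 539) ≤ 1 / 8 := by
    have h1 : Tendsto (fun g => U g * (2 + 160000 / 539)) atTop (𝓝 0) := by
      simpa using hUt.mul_const (2 + 160000 / 539)
    exact h1.eventually_le_const (by norm_num)
  have v3 : ∀ᶠ g in atTop, ∀ C ∈ Finset.range (N + 1),
      U g * (2 + ((N : ℝ) ^ 2 * C) / 539) / d0 C ≤ (24 / 25 : ℝ) ^ C / 8 := by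
    rw [Filter.eventually_all_finset]
    intro C _
    have h1 : Tendsto (fun g => U g * (2 + ((N : ℝ) ^ 2 * C) / 539) / d0 C) atTop (𝓝 0) := by
      have := (hUt.mul_const (2 + ((N : ℝ) ^ 2 * C) / 539)).div_const (d0 C)
      simpa using this
    exact h1.eventually_le_const (by positivity)
  have v4 : ∀ᶠ g in atTop, ∀ C ∈ Finset.range (N + 1),
      2 * Real.exp (-((1 / 48 * (1 / N : ℝ) ^ (12 * rb C)) ^ 2 * (3 * ((4 * (g + 1) : ℕ) : ℝ))
      / (16 * (Fintype.card (Crd N) : ℝ) ^ 2))) ≤ (24 / 25 : ℝ) ^ C / 8 := by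
    rw [Filter.eventually_all_finset]
    intro C _
    have hcpos : (0 : ℝ) < Fintype.card (Crd N) := Nat.cast_pos.2 Fintype.card_pos
    have hkpos : (0 : ℝ) < (1 / 48 * (1 / N : ℝ) ^ (12 * rb C)) ^ 2 * 3
      / (16 * (Fintype.card (Crd N) : ℝ) ^ 2) := by positivity
    have h1 : Tendsto (fun g : ℕ => 2 * Real.exp (-((1 / 48 * (1 / N : ℝ) ^ (12 * rb C)) ^ 2
        * (3 * ((4 * (g + 1) : ℕ) : ℝ)) / (16 * (Fintype.card (Crd N) : ℝ) ^ 2)))) atTop (𝓝 0) := by
      have h2 := hwt.const_mul_atTop hkpos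
      have h3 := (Real.tendsto_exp_neg_atTop_nhds_zero.comp h2).const_mul 2
      rw [mul_zero] at h3
      refine h3.congr fun g => ?_
      simp only [Function.comp]
      congr 3
      ring
    exact h1.eventually_le_const (by positivity)
  obtain ⟨g, h1, h2, h3, h4⟩ := (v1.and (v2.and (v3.and v4))).exists
  refine ⟨g, goodW_of N (4 * (g + 1)) hN rfl S (hUpos g).le ?_ ?_ h1 h2 rb hrb hrb' d0 hd0 hd0'
    (fun C hC => h3 C (Finset.mem_range.2 (by omega)))
    (fun C hC => h4 C (Finset.mem_range.2 (by omega)))⟩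
  · rw [hU]
    simp only []
    rw [div_le_one (by positivity)]
    have : 0 ≤ β * ((4 * (g + 1) : ℕ) : ℝ) := by positivity
    linarith
  · have h5 : 0 < 1 + β * ((4 * (g + 1) : ℕ) : ℝ) := by positivity
    have h6 : U g * (1 + β * ((4 * (g + 1) : ℕ) : ℝ)) = 1 := by
      rw [hU]; simp only []; field_simp
    rw [hβ] at h6
    nlinarith

end Pool.Agent.D0H96
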