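import Pool.Agent.D0H96.GAvg

/-! The lamp group: wreath product of `F` with `(ZMod N)^3`, and its three subgroups. -/

set_option linter.unusedSectionVars false

namespace Pool.Agent.D0H96

open Matrix Finset

/-- coordinates -/
abbrev Crd (N : ℕ) : Type := ZMod 3 → ZMod N

/-- The wreath product of `F` with `(ZMod N)^3`. -/
@[ext]
structure Lamp (F : Type) (N : ℕ) : Type where
  /-- the function part -/
  e : Crd N → F
  /-- the shift part -/
  a : Crd N

namespace Lamp

variable {F : Type} [Group F] {N : ℕ}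

instance : Mul (Lamp F N) := ⟨fun p q => ⟨fun x => p.e x * q.e (x - p.a), p.a + q.a⟩⟩
instance : One (Lamp F N) := ⟨⟨fun _ => 1, 0⟩⟩
instance : Inv (Lamp F N) := ⟨fun p => ⟨fun x => (p.e (x + p.a))⁻¹, -p.a⟩⟩

theorem mul_e (p q : Lamp F N) (x : Crd N) : (p * q).e x = p.e x * q.e (x - p.a) := rfl
theorem mul_a (p q : Lamp F N) : (p * q).a = p.a + q.a := rfl
theorem one_e (x : Crd N) : (1 : Lamp F N).e x = 1 := rfl
theorem one_a : (1 : Lamp F N).a = 0 := rfl
theorem inv_e (p : Lamp F N) (x : Crd N) : (p⁻¹).e x = (p.e (x + p.a))⁻¹ := rfl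
theorem inv_a (p : Lamp F N) : (p⁻¹).a = -p.a := rfl

instance : Group (Lamp F N) where
  mul_assoc p q r := by
    ext x
    · simp only [mul_e, mul_a, mul_assoc, sub_sub]
    · simp only [mul_a, add_assoc]
  one_mul p := by
    ext x
    · simp only [mul_e, one_e, one_a, one_mul, sub_zero]
    · simp only [mul_a, one_a, zero_add]
  mul_one p := by
    ext x
    · simp only [mul_e, one_e, mul_one]
    · simp only [mul_a, one_a, add_zero]
  inv_mul_cancel p := by
    ext x
    · simp only [mul_e, inv_e, inv_a, one_e, sub_neg_eq_add, inv_mul_cancel]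
    · simp only [mul_a, inv_a, one_a, neg_add_cancel]

/-- as a product -/
def equivProd : Lamp F N ≃ (Crd N → F) × Crd N :=
  ⟨fun p => (p.e, p.a), fun p => ⟨p.1, p.2⟩, fun _ => rfl, fun _ => rfl⟩

instance [DecidableEq F] [NeZero N] : DecidableEq (Lamp F N) := equivProd.decidableEq

instance [Fintype F] [DecidableEq F] [NeZero N] : Fintype (Lamp F N) :=
  Fintype.ofEquiv _ equivProd.symm

/-- function part embedded -/
def fn (g : Crd N → F) : Lamp F N := ⟨g, 0⟩

/-- shift part embedded -/
def sh (a : Crd N) : Lamp F N := ⟨fun _ => 1, a⟩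

theorem fn_mul (g h : Crd N → F) : fn g * fn h = fn (g * h) := by
  ext x
  · simp [mul_e, fn]
  · simp [mul_a, fn]

theorem fn_one : fn (1 : Crd N → F) = 1 := rfl

theorem fn_inv (g : Crd N → F) : (fn g)⁻¹ = fn (g⁻¹) := by
  ext x
  · simp [inv_e, fn]
  · simp [inv_a, fn]

theorem sh_mul (a b : Crd N) : (sh a * sh b : Lamp F N) = sh (a + b) := by
  ext x
  · simp [mul_e, sh]
  · simp [mul_a, sh]

theorem sh_zero : (sh 0 : Lamp F N) = 1 := rfl

theorem fn_mul_sh (p : Lamp F N) : fn p.e * sh p.a = p := by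
  ext x
  · simp [mul_e, fn, sh]
  · simp [mul_a, fn, sh]

theorem sh_conj (a : Crd N) (g : Crd N → F) :
    sh a * fn g * sh (-a) = fn fun x => g (x - a) := by
  ext x
  · simp [mul_e, mul_a, fn, sh]
  · simp [mul_a, fn, sh]

/-- the embedding of the function part as a homomorphism -/
def fnHom : (Crd N → F) →* Lamp F N where
  toFun := fn
  map_one' := rfl
  map_mul' g h := (fn_mul g h).symm

variable (F N)

/-- the normal subgroup of elements with trivial shift -/
def LL : Subgroup (Lamp F N) where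
  carrier := {p | p.a = 0}
  mul_mem' {p q} hp hq := by
    simp only [Set.mem_setOf_eq, mul_a] at *; rw [hp, hq, add_zero]
  one_mem' := rfl
  inv_mem' {p} hp := by
    simp only [Set.mem_setOf_eq, inv_a] at *; rw [hp, neg_zero]

/-- functions that are trivial on `Z` -/
def Off (Z : Set (Crd N)) : Subgroup (Lamp F N) where
  carrier := {p | p.a = 0 ∧ ∀ x ∈ Z, p.e x = 1}
  mul_mem' {p q} hp hq := by
    simp only [Set.mem_setOf_eq, mul_a] at *
    refine ⟨by rw [hp.1, hq.1, add_zero], fun x hx => ?_⟩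
    rw [mul_e, hp.1, sub_zero, hp.2 x hx, hq.2 x hx, one_mul]
  one_mem' := ⟨rfl, fun _ _ => rfl⟩
  inv_mem' {p} hp := by
    simp only [Set.mem_setOf_eq, inv_a] at *
    refine ⟨by rw [hp.1, neg_zero], fun x hx => ?_⟩
    rw [inv_e, hp.1, add_zero, hp.2 x hx, inv_one]

/-- `x` survives head `k` -/
def alive (N : ℕ) (k : ZMod 3) (x : Crd N) : Prop := x (k + 1) = x (k + 2) + 1 ∧ x (k + 2) ≠ -1

instance (k : ZMod 3) (x : Crd N) : Decidable (alive N k x) := instDecidableAnd

/-- the subgroup of head `k` -/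
def KK (k : ZMod 3) : Subgroup (Lamp F N) where
  carrier := {p | (∀ i, i ≠ k → p.a i = 0) ∧ ∀ x, alive N k x → p.e x = 1}
  mul_mem' {p q} hp hq := by
    simp only [Set.mem_setOf_eq] at *
    refine ⟨fun i hi => by rw [mul_a, Pi.add_apply, hp.1 i hi, hq.1 i hi, add_zero],
      fun x hx => ?_⟩
    have h1 : k + 1 ≠ k := by
      intro h; exact absurd (by simpa using h : (1 : ZMod 3) = 0) (by decide)
    have h2 : k + 2 ≠ k := by
      intro h; exact absurd (by simpa using h : (2 : ZMod 3) = 0) (by decide)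
    rw [mul_e, hp.2 x hx, one_mul]
    refine hq.2 _ ?_
    simp only [alive, Pi.sub_apply, hp.1 _ h1, hp.1 _ h2, sub_zero] at *
    exact hx
  one_mem' := ⟨fun _ _ => rfl, fun _ _ => rfl⟩
  inv_mem' {p} hp := by
    simp only [Set.mem_setOf_eq] at *
    refine ⟨fun i hi => by rw [inv_a, Pi.neg_apply, hp.1 i hi, neg_zero], fun x hx => ?_⟩
    have h1 : k + 1 ≠ k := by
      intro h; exact absurd (by simpa using h : (1 : ZMod 3) = 0) (by decide)
    have h2 : k + 2 ≠ k := by
      intro h; exact absurd (by simpa using h : (2 : ZMod 3) = 0) (by decide)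
    rw [inv_e, hp.2, inv_one]
    simp only [alive, Pi.add_apply, hp.1 _ h1, hp.1 _ h2, add_zero] at *
    exact hx

end Lamp

end Pool.Agent.D0H96
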