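import Pool.Agent.D0H96.Lamp

/-! Generators of the three subgroups of the lamp group. -/

set_option linter.unusedSectionVars false

namespace Pool.Agent.D0H96

open Matrix Finset
open scoped commutatorElement

namespace Lamp

variable {F : Type} [Group F] {N : ℕ}

/-- the three slices -/
def slice (k : ZMod 3) : Fin 3 → Crd N → Prop
  | 0, x => x k = 0
  | 1, x => x k = x (k + 1)
  | 2, x => x k = x (k + 2)

instance (k : ZMod 3) (j : Fin 3) (x : Crd N) : Decidable (slice k j x) := by
  unfold slice; split <;> infer_instance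

variable (F) in
/-- labels of the generators of one head -/
abbrev Lbl : Type := Bool ⊕ (Fin 3 × {u : F // u ≠ 1})

/-- the function used by a slice generator -/
def sl (N : ℕ) (k : ZMod 3) (j : Fin 3) (u : F) : Crd N → F :=
  fun x => if ¬ alive N k x ∧ slice k j x then u else 1

/-- the generators of head `k` -/
def gen (k : ZMod 3) : Lbl F → Lamp F N
  | Sum.inl true => sh (Pi.single k 1)
  | Sum.inl false => sh (Pi.single k (-1))
  | Sum.inr (j, u) => fn (sl N k j u.1)

theorem k1_ne (k : ZMod 3) : k + 1 ≠ k := by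
  intro h; exact absurd (by simp at h : (1 : ZMod 3) = 0) (by decide)

theorem k2_ne (k : ZMod 3) : k + 2 ≠ k := by
  intro h; exact absurd (by simpa using h : (2 : ZMod 3) = 0) (by decide)

theorem k12_ne (k : ZMod 3) : k + 1 ≠ k + 2 := by
  intro h; exact absurd (by simpa using h : (1 : ZMod 3) = 2) (by decide)

theorem cases3 (i k : ZMod 3) : i = k ∨ i = k + 1 ∨ i = k + 2 := by
  revert i k; decide

theorem two_ne : (2 : ZMod 3) ≠ 0 := by decide

theorem alive_shift (k : ZMod 3) (c : ZMod N) (x : Crd N) :
    alive N k (x - Pi.single k c) ↔ alive N k x := by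
  simp [alive, Pi.single_apply, two_ne]

theorem alive_shift' (k : ZMod 3) (c : ZMod N) (x : Crd N) :
    alive N k (x + Pi.single k c) ↔ alive N k x := by
  simp [alive, Pi.single_apply, two_ne]

theorem gen_mem (k : ZMod 3) (l : Lbl F) : gen (N := N) k l ∈ KK F N k := by
  rcases l with (_ | _) | ⟨j, u⟩
  · exact ⟨fun i hi => by simp [gen, sh, hi], fun x _ => rfl⟩
  · exact ⟨fun i hi => by simp [gen, sh, hi], fun x _ => rfl⟩
  · refine ⟨fun i _ => rfl, fun x hx => ?_⟩
    simp [gen, fn, sl, hx]

open Classical in
/-- indicator type functions -/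
noncomputable def pt (B : Set (Crd N)) : F →* (Crd N → F) where
  toFun u := fun x => if x ∈ B then u else 1
  map_one' := by funext x; simp
  map_mul' u v := by
    funext x
    simp only [Pi.mul_apply]
    split_ifs <;> simp

theorem pt_apply (B : Set (Crd N)) (u : F) (x : Crd N) [Decidable (x ∈ B)] :
    pt B u x = if x ∈ B then u else 1 := by
  simp only [pt, MonoidHom.coe_mk, OneHom.coe_mk]
  congr

theorem pt_comm (B₁ B₂ : Set (Crd N)) (u v : F) :
    ⁅pt B₁ u, pt B₂ v⁆ = pt (B₁ ∩ B₂) ⁅u, v⁆ := by
  classical
  funext x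
  simp only [commutatorElement_def, Pi.mul_apply, Pi.inv_apply, pt_apply, Set.mem_inter_iff]
  by_cases h1 : x ∈ B₁ <;> by_cases h2 : x ∈ B₂ <;> simp [h1, h2]

/-- all functions with one value on `B` are in `C` -/
def Good (C : Subgroup (Lamp F N)) (B : Set (Crd N)) : Prop := ∀ u : F, fn (pt B u) ∈ C

theorem Good.inter (hF : commutator F = ⊤) {C : Subgroup (Lamp F N)} {B₁ B₂ : Set (Crd N)}
    (h₁ : Good C B₁) (h₂ : Good C B₂) : Good C (B₁ ∩ B₂) := by
  have key : commutator F ≤ C.comap (fnHom.comp (pt (B₁ ∩ B₂))) := by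
    rw [commutator_eq_closure, Subgroup.closure_le]
    rintro z ⟨u, v, rfl⟩
    show fn (pt (B₁ ∩ B₂) ⁅u, v⁆) ∈ C
    rw [← pt_comm]
    have : fn ⁅pt B₁ u, pt B₂ v⁆ = ⁅fn (N := N) (pt B₁ u), fn (pt B₂ v)⁆ :=
      map_commutatorElement fnHom _ _
    rw [this, commutatorElement_def]
    exact C.mul_mem (C.mul_mem (C.mul_mem (h₁ u) (h₂ v)) (C.inv_mem (h₁ u))) (C.inv_mem (h₂ v))
  intro u
  have : u ∈ commutator F := by rw [hF]; trivial
  exact key this

variable [Fintype F] [DecidableEq F] [NeZero N]

theorem sh_mem_closure (k : ZMod 3) (c : ZMod N) :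
    sh (Pi.single k c) ∈ Subgroup.closure (Set.range (gen (F := F) (N := N) k)) := by
  have h1 : ∀ v : ℕ, (sh (Pi.single k 1) : Lamp F N) ^ v = sh (Pi.single k (v : ZMod N)) := by
    intro v
    induction v with
    | zero => rw [pow_zero, Nat.cast_zero, Pi.single_zero, sh_zero]
    | succ v ih => rw [pow_succ, ih, sh_mul, ← Pi.single_add, Nat.cast_succ]
  have h2 : (sh (Pi.single k 1) : Lamp F N) ∈ Subgroup.closure (Set.range (gen (F := F) (N := N) k)) :=
    Subgroup.subset_closure ⟨Sum.inl true, rfl⟩
  have h3 := Subgroup.pow_mem _ h2 c.val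
  rw [h1, ZMod.natCast_zmod_val] at h3
  exact h3

/-- the closure of the generators of head `k` -/
theorem closure_gen (hF : commutator F = ⊤) (k : ZMod 3) :
    Subgroup.closure (Set.range (gen (F := F) (N := N) k)) = KK F N k := by
  classical
  set C := Subgroup.closure (Set.range (gen (F := F) (N := N) k)) with hC
  refine le_antisymm ?_ ?_
  · rw [hC, Subgroup.closure_le]
    rintro _ ⟨l, rfl⟩
    exact gen_mem k l
  · -- shifted slices
    have hslice : ∀ (j : Fin 3) (c : ZMod N),
        Good C {x : Crd N | ¬ alive N k x ∧ slice k j (x - Pi.single k c)} := by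
      intro j c u
      by_cases hu : u = 1
      · rw [hu, map_one]; exact C.one_mem
      have h1 : fn (sl N k j u) ∈ C := Subgroup.subset_closure ⟨Sum.inr (j, ⟨u, hu⟩), rfl⟩
      have h2 : sh (Pi.single k c) * fn (sl N k j u) * sh (-Pi.single k c) ∈ C := by
        refine C.mul_mem (C.mul_mem (sh_mem_closure k c) h1) ?_
        rw [← Pi.single_neg]
        exact sh_mem_closure k (-c)
      rw [sh_conj] at h2
      convert h2 using 2
      funext x
      rw [pt_apply]
      simp only [sl, alive_shift, Set.mem_setOf_eq]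
    -- points
    have hpoint : ∀ z : Crd N, ¬ alive N k z → Good C {z} := by
      intro z hz
      have h := ((hslice 0 (z k)).inter hF (hslice 1 (z k - z (k + 1)))).inter hF
        (hslice 2 (z k - z (k + 2)))
      convert h
      ext x
      simp only [Set.mem_singleton_iff, Set.mem_inter_iff, Set.mem_setOf_eq, slice, Pi.sub_apply,
        Pi.single_eq_same]
      constructor
      · rintro rfl
        simp [hz, Pi.single_apply, two_ne]
      · rintro ⟨⟨⟨_, h0⟩, _, h1⟩, _, h2⟩
        have hk : x k = z k := sub_eq_zero.1 h0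
        simp only [Pi.single_apply, k1_ne, k2_ne, if_false, sub_zero] at h1 h2
        have hk1 : x (k + 1) = z (k + 1) := by rw [← h1, hk]; ring
        have hk2 : x (k + 2) = z (k + 2) := by rw [← h2, hk]; ring
        funext i
        have hi : i = k ∨ i = k + 1 ∨ i = k + 2 := cases3 i k
        rcases hi with rfl | rfl | rfl
        · exact hk
        · exact hk1
        · exact hk2
    intro p hp
    rw [← fn_mul_sh p]
    refine C.mul_mem ?_ ?_
    · have : p.e ∈ C.comap fnHom := by
        refine Subgroup.pi_mem_of_mulSingle_mem _ fun z => ?_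
        by_cases hz : alive N k z
        · rw [hp.2 z hz, Pi.mulSingle_one]; exact Subgroup.one_mem _
        · have := hpoint z hz (p.e z)
          show fn (Pi.mulSingle z (p.e z)) ∈ C
          convert this using 2
          funext x
          rw [pt_apply]
          simp only [Pi.mulSingle_apply, Set.mem_singleton_iff]
      exact this
    · have : p.a = Pi.single k (p.a k) := by
        funext i
        by_cases hi : i = k
        · subst hi; simp
        · rw [hp.1 i hi, Pi.single_eq_of_ne hi]
      rw [this]
      exact sh_mem_closure k _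

end Lamp

end Pool.Agent.D0H96
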