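import Pool.Agent.D0H96.LampWords

/-! Words of long range are the total average; contraction of short words. -/

set_option linter.unusedSectionVars false

namespace Pool.Agent.D0H96

open Matrix Finset

namespace Lamp

variable {F : Type} [Group F] [Fintype F] [DecidableEq F] {N : ℕ} [NeZero N]

/-- `M` only sees the coordinates in `Z` -/
def Meas (Z : Set (Crd N)) (M : Matrix (Lamp F N) (Lamp F N) ℝ) : Prop :=
  ∀ l ∈ Off F N Z, tr l * M = M

/-- transported set -/
def nextZ (k : ZMod 3) (Z : Set (Crd N)) : Set (Crd N) :=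
  {x | alive N k x ∧ ∃ c : ZMod N, x + Pi.single k c ∈ Z}

theorem Meas.mono {Z Z' : Set (Crd N)} {M : Matrix (Lamp F N) (Lamp F N) ℝ} (h : Meas Z M)
    (hZ : Z ⊆ Z') : Meas Z' M := fun l hl => h l ⟨hl.1, fun x hx => hl.2 x (hZ hx)⟩

theorem Meas.step {Z : Set (Crd N)} {M : Matrix (Lamp F N) (Lamp F N) ℝ} (h : Meas Z M)
    (k : ZMod 3) : Meas (nextZ k Z) (EE F N k * M) := by
  intro l hl
  set g1 : Crd N → F := fun x => if alive N k x then 1 else l.e x with hg1
  set g2 : Crd N → F := fun x => if alive N k x then l.e x else 1 with hg2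
  have hl1 : l = fn g2 * fn g1 := by
    rw [fn_mul]
    ext x
    · simp only [fn, hg1, hg2, Pi.mul_apply]
      split_ifs <;> simp
    · simp only [fn]
      have : l.a = 0 := hl.1
      rw [this]
  have h1 : tr (fn g1) * (EE F N k * M) = EE F N k * M := by
    rw [← mul_assoc]; congr 1
    refine tr_mul_av _ ⟨fun _ _ => rfl, fun x hx => ?_⟩
    simp [fn, hg1, hx]
  have h2 : tr (fn g2) * (EE F N k * M) = EE F N k * M := by
    rw [EE, av]
    rw [Matrix.smul_mul, Matrix.sum_mul, Matrix.mul_smul, Matrix.mul_sum]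
    congr 1
    refine Finset.sum_congr rfl fun p _ => ?_
    have hp := p.2
    have h3 : (p : Lamp F N)⁻¹ * fn g2 * p ∈ Off F N Z := by
      refine ⟨?_, fun x hx => ?_⟩
      · show ((p : Lamp F N)⁻¹ * fn g2 * p).a = 0
        rw [mul_a, mul_a, inv_a]
        show -(p : Lamp F N).a + 0 + (p : Lamp F N).a = 0
        rw [add_zero, neg_add_cancel]
      · rw [mul_e, mul_e, mul_a, inv_e, inv_a]
        have h4 : g2 (x - -(p : Lamp F N).a) = 1 := by
          rw [sub_neg_eq_add, hg2]
          show (if alive N k (x + (p : Lamp F N).a) then l.e (x + (p : Lamp F N).a) else 1) = 1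
          split_ifs with ha
          · refine hl.2 _ ⟨ha, -(p : Lamp F N).a k, ?_⟩
            have h5 : (p : Lamp F N).a = Pi.single k ((p : Lamp F N).a k) := by
              funext i
              by_cases hi : i = k
              · subst hi; simp
              · rw [hp.1 i hi, Pi.single_eq_of_ne hi]
            rw [h5]
            simp only [Pi.single_eq_same, Pi.single_neg]
            rw [add_neg_cancel_right]
            exact hx
          · rfl
        show ((p : Lamp F N).e (x + (p : Lamp F N).a))⁻¹ * g2 (x - -(p : Lamp F N).a) *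
          (p : Lamp F N).e (x - (-(p : Lamp F N).a + 0)) = 1
        rw [h4, mul_one, add_zero, sub_neg_eq_add, inv_mul_cancel]
    have h6 := h _ h3
    rw [← mul_assoc, tr_mul]
    conv_rhs => rw [← h6, ← mul_assoc, tr_mul]
    congr 2
    group
  rw [hl1, ← tr_mul, mul_assoc, h1, h2]

/-- the set seen by a word -/
def Zset : List ℤ → Set (Crd N)
  | [] => Set.univ
  | j :: js => nextZ (j : ZMod 3) (Zset js)

theorem word_meas (js : List ℤ) : Meas (Zset (N := N) js) (word F N js) := by
  induction js with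
  | nil =>
    intro l hl
    have : l = 1 := by
      ext x
      · exact hl.2 x trivial
      · have : l.a = 0 := hl.1
        rw [this]; rfl
    rw [this, word_nil, mul_one]
    refine mulVec_ext fun f => ?_
    rw [tr_mulVec, Matrix.one_mulVec]
    funext q; rw [mul_one]
  | cons j js ih =>
    rw [word_cons]
    exact ih.step _

theorem z3a (k : ZMod 3) : k + 1 + 1 = k + 2 := by revert k; decide
theorem z3b (k : ZMod 3) : k + 1 + 2 = k := by revert k; decide
theorem z3c (k : ZMod 3) : k + 2 + 1 = k := by revert k; decide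
theorem z3d (k : ZMod 3) : k + 2 + 2 = k + 1 := by revert k; decide

theorem val_succ (hN : 2 ≤ N) {z : ZMod N} (hz : z ≠ -1) : (z + 1).val = z.val + 1 := by
  have h1 : (1 : ZMod N).val = 1 := by
    have : Fact (1 < N) := ⟨by omega⟩
    exact ZMod.val_one N
  have h2 : z.val + 1 < N := by
    have h3 := ZMod.val_lt z
    rcases Nat.lt_or_ge (z.val + 1) N with h | h
    · exact h
    · exfalso
      apply hz
      have h4 : z.val + 1 = N := by omega
      have h5 : ((z.val + 1 : ℕ) : ZMod N) = 0 := by rw [h4]; simp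
      rw [Nat.cast_add, ZMod.natCast_zmod_val, Nat.cast_one] at h5
      exact eq_neg_of_add_eq_zero_left h5
  rw [ZMod.val_add, h1, Nat.mod_eq_of_lt h2]

theorem lev_fwd (hN : 2 ≤ N) {k : ZMod 3} {x : Crd N} {c : ZMod N}
    (hx' : alive N (k + 1) (x + Pi.single k c)) :
    (x (k + 2)).val = ((x + Pi.single k c : Crd N) (k + 1 + 2)).val + 1 := by
  obtain ⟨h1, h2⟩ := hx'
  rw [← val_succ hN h2, ← h1, z3a]
  congr 1
  simp [Pi.single_apply, two_ne]

theorem lev_bwd (hN : 2 ≤ N) {k : ZMod 3} {x : Crd N} {c : ZMod N} (hx : alive N k x) :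
    ((x + Pi.single k c : Crd N) (k + 2 + 2)).val = (x (k + 2)).val + 1 := by
  obtain ⟨h1, h2⟩ := hx
  rw [← val_succ hN h2, ← h1, z3d]
  congr 1
  simp [Pi.single_apply]

/-- a path on the integers -/
def Chn (js : List ℤ) : Prop := List.IsChain (fun a b => b = a + 1 ∨ b = a - 1) js

theorem cast_add_one (j : ℤ) : (((j + 1 : ℤ)) : ZMod 3) = (j : ZMod 3) + 1 := by push_cast; ring

theorem cast_sub_one (j : ℤ) : (((j - 1 : ℤ)) : ZMod 3) = (j : ZMod 3) + 2 := by
  push_cast
  rw [sub_eq_add_neg]; congr 1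

theorem Zset_lev (hN : 2 ≤ N) : ∀ (js : List ℤ) (j : ℤ), Chn (j :: js) →
    ∀ x ∈ Zset (N := N) (j :: js), ∀ i ∈ j :: js,
      0 ≤ ((x ((j : ZMod 3) + 2)).val : ℤ) + j - i ∧
      ((x ((j : ZMod 3) + 2)).val : ℤ) + j - i ≤ N - 2 := by
  intro js
  induction js with
  | nil =>
    intro j _ x hx i hi
    rw [List.mem_singleton] at hi
    subst hi
    obtain ⟨⟨_, h2⟩, _⟩ := hx
    have h3 := val_succ hN h2
    have h4 := ZMod.val_lt (x ((i : ZMod 3) + 2) + 1)
    omega
  | cons j' js ih =>
    intro j hch x hx i hi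
    obtain ⟨hal, c, hc⟩ := hx
    have hch' : Chn (j' :: js) := (List.isChain_cons_cons.1 hch).2
    have hjj : j' = j + 1 ∨ j' = j - 1 := (List.isChain_cons_cons.1 hch).1
    have h1 := ih j' hch' _ hc
    have hal' : alive N (j' : ZMod 3) (x + Pi.single (j : ZMod 3) c) := hc.1
    have hlev : ((((x + Pi.single (j : ZMod 3) c : Crd N) ((j' : ZMod 3) + 2)).val : ℤ) + j')
        = ((x ((j : ZMod 3) + 2)).val : ℤ) + j := by
      rcases hjj with h | h
      · subst h
        rw [cast_add_one] at hal' ⊢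
        have := lev_fwd hN hal'
        rw [this]; push_cast; ring
      · subst h
        rw [cast_sub_one] at hal' ⊢
        have := lev_bwd hN (c := c) hal
        rw [this]; push_cast; ring
    rcases List.mem_cons.1 hi with rfl | hi
    · have h2 := h1 j' (List.mem_cons_self)
      have h5 := hal.2
      have h6 := val_succ hN h5
      have h7 := ZMod.val_lt (x ((i : ZMod 3) + 2) + 1)
      omega
    · have h2 := h1 i hi
      rw [hlev] at h2
      exact h2

/-- a word of range at least `N - 1` is the total average -/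
theorem word_long (hN : 2 ≤ N) (js : List ℤ) (hch : Chn js)
    (hall : ∀ k : ZMod 3, ∃ j ∈ js, ((j : ℤ) : ZMod 3) = k)
    (hr : ∃ a ∈ js, ∃ c ∈ js, (N : ℤ) - 1 ≤ c - a) : word F N js = av ⊤ := by
  have hempty : Zset (N := N) js = ∅ := by
    rw [Set.eq_empty_iff_forall_notMem]
    intro x hx
    obtain ⟨a, ha, c, hc, hac⟩ := hr
    cases js with
    | nil => simp at ha
    | cons j js =>
      have h1 := Zset_lev hN js j hch x hx a ha
      have h2 := Zset_lev hN js j hch x hx c hc
      omega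
  have hm := word_meas (F := F) (N := N) js
  rw [hempty] at hm
  have h1 : AA F N * word F N js = word F N js :=
    av_mul_of fun l hl => hm l ⟨hl, fun x hx => absurd hx (Set.notMem_empty x)⟩
  rw [← h1, ← wordA_comm, wordA_eq js hall]

variable (F N) in
/-- shifts along `k` -/
def CC (k : ZMod 3) : Subgroup (Lamp F N) where
  carrier := {p | ∃ c : ZMod N, p = sh (Pi.single k c)}
  mul_mem' := by
    rintro _ _ ⟨c, rfl⟩ ⟨d, rfl⟩
    exact ⟨c + d, by rw [sh_mul, ← Pi.single_add]⟩
  one_mem' := ⟨0, by rw [Pi.single_zero, sh_zero]⟩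
  inv_mem' := by
    rintro _ ⟨c, rfl⟩
    refine ⟨-c, ?_⟩
    rw [inv_eq_iff_mul_eq_one, sh_mul, ← Pi.single_add, add_neg_cancel, Pi.single_zero, sh_zero]

theorem CC_le (k : ZMod 3) : CC F N k ≤ KK F N k := by
  rintro _ ⟨c, rfl⟩
  exact sh_mem_KK fun i hi => by simp [hi]

theorem card_CC (k : ZMod 3) : (N : ℝ) ≤ Fintype.card (CC F N k) := by
  have h : Fintype.card (ZMod N) ≤ Fintype.card (CC F N k) := by
    refine Fintype.card_le_of_injective
      (fun c => (⟨sh (Pi.single k c), c, rfl⟩ : CC F N k)) fun c d hcd => ?_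
    have h1 : (sh (Pi.single k c) : Lamp F N) = sh (Pi.single k d) := congrArg Subtype.val hcd
    have h2 : (Pi.single k c : Crd N) = Pi.single k d := congrArg Lamp.a h1
    have h3 := congrFun h2 k
    simpa using h3
  rw [ZMod.card] at h
  exact_mod_cast h

theorem off_mul {Z₁ Z₂ : Set (Crd N)} (hZ : Z₁ ∩ Z₂ = ∅) :
    av (Off F N Z₂) * av (Off F N Z₁) = AA F N := by
  classical
  have hcomm : av (Off F N Z₂) * av (Off F N Z₁) = av (Off F N Z₁) * av (Off F N Z₂) := by
    refine av_comm fun p hp l hl => ⟨?_, fun x hx => ?_⟩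
    · show (p * l * p⁻¹).a = 0
      rw [mul_a, mul_a, inv_a, hp.1, hl.1]; simp
    · rw [mul_e, mul_e, mul_a, inv_e, hp.1, hl.1]
      simp only [sub_zero, add_zero]
      rw [hl.2 x hx]; simp
  refine eq_av_of ?_ ?_
  · intro p hp
    have hpa : p.a = 0 := hp
    have h1 : p = fn (fun x => if x ∈ Z₂ then 1 else p.e x) *
        fn (fun x => if x ∈ Z₂ then p.e x else 1) := by
      rw [fn_mul]
      ext x
      · simp only [fn, Pi.mul_apply]; split_ifs <;> simp
      · simp only [fn]; rw [hpa]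
    have h2 : tr (fn (fun x => if x ∈ Z₂ then p.e x else 1)) *
        (av (Off F N Z₂) * av (Off F N Z₁)) = av (Off F N Z₂) * av (Off F N Z₁) := by
      rw [hcomm, ← mul_assoc]; congr 1
      refine tr_mul_av _ ⟨rfl, fun x hx => ?_⟩
      have : x ∉ Z₂ := fun h => by
        have : x ∈ Z₁ ∩ Z₂ := ⟨hx, h⟩
        rw [hZ] at this; exact this
      simp [fn, this]
    have h3 : tr (fn (fun x => if x ∈ Z₂ then 1 else p.e x)) *
        (av (Off F N Z₂) * av (Off F N Z₁)) = av (Off F N Z₂) * av (Off F N Z₁) := by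
      rw [← mul_assoc]; congr 1
      refine tr_mul_av _ ⟨rfl, fun x hx => ?_⟩
      simp [fn, hx]
    rw [h1, ← tr_mul, mul_assoc, h2, h3]
  · rw [← mul_assoc]
    rw [av_mul_av_of_le (show Off F N Z₂ ≤ LL F N from fun p hp => hp.1),
      av_mul_av_of_le (show Off F N Z₁ ≤ LL F N from fun p hp => hp.1)]

/-- vector version of measurability -/
theorem orth {Z₁ Z₂ : Set (Crd N)} (hZ : Z₁ ∩ Z₂ = ∅) {f g : Lamp F N → ℝ}
    (hf : ∀ l ∈ Off F N Z₁, ∀ q, f (q * l) = f q) (hg : ∀ l ∈ Off F N Z₂, ∀ q, g (q * l) = g q)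
    (hA : AA F N *ᵥ f = 0) : ∑ q, f q * g q = 0 := by
  have h1 : av (Off F N Z₂) *ᵥ g = g := av_fix _ hg
  have h2 : av (Off F N Z₁) *ᵥ f = f := av_fix _ hf
  have h3 : av (Off F N Z₂) *ᵥ f = 0 := by
    rw [← h2, Matrix.mulVec_mulVec, off_mul hZ, hA]
  calc ∑ q, f q * g q = ∑ q, f q * (av (Off F N Z₂) *ᵥ g) q := by rw [h1]
    _ = ∑ q, (av (Off F N Z₂) *ᵥ f) q * g q := (av_adj _ _ _).symm
    _ = 0 := by rw [h3]; simp

/-- two different heads contract -/
theorem two_heads {k k' : ZMod 3} (hk : k' ≠ k) {φ : Lamp F N → ℝ} (hφ : AA F N *ᵥ φ = 0) :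
    nrm (EE F N k' *ᵥ (EE F N k *ᵥ φ)) ≤ (1 / Real.sqrt N) * nrm φ := by
  set ψ := EE F N k *ᵥ φ with hψ
  have hψ1 : nrm ψ ≤ nrm φ := by
    have := DS_Bd (av_mem (KK F N k)) φ; rwa [one_mul] at this
  have hAψ : AA F N *ᵥ ψ = 0 := by
    rw [hψ, Matrix.mulVec_mulVec, ← EA_comm, ← Matrix.mulVec_mulVec, hφ, Matrix.mulVec_zero]
  have hmeas : ∀ l ∈ Off F N {x | alive N k x}, ∀ q, ψ (q * l) = ψ q := by
    have h0 : Meas (F := F) (Set.univ : Set (Crd N)) 1 := word_meas []
    have h1 := h0.step k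
    rw [mul_one] at h1
    have h2 : Meas {x : Crd N | alive N k x} (EE F N k) := h1.mono fun x hx => hx.1
    intro l hl q
    have h3 := h2 l hl
    have h4 : (tr l * EE F N k) *ᵥ φ = ψ := by rw [h3]
    rw [← Matrix.mulVec_mulVec, tr_mulVec] at h4
    exact congrFun h4 q
  clear_value ψ
  -- reduce to shifts
  have hred : nrm (EE F N k' *ᵥ ψ) ≤ nrm (av (CC F N k') *ᵥ ψ) := by
    have h1 : EE F N k' *ᵥ ψ = EE F N k' *ᵥ (av (CC F N k') *ᵥ ψ) := by
      rw [Matrix.mulVec_mulVec, EE, av_mul_av_of_le (CC_le k')]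
    rw [h1]
    have := DS_Bd (av_mem (KK F N k')) (av (CC F N k') *ᵥ ψ); rwa [one_mul] at this
  have hcross : ∀ h : CC F N k', (h : Lamp F N) ≠ 1 → ∑ q, ψ q * ψ (q * h) = 0 := by
    rintro ⟨_, c, rfl⟩ hne
    have hc : c ≠ 0 := by
      rintro rfl
      exact hne (by simp [sh_zero])
    refine orth (Z₁ := {x | alive N k x}) (Z₂ := {x | alive N k (x - Pi.single k' c)}) ?_ hmeas
      ?_ hAψ
    · rw [Set.eq_empty_iff_forall_notMem]
      rintro x ⟨hx1, hx2⟩
      have h1 : x (k + 1) = x (k + 2) + 1 := hx1.1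
      have h2 : (x - Pi.single k' c : Crd N) (k + 1) = (x - Pi.single k' c : Crd N) (k + 2) + 1 :=
        hx2.1
      rcases cases3 k' k with h | h | h
      · exact hk h
      · subst h
        simp only [Pi.sub_apply, Pi.single_apply, if_true, (k12_ne k).symm, if_false] at h2
        rw [h1] at h2
        apply hc
        have : x (k + 2) + 1 - c = x (k + 2) + 1 - 0 := by rw [h2]; ring
        simpa using this
      · subst h
        simp only [Pi.sub_apply, Pi.single_apply, if_true, k12_ne k, if_false] at h2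
        rw [h1] at h2
        apply hc
        have : x (k + 2) + 1 - 0 = x (k + 2) + 1 - c := by rw [h2]; ring
        simpa using this.symm
    · intro l hl q
      have h1 : (sh (Pi.single k' c) : Lamp F N)⁻¹ * l * sh (Pi.single k' c) ∈
          Off F N {x | alive N k x} := by
        refine ⟨?_, fun x hx => ?_⟩
        · show ((sh (Pi.single k' c) : Lamp F N)⁻¹ * l * sh (Pi.single k' c)).a = 0
          rw [mul_a, mul_a, inv_a, hl.1]
          simp [sh]
        · rw [mul_e, mul_e, inv_e, inv_a]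
          have h2 : l.e (x - -(sh (F := F) (Pi.single k' c)).a) = 1 := by
            rw [sub_neg_eq_add]
            refine hl.2 _ ?_
            show alive N k (x + (sh (F := F) (Pi.single k' c)).a - Pi.single k' c)
            have : x + (sh (F := F) (Pi.single k' c)).a - Pi.single k' c = x := by
              show x + Pi.single k' c - Pi.single k' c = x
              exact add_sub_cancel_right _ _
            rw [this]; exact hx
          rw [h2]
          simp [sh]
      have h3 := hmeas _ h1 (q * sh (Pi.single k' c))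
      show ψ (q * l * sh (Pi.single k' c)) = ψ (q * sh (Pi.single k' c))
      rw [← h3]
      congr 1
      group
  have hsq : nrm (av (CC F N k') *ᵥ ψ) ^ 2 = (Fintype.card (CC F N k') : ℝ)⁻¹ * nrm ψ ^ 2 := by
    have h1 : nrm (av (CC F N k') *ᵥ ψ) ^ 2 = ∑ q, ψ q * (av (CC F N k') *ᵥ ψ) q := by
      rw [nrm_sq]
      have h2 := av_adj (CC F N k') ψ (av (CC F N k') *ᵥ ψ)
      rw [Matrix.mulVec_mulVec, av_idem] at h2
      rw [← h2]
      exact Finset.sum_congr rfl fun q _ => by ring
    rw [h1]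
    simp only [av_apply, mul_left_comm (ψ _), ← Finset.mul_sum]
    congr 1
    simp only [Finset.mul_sum]
    rw [Finset.sum_comm, Finset.sum_eq_single (1 : CC F N k')]
    · rw [nrm_sq]
      refine Finset.sum_congr rfl fun q _ => ?_
      simp only [OneMemClass.coe_one, mul_one]; ring
    · intro h _ hh
      exact hcross h fun hc => hh (Subtype.ext hc)
    · simp
  have hN : (0 : ℝ) < N := Nat.cast_pos.2 (Nat.pos_of_ne_zero (NeZero.ne N))
  have hle : nrm (av (CC F N k') *ᵥ ψ) ≤ (1 / Real.sqrt N) * nrm ψ := by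
    refine abs_le_of_sq_le_sq' ?_ (mul_nonneg (by positivity) (nrm_nonneg _)) |>.2
    rw [hsq, mul_pow, div_pow, one_pow, Real.sq_sqrt hN.le, one_div]
    refine mul_le_mul_of_nonneg_right ?_ (sq_nonneg _)
    exact inv_anti₀ hN (card_CC k')
  exact hred.trans (hle.trans (mul_le_mul_of_nonneg_left hψ1 (by positivity)))

theorem word_mem (js : List ℤ) : word F N js ∈ doublyStochastic ℝ (Lamp F N) := by
  induction js with
  | nil => rw [word_nil]; exact one_mem _
  | cons j js ih => rw [word_cons]; exact mul_mem (av_mem _) ih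

/-- a word with all three types contracts by `N^{-1/2}` -/
theorem word_short (js : List ℤ) (hch : Chn js)
    (hall : ∀ k : ZMod 3, ∃ j ∈ js, ((j : ℤ) : ZMod 3) = k) :
    Bd0 (word F N js) (1 / Real.sqrt N) := by
  intro f hf
  have h1 : word F N js *ᵥ f = word F N js *ᵥ (f - AA F N *ᵥ f) := by
    have h2 : word F N js *ᵥ (AA F N *ᵥ f) = 0 := by
      rw [Matrix.mulVec_mulVec, wordA_eq js hall, mean_zero_av_top hf]
    rw [Matrix.mulVec_sub, h2, sub_zero]
  have hφ : AA F N *ᵥ (f - AA F N *ᵥ f) = 0 := by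
    rw [Matrix.mulVec_sub, Matrix.mulVec_mulVec, A_idem, sub_self]
  have hle : nrm (f - AA F N *ᵥ f) ≤ nrm f := nrm_sub_av_le _ f
  rw [h1]
  generalize f - AA F N *ᵥ f = φ at hφ hle
  refine le_trans ?_ (mul_le_mul_of_nonneg_left hle (by positivity))
  rcases js with _ | ⟨j, _ | ⟨j', js⟩⟩
  · obtain ⟨i, hi, _⟩ := hall 0
    simp at hi
  · obtain ⟨i, hi, h0⟩ := hall 0
    obtain ⟨i', hi', h1⟩ := hall 1
    rw [List.mem_singleton] at hi hi'
    rw [hi] at h0; rw [hi', h0] at h1
    exact absurd h1 (by decide)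
  · rw [word_cons, word_cons, ← Matrix.mulVec_mulVec, ← Matrix.mulVec_mulVec]
    have hne : ((j : ℤ) : ZMod 3) ≠ ((j' : ℤ) : ZMod 3) := by
      rcases (List.isChain_cons_cons.1 hch).1 with h | h
      · rw [h, cast_add_one]; exact (k1_ne _).symm
      · rw [h, cast_sub_one]; exact (k2_ne _).symm
    have hA : AA F N *ᵥ (word F N js *ᵥ φ) = 0 := by
      rw [Matrix.mulVec_mulVec, ← wordA_comm, ← Matrix.mulVec_mulVec, hφ, Matrix.mulVec_zero]
    refine (two_heads hne hA).trans (mul_le_mul_of_nonneg_left ?_ (by positivity))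
    have := DS_Bd (word_mem (F := F) (N := N) js) φ; rwa [one_mul] at this

end Lamp

end Pool.Agent.D0H96
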