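import Pool.Agent.D0H96.LampGen

/-! Products of the three projections of the lamp group. -/

set_option linter.unusedSectionVars false

namespace Pool.Agent.D0H96

open Matrix Finset

section general

variable {G : Type} [Group G] [Fintype G] [DecidableEq G]

theorem eq_av_of {K : Subgroup G} {M : Matrix G G ℝ} (h1 : ∀ k ∈ K, tr k * M = M)
    (h2 : av K * M = av K) : M = av K := by
  rw [← h2]
  conv_rhs => rw [av.eq_def K]
  rw [Matrix.smul_mul, Matrix.sum_mul]
  rw [Finset.sum_congr rfl fun (k : K) _ => h1 k k.2]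
  exact (avg_const _).symm

theorem av_mul_of {K : Subgroup G} {M : Matrix G G ℝ} (h1 : ∀ k ∈ K, tr k * M = M) :
    av K * M = M := by
  conv_lhs => rw [av.eq_def K]
  rw [Matrix.smul_mul, Matrix.sum_mul]
  rw [Finset.sum_congr rfl fun (k : K) _ => h1 k k.2]
  exact avg_const _

theorem tr_of_av {K : Subgroup G} {M : Matrix G G ℝ} (h : av K * M = M) {k : G} (hk : k ∈ K) :
    tr k * M = M := by
  rw [← h, ← mul_assoc, tr_mul_av K hk]

theorem mean_zero_av_top {f : G → ℝ} (hf : ∑ q, f q = 0) : av (⊤ : Subgroup G) *ᵥ f = 0 := by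
  funext q
  have h1 : ∀ q', (av (⊤ : Subgroup G) *ᵥ f) q' = (av (⊤ : Subgroup G) *ᵥ f) q := fun q' => by
    have := av_inv (⊤ : Subgroup G) f q (k := q⁻¹ * q') trivial
    rwa [mul_inv_cancel_left] at this
  have h2 := DS_sum (av_mem (⊤ : Subgroup G)) f
  rw [hf] at h2
  simp only [h1] at h2
  rw [Finset.sum_const, Finset.card_univ, nsmul_eq_mul] at h2
  rcases mul_eq_zero.1 h2 with h | h
  · exact absurd h (Nat.cast_ne_zero.2 Fintype.card_ne_zero)
  · simpa using h

end general

namespace Lamp

variable {F : Type} [Group F] [Fintype F] [DecidableEq F] {N : ℕ} [NeZero N]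

variable (F N) in
/-- the projection of head `k` -/
noncomputable def EE (k : ZMod 3) : Matrix (Lamp F N) (Lamp F N) ℝ := av (KK F N k)

variable (F N) in
/-- ideal words -/
noncomputable def word (js : List ℤ) : Matrix (Lamp F N) (Lamp F N) ℝ :=
  (js.map fun j : ℤ => EE F N (j : ZMod 3)).prod

theorem word_nil : word F N [] = 1 := rfl
theorem word_cons (j : ℤ) (js : List ℤ) : word F N (j :: js) = EE F N (j : ZMod 3) * word F N js := by
  simp [word]

variable (F N) in
/-- average over the function part -/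
noncomputable def AA : Matrix (Lamp F N) (Lamp F N) ℝ := av (LL F N)

variable (F N) in
/-- elements whose shift is along `k` -/
def KL (k : ZMod 3) : Subgroup (Lamp F N) where
  carrier := {p | ∀ i, i ≠ k → p.a i = 0}
  mul_mem' {p q} hp hq := fun i hi => by
    rw [mul_a, Pi.add_apply, hp i hi, hq i hi, add_zero]
  one_mem' := fun _ _ => rfl
  inv_mem' {p} hp := fun i hi => by
    rw [inv_a, Pi.neg_apply, hp i hi, neg_zero]

theorem EA_comm (k : ZMod 3) : EE F N k * AA F N = AA F N * EE F N k := by
  refine av_comm fun p _ l hl => ?_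
  show (p * l * p⁻¹).a = 0
  have hl' : l.a = 0 := hl
  rw [mul_a, mul_a, inv_a, hl', add_zero, add_neg_cancel]

theorem wordA_comm (js : List ℤ) : word F N js * AA F N = AA F N * word F N js := by
  induction js with
  | nil => rw [word_nil, one_mul, mul_one]
  | cons j js ih => rw [word_cons, mul_assoc, ih, ← mul_assoc, EA_comm, mul_assoc]

theorem sh_mem_KK {k : ZMod 3} {a : Crd N} (ha : ∀ i, i ≠ k → a i = 0) : sh a ∈ KK F N k :=
  ⟨ha, fun _ _ => rfl⟩

theorem EA_eq (k : ZMod 3) : EE F N k * AA F N = av (KL F N k) := by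
  refine eq_av_of ?_ ?_
  · intro p hp
    rw [← fn_mul_sh p, ← tr_mul]
    have h1 : tr (sh p.a) * (EE F N k * AA F N) = EE F N k * AA F N := by
      rw [← mul_assoc]; congr 1
      exact tr_mul_av _ (sh_mem_KK hp)
    have h2 : tr (fn p.e) * (EE F N k * AA F N) = EE F N k * AA F N := by
      rw [EA_comm, ← mul_assoc]; congr 1
      exact tr_mul_av _ rfl
    rw [mul_assoc, h1, h2]
  · rw [← mul_assoc, EE, av_mul_av_of_le (show KK F N k ≤ KL F N k from fun p hp => hp.1), AA,
      av_mul_av_of_le]
    intro p hp i _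
    have : p.a = 0 := hp
    rw [this]; rfl

theorem A_idem : AA F N * AA F N = AA F N := av_idem _

theorem EEA_comm (k k' : ZMod 3) :
    EE F N k * (EE F N k' * AA F N) = EE F N k' * (EE F N k * AA F N) := by
  have h : av (KL F N k) * av (KL F N k') = av (KL F N k') * av (KL F N k) := by
    refine av_comm fun p _ l hl i hi => ?_
    have : l.a i = 0 := hl i hi
    rw [mul_a, mul_a, inv_a]
    simp [this]
  rw [← EA_eq, ← EA_eq] at h
  have e1 : EE F N k * AA F N * (EE F N k' * AA F N) = EE F N k * (EE F N k' * AA F N) := by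
    rw [mul_assoc, ← mul_assoc (AA F N), ← EA_comm, mul_assoc (EE F N k'), A_idem]
  have e2 : EE F N k' * AA F N * (EE F N k * AA F N) = EE F N k' * (EE F N k * AA F N) := by
    rw [mul_assoc, ← mul_assoc (AA F N), ← EA_comm, mul_assoc (EE F N k), A_idem]
  rw [e1, e2] at h
  exact h

theorem E_wordA (js : List ℤ) (k : ZMod 3) (hk : ∃ j ∈ js, ((j : ℤ) : ZMod 3) = k) :
    EE F N k * (word F N js * AA F N) = word F N js * AA F N := by
  induction js with
  | nil => simp at hk
  | cons j js ih =>
    rw [word_cons, mul_assoc]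
    by_cases hj : ((j : ℤ) : ZMod 3) = k
    · rw [hj, ← mul_assoc, EE, av_idem]
    · have hk' : ∃ j ∈ js, ((j : ℤ) : ZMod 3) = k := by
        obtain ⟨i, hi, hik⟩ := hk
        rcases List.mem_cons.1 hi with rfl | hi
        · exact absurd hik hj
        · exact ⟨i, hi, hik⟩
      have hA : word F N js * AA F N = AA F N * (word F N js * AA F N) := by
        rw [← mul_assoc, ← wordA_comm, mul_assoc, A_idem]
      rw [hA, ← mul_assoc (EE F N (j : ZMod 3)), ← mul_assoc, EEA_comm, mul_assoc, mul_assoc, ← hA,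
        ih hk', mul_assoc, ← hA]

theorem wordA_eq (js : List ℤ) (hall : ∀ k : ZMod 3, ∃ j ∈ js, ((j : ℤ) : ZMod 3) = k) :
    word F N js * AA F N = av ⊤ := by
  refine eq_av_of ?_ ?_
  · intro p _
    have hk : ∀ k c, tr (sh (Pi.single k c)) * (word F N js * AA F N) = word F N js * AA F N := by
      intro k c
      refine tr_of_av (E_wordA js k (hall k)) (sh_mem_KK fun i hi => ?_)
      simp [hi]
    have h2 : tr (fn p.e) * (word F N js * AA F N) = word F N js * AA F N := by
      rw [wordA_comm, ← mul_assoc]; congr 1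
      exact tr_mul_av _ rfl
    have h3 : p.a = Pi.single 0 (p.a 0) + Pi.single 1 (p.a 1) + Pi.single 2 (p.a 2) := by
      funext i
      have hi : i = 0 ∨ i = 1 ∨ i = 2 := by revert i; decide
      rcases hi with rfl | rfl | rfl <;>
      simp [Pi.single_apply, show (1 : ZMod 3) ≠ 0 by decide, show (0 : ZMod 3) ≠ 1 by decide,
        show (2 : ZMod 3) ≠ 0 by decide, show (2 : ZMod 3) ≠ 1 by decide,
        show (0 : ZMod 3) ≠ 2 by decide, show (1 : ZMod 3) ≠ 2 by decide]
    rw [← fn_mul_sh p, h3, ← sh_mul, ← sh_mul, ← tr_mul, ← tr_mul, ← tr_mul, mul_assoc, mul_assoc,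
      mul_assoc, hk, hk, hk, h2]
  · rw [← mul_assoc]
    have h1 : ∀ js : List ℤ, av (⊤ : Subgroup (Lamp F N)) * word F N js = av ⊤ := by
      intro js
      induction js with
      | nil => rw [word_nil, mul_one]
      | cons j js ih =>
        rw [word_cons, ← mul_assoc, EE, av_mul_av_of_le le_top, ih]
    rw [h1, AA, av_mul_av_of_le le_top]

end Lamp

end Pool.Agent.D0H96
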