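import Pool.Agent.D0H96.Upper

/-! Lower bound for the total variation distance. -/

set_option linter.unusedSectionVars false

namespace Pool.Agent.D0H96

open Finset Matrix

variable {Q : Type} [Fintype Q] [DecidableEq Q] [Nonempty Q]
variable {w : ℕ} [NeZero w] {θ : ℝ} {R E : ZMod 3 → Matrix Q Q ℝ} {m : ℕ}

/-- data for the lower bound: an observable that survives short words -/
structure Obs (E : ZMod 3 → Matrix Q Q ℝ) (N : ℕ) (H : Q → ℝ) (q0 : Q) (CH : ℝ) : Prop where
  one_le : 1 ≤ CH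
  bound : ∀ q, |H q| ≤ CH
  mean : ∑ q, H q = 0
  surv : ∀ js, Chn js → (∃ hi : ℤ, ∀ i ∈ js, i ≤ hi ∧ hi ≤ i + ((N : ℤ) - 2)) →
    1 / 2 * (1 / N : ℝ) ^ js.length ≤ (wd E js *ᵥ H) q0

/-- potential of the lamp at relative position `z` -/
noncomputable def gY (w : ℕ) (θ u0 : ℝ) (R : ZMod 3 → Matrix Q Q ℝ) (z : ZMod (3 * w))
    (L : List Lab) : ℝ := GG w θ u0 (z.val : ℤ) (fin w θ R (z.val : ℤ) L)

/-- block potential of the lamp at relative position `z` -/
noncomputable def rY (w : ℕ) (θ : ℝ) (R : ZMod 3 → Matrix Q Q ℝ) (z : ZMod (3 * w))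
    (L : List Lab) : ℝ := GR w (z.val : ℤ) (fin w θ R (z.val : ℤ) L)

theorem one_lamp (S : Sys Q R E θ) {N : ℕ} {H : Q → ℝ} {q0 : Q} {CH : ℝ}
    (hO : Obs E N H q0 CH) {u0 : ℝ} (hu : 0 ≤ u0) (hu1 : u0 ≤ 1) {ρ : ℕ}
    (hρ : 2 * (ρ : ℤ) ≤ ((N : ℤ) - 2) * w) (z : ZMod (3 * w)) {L : List Lab}
    (hal : (cur L).Al ρ) (hf : far w (z + ((disp L : ℤ) : ZMod (3 * w)))) :
    1 / 2 * (1 / N : ℝ) ^ (fin w θ R (z.val : ℤ) L).r - 4 * gY w θ u0 R z L * nrm H
      ≤ (Wm w R z L *ᵥ H) q0 := by
  have hInv := fin_inv S (wpos (w := w)) (z.val : ℤ) L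
  have hc : (fin w θ R (z.val : ℤ) L).c = cur L := fin_c L
  have h1 := full_sw S hInv (H)
  rw [full_eY S] at h1
  have hs : (fin w θ R (z.val : ℤ) L).c.s = disp L := by rw [hc, cur_s]
  have h2 := far_err S (wpos (w := w)) hu hu1 hInv (by
    rw [hs]
    push_cast
    rw [ZMod.natCast_zmod_val]
    exact hf)
  have h3 : nrm ((Wm w R z L - wd E (sw (fin w θ R (z.val : ℤ) L))) *ᵥ H)
      ≤ 4 * gY w θ u0 R z L * nrm H :=
    h1.trans (mul_le_mul_of_nonneg_right h2 (nrm_nonneg _))
  have h4 := hO.surv _ (sw_chn hInv) (sw_range wpos hρ hInv (by rw [hc]; exact hal))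
  rw [sw_len hInv] at h4
  have h5 := (abs_le_nrm ((Wm w R z L - wd E (sw (fin w θ R (z.val : ℤ) L))) *ᵥ H) q0).trans h3
  rw [Matrix.sub_mulVec, Pi.sub_apply, abs_le] at h5
  linarith [h5.1]

theorem exp_le_quad {x : ℝ} (hx : |x| ≤ 1) : Real.exp x ≤ 1 + x + x ^ 2 := by
  have := (abs_le.1 (Real.abs_exp_sub_one_sub_id_le hx)).2
  linarith

/-- chain side of the exponential estimate -/
theorem chain_exp (S : Sys Q R E θ) {H : Q → ℝ} {CH lam : ℝ} (hCH : 0 ≤ CH)
    (hb : ∀ q, |H q| ≤ CH) (hl : 0 ≤ lam) (hl1 : lam * CH ≤ 1) (q0 : Q) (L : List Lab) :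
    TL R L (fun p : XX Q w => ∏ Y, (if far w (p.2 - Y) then Real.exp (-(lam * H (p.1 Y))) else 1))
      ((fun _ => q0), 0) ≤
    Real.exp (-(lam * ∑ Y : ZMod (3 * w), (if far w ((0 : ZMod (3 * w)) - Y
      + ((disp L : ℤ) : ZMod (3 * w))) then (Wm w R (0 - Y) L *ᵥ H) q0 else 0))
      + (3 * w) * (lam ^ 2 * CH ^ 2)) := by
  have h1 := TL_prod (R := R) (w := w)
    (fun Y y' q => if far w (y' - Y) then Real.exp (-(lam * H q)) else 1) L (fun _ => q0) 0
  refine (le_of_eq h1).trans ?_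
  have hexp : Real.exp (-(lam * ∑ Y : ZMod (3 * w), (if far w ((0 : ZMod (3 * w)) - Y
      + ((disp L : ℤ) : ZMod (3 * w))) then (Wm w R (0 - Y) L *ᵥ H) q0 else 0))
      + (3 * w) * (lam ^ 2 * CH ^ 2))
      = ∏ Y : ZMod (3 * w), Real.exp (-(lam * (if far w ((0 : ZMod (3 * w)) - Y
      + ((disp L : ℤ) : ZMod (3 * w))) then (Wm w R (0 - Y) L *ᵥ H) q0 else 0))
        + lam ^ 2 * CH ^ 2) := by
    rw [← Real.exp_sum]
    congr 1
    rw [Finset.sum_add_distrib, Finset.sum_neg_distrib, ← Finset.mul_sum, Finset.sum_const,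
      Finset.card_univ, ZMod.card, nsmul_eq_mul]
    push_cast
    ring
  rw [hexp]
  refine Finset.prod_le_prod (fun Y _ => ?_) fun Y _ => ?_
  · have := DS_mono (Wm_mem (w := w) S.hR L (0 - Y)) (f := fun _ => (0 : ℝ))
      (g := fun q => if far w ((0 : ZMod (3 * w)) + ((disp L : ℤ) : ZMod (3 * w)) - Y) then
        Real.exp (-(lam * H q)) else 1) (fun q => by split_ifs <;> positivity) q0
    rwa [DS_const (Wm_mem (w := w) S.hR L (0 - Y))] at this
  · have e1 : (0 : ZMod (3 * w)) + ((disp L : ℤ) : ZMod (3 * w)) - Y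
        = 0 - Y + ((disp L : ℤ) : ZMod (3 * w)) := by ring
    rw [e1]
    have hW := Wm_mem (w := w) S.hR L (0 - Y)
    split_ifs with hf
    · have h2 := DS_mono hW (f := fun q => Real.exp (-(lam * H q)))
        (g := (fun _ => 1 + lam ^ 2 * CH ^ 2) + (-lam) • H) (fun q => by
          have h3 : |-(lam * H q)| ≤ 1 := by
            rw [abs_neg, abs_mul, abs_of_nonneg hl]
            exact (mul_le_mul_of_nonneg_left (hb q) hl).trans hl1
          have h4 := exp_le_quad h3
          have h5 : (-(lam * H q)) ^ 2 ≤ lam ^ 2 * CH ^ 2 := by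
            rw [neg_sq, mul_pow]
            refine mul_le_mul_of_nonneg_left ?_ (sq_nonneg _)
            rw [← sq_abs]; exact pow_le_pow_left₀ (abs_nonneg _) (hb q) 2
          show Real.exp (-(lam * H q)) ≤ 1 + lam ^ 2 * CH ^ 2 + -lam * H q
          linarith) q0
      rw [Matrix.mulVec_add, DS_const hW, Matrix.mulVec_smul] at h2
      simp only [Pi.add_apply, Pi.smul_apply, smul_eq_mul] at h2
      refine h2.trans ?_
      have h6 := Real.add_one_le_exp (-(lam * (Wm w R (0 - Y) L *ᵥ H) q0) + lam ^ 2 * CH ^ 2)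
      linarith
    · rw [DS_const hW, mul_zero, neg_zero, zero_add]
      exact Real.one_le_exp (by positivity)

/-- uniform side of the exponential estimate -/
theorem unif_exp {H : Q → ℝ} {CH lam : ℝ} (hCH : 0 ≤ CH)
    (hb : ∀ q, |H q| ≤ CH) (hmean : ∑ q, H q = 0) (hl : 0 ≤ lam) (hl1 : lam * CH ≤ 1) :
    (∑ p : XX Q w, ∏ Y, (if far w (p.2 - Y) then Real.exp (lam * H (p.1 Y)) else 1))
      / Fintype.card (XX Q w) ≤ Real.exp ((3 * w) * (lam ^ 2 * CH ^ 2)) := by
  have hQ : (0 : ℝ) < Fintype.card Q := Nat.cast_pos.2 Fintype.card_pos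
  have hX : (0 : ℝ) < Fintype.card (XX Q w) := Nat.cast_pos.2 Fintype.card_pos
  rw [div_le_iff₀ hX, Fintype.sum_prod_type, Finset.sum_comm]
  have h1 : ∀ y : ZMod (3 * w), ∑ ξ : Cf Q w,
      ∏ Y, (if far w (y - Y) then Real.exp (lam * H (ξ Y)) else 1)
      ≤ Real.exp ((3 * w) * (lam ^ 2 * CH ^ 2)) * Fintype.card (Cf Q w) := by
    intro y
    have h2 : ∑ ξ : Cf Q w, ∏ Y, (if far w (y - Y) then Real.exp (lam * H (ξ Y)) else 1)
        = ∏ Y : ZMod (3 * w), ∑ q : Q, (if far w (y - Y) then Real.exp (lam * H q) else 1) := by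
      rw [Finset.prod_univ_sum, Fintype.piFinset_univ]
    rw [h2]
    have h3 : ∀ Y : ZMod (3 * w), ∑ q : Q, (if far w (y - Y) then Real.exp (lam * H q) else 1)
        ≤ Real.exp (lam ^ 2 * CH ^ 2) * Fintype.card Q := by
      intro Y
      have hone : 1 ≤ Real.exp (lam ^ 2 * CH ^ 2) := Real.one_le_exp (by positivity)
      split_ifs
      · calc ∑ q : Q, Real.exp (lam * H q) ≤ ∑ q : Q, (1 + lam ^ 2 * CH ^ 2 + lam * H q) := by
              refine Finset.sum_le_sum fun q _ => ?_
              have h3 : |lam * H q| ≤ 1 := by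
                rw [abs_mul, abs_of_nonneg hl]
                exact (mul_le_mul_of_nonneg_left (hb q) hl).trans hl1
              have h4 := exp_le_quad h3
              have h5 : (lam * H q) ^ 2 ≤ lam ^ 2 * CH ^ 2 := by
                rw [mul_pow]
                refine mul_le_mul_of_nonneg_left ?_ (sq_nonneg _)
                rw [← sq_abs]; exact pow_le_pow_left₀ (abs_nonneg _) (hb q) 2
              linarith
          _ = (1 + lam ^ 2 * CH ^ 2) * Fintype.card Q := by
              rw [Finset.sum_add_distrib, ← Finset.mul_sum, hmean, mul_zero, add_zero,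
                Finset.sum_const, Finset.card_univ, nsmul_eq_mul, mul_comm]
          _ ≤ Real.exp (lam ^ 2 * CH ^ 2) * Fintype.card Q := by
              refine mul_le_mul_of_nonneg_right ?_ hQ.le
              have := Real.add_one_le_exp (lam ^ 2 * CH ^ 2)
              linarith
      · rw [Finset.sum_const, Finset.card_univ, nsmul_eq_mul, mul_one]
        nlinarith
    have h4 := Finset.prod_le_prod (s := (Finset.univ : Finset (ZMod (3 * w))))
      (f := fun Y => ∑ q : Q, (if far w (y - Y) then Real.exp (lam * H q) else 1))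
      (g := fun _ => Real.exp (lam ^ 2 * CH ^ 2) * Fintype.card Q)
      (fun Y _ => Finset.sum_nonneg fun q _ => by split_ifs <;> positivity) fun Y _ => h3 Y
    refine h4.trans (le_of_eq ?_)
    rw [Finset.prod_const, Finset.card_univ, mul_pow, ← Real.exp_nat_mul, ZMod.card,
      Fintype.card_fun, ZMod.card]
    push_cast
    rfl
  calc ∑ y : ZMod (3 * w), ∑ ξ : Cf Q w,
        ∏ Y, (if far w (y - Y) then Real.exp (lam * H (ξ Y)) else 1)
      ≤ ∑ _y : ZMod (3 * w), Real.exp ((3 * w) * (lam ^ 2 * CH ^ 2)) * Fintype.card (Cf Q w) :=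
        Finset.sum_le_sum fun y _ => h1 y
    _ = Real.exp ((3 * w) * (lam ^ 2 * CH ^ 2)) * Fintype.card (XX Q w) := by
        rw [Finset.sum_const, Finset.card_univ, nsmul_eq_mul, Fintype.card_prod]
        push_cast
        ring

theorem card_far {u : ℕ} (hw : w = 4 * u) :
    2 * u ≤ (Finset.univ.filter fun z : ZMod (3 * w) => far w z).card := by
  have h := Finset.card_le_card_of_injOn (s := Finset.range (2 * u))
    (t := Finset.univ.filter fun z : ZMod (3 * w) => far w z)
    (fun i => ((u + i : ℕ) : ZMod (3 * w))) (fun i hi => by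
      have hi' : i < 2 * u := by simpa using hi
      have hval : (((u + i : ℕ) : ZMod (3 * w))).val = u + i :=
        ZMod.val_natCast_of_lt (by omega)
      simp only [Finset.coe_filter, Finset.mem_univ, true_and, Set.mem_setOf_eq]
      refine ⟨?_, ?_⟩ <;> rw [hval] <;> omega) (fun i hi j hj hij => by
      have hi' : i < 2 * u := by simpa using hi
      have hj' : j < 2 * u := by simpa using hj
      have h1 : (((u + i : ℕ) : ZMod (3 * w))).val = u + i :=
        ZMod.val_natCast_of_lt (by omega)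
      have h2 : (((u + j : ℕ) : ZMod (3 * w))).val = u + j :=
        ZMod.val_natCast_of_lt (by omega)
      have h3 : ((u + i : ℕ) : ZMod (3 * w)) = ((u + j : ℕ) : ZMod (3 * w)) := hij
      rw [h3, h2] at h1
      omega)
  simpa using h

/-- lower bound of the mean of the observable along good paths -/
theorem good_sum (S : Sys Q R E θ) {N : ℕ} (hN : 1 ≤ N) {H : Q → ℝ} {q0 : Q} {CH : ℝ}
    (hO : Obs E N H q0 CH) {u0 : ℝ} (hu : 0 ≤ u0) (hu1 : u0 ≤ 1) {ρ : ℕ}
    (hρ : 2 * (ρ : ℤ) ≤ ((N : ℤ) - 2) * w) {u : ℕ} (hwu : w = 4 * u) {L : List Lab}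
    (hal : (cur L).Al ρ) {rb : ℕ} {d0 : ℝ}
    (hG : ∑ Y : ZMod (3 * w), gY w θ u0 R (0 - Y) L ≤ d0 * (3 * w))
    (hr : ∑ Y : ZMod (3 * w), rY w θ R (0 - Y) L ≤ rb * (3 * w)) :
    (3 * w : ℝ) * (1 / 24 * (1 / N : ℝ) ^ (12 * rb) - 4 * d0 * nrm H) ≤
      ∑ Y : ZMod (3 * w), (if far w ((0 : ZMod (3 * w)) - Y
      + ((disp L : ℤ) : ZMod (3 * w))) then (Wm w R (0 - Y) L *ᵥ H) q0 else 0) := by
  classical
  have hN0 : (0 : ℝ) < N := by exact_mod_cast hN
  have hN1 : (1 / N : ℝ) ≤ 1 := by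
    rw [div_le_one hN0]; exact_mod_cast hN
  set κ : ℝ := (1 / N : ℝ) ^ (12 * rb) with hκ
  have hκ0 : 0 ≤ κ := by positivity
  -- the sets
  set A := Finset.univ.filter fun Y : ZMod (3 * w) =>
    far w ((0 : ZMod (3 * w)) - Y + ((disp L : ℤ) : ZMod (3 * w))) with hA
  set Bd' := Finset.univ.filter fun Y : ZMod (3 * w) =>
    12 * rb < (fin w θ R ((0 - Y : ZMod (3 * w)).val : ℤ) L).r with hBd'
  have hAcard : 2 * u ≤ A.card := by
    refine (card_far hwu).trans (le_of_eq ?_)
    refine Finset.card_bij' (fun z _ => ((disp L : ℤ) : ZMod (3 * w)) - z)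
      (fun Y _ => ((disp L : ℤ) : ZMod (3 * w)) - Y) ?_ ?_ ?_ ?_
    · intro z hz
      simp only [hA, Finset.mem_filter, Finset.mem_univ, true_and] at hz ⊢
      have : (0 : ZMod (3 * w)) - (((disp L : ℤ) : ZMod (3 * w)) - z)
        + ((disp L : ℤ) : ZMod (3 * w)) = z := by ring
      rw [this]; exact hz
    · intro Y hY
      simp only [hA, Finset.mem_filter, Finset.mem_univ, true_and] at hY ⊢
      have : ((disp L : ℤ) : ZMod (3 * w)) - Y
        = (0 : ZMod (3 * w)) - Y + ((disp L : ℤ) : ZMod (3 * w)) := by ring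
      rw [this]; exact hY
    · intro z _; ring
    · intro Y _; ring
  have hrnn : ∀ Y : ZMod (3 * w), 0 ≤ rY w θ R (0 - Y) L := fun Y =>
    (Nat.cast_nonneg _).trans (GR_ge (w := w) (x0 := ((0 - Y : ZMod (3 * w)).val : ℤ)) _)
  have hBcard : Bd'.card ≤ u := by
    have h1 : (Bd'.card : ℝ) * (12 * rb + 1) ≤ rb * (3 * w) := by
      calc (Bd'.card : ℝ) * (12 * rb + 1) = ∑ _Y ∈ Bd', (12 * (rb : ℝ) + 1) := by
            rw [Finset.sum_const, nsmul_eq_mul]
        _ ≤ ∑ Y ∈ Bd', rY w θ R (0 - Y) L := by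
            refine Finset.sum_le_sum fun Y hY => ?_
            simp only [hBd', Finset.mem_filter, Finset.mem_univ, true_and] at hY
            have h2 : (12 * (rb : ℝ) + 1) ≤
                ((fin w θ R ((0 - Y : ZMod (3 * w)).val : ℤ) L).r : ℝ) := by exact_mod_cast hY
            exact h2.trans (GR_ge (w := w) _)
        _ ≤ ∑ Y : ZMod (3 * w), rY w θ R (0 - Y) L :=
            Finset.sum_le_univ_sum_of_nonneg hrnn
        _ ≤ rb * (3 * w) := hr
    have hwR' : (w : ℝ) = 4 * u := by rw [hwu]; push_cast; ring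
    rw [hwR'] at h1
    by_contra hcon
    rw [not_le] at hcon
    have h2 : (u : ℝ) + 1 ≤ Bd'.card := by exact_mod_cast hcon
    have h3 : (0 : ℝ) ≤ rb := Nat.cast_nonneg _
    have h4 : (0 : ℝ) ≤ u := Nat.cast_nonneg _
    nlinarith
  have hdiff : u ≤ (A \ Bd').card := by
    have h1 := Finset.le_card_sdiff Bd' A
    omega
  -- termwise lower bound
  have hterm : ∀ Y : ZMod (3 * w), (if Y ∈ A \ Bd' then 1 / 2 * κ else 0)
      - 4 * gY w θ u0 R (0 - Y) L * nrm H ≤
      (if far w ((0 : ZMod (3 * w)) - Y + ((disp L : ℤ) : ZMod (3 * w))) then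
        (Wm w R (0 - Y) L *ᵥ H) q0 else 0) := by
    intro Y
    have hg0 : 0 ≤ 4 * gY w θ u0 R (0 - Y) L * nrm H := by
      have := GG_nonneg S hu hu1 (fin_inv S (wpos (w := w)) ((0 - Y : ZMod (3 * w)).val : ℤ) L)
      exact mul_nonneg (mul_nonneg (by norm_num) this) (nrm_nonneg _)
    by_cases hf : far w ((0 : ZMod (3 * w)) - Y + ((disp L : ℤ) : ZMod (3 * w)))
    · rw [if_pos hf]
      have h1 := one_lamp S hO hu hu1 hρ (0 - Y) hal hf
      refine le_trans ?_ h1
      have h2 : (if Y ∈ A \ Bd' then 1 / 2 * κ else 0) ≤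
          1 / 2 * (1 / N : ℝ) ^ (fin w θ R ((0 - Y : ZMod (3 * w)).val : ℤ) L).r := by
        split_ifs with hY
        · have hY' : ¬ 12 * rb < (fin w θ R ((0 - Y : ZMod (3 * w)).val : ℤ) L).r := by
            intro h
            rw [Finset.mem_sdiff] at hY
            exact hY.2 (by simp only [hBd', Finset.mem_filter, Finset.mem_univ, true_and]; exact h)
          rw [not_lt] at hY'
          refine mul_le_mul_of_nonneg_left ?_ (by norm_num)
          exact pow_le_pow_of_le_one (by positivity) hN1 hY'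
        · positivity
      linarith
    · rw [if_neg hf]
      have hY : Y ∉ A \ Bd' := by
        intro h
        rw [Finset.mem_sdiff] at h
        simp only [hA, Finset.mem_filter, Finset.mem_univ, true_and] at h
        exact hf h.1
      rw [if_neg hY]; linarith
  have hsum := Finset.sum_le_sum fun Y (_ : Y ∈ (Finset.univ : Finset (ZMod (3 * w)))) => hterm Y
  refine le_trans ?_ hsum
  rw [Finset.sum_sub_distrib, ← Finset.sum_mul, ← Finset.mul_sum]
  have h5 : ∑ Y : ZMod (3 * w), (if Y ∈ A \ Bd' then 1 / 2 * κ else 0)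
      = (A \ Bd').card * (1 / 2 * κ) := by
    rw [Finset.sum_ite_mem, Finset.univ_inter, Finset.sum_const, nsmul_eq_mul]
  rw [h5]
  have h6 : (u : ℝ) * (1 / 2 * κ) ≤ ((A \ Bd').card : ℝ) * (1 / 2 * κ) :=
    mul_le_mul_of_nonneg_right (by exact_mod_cast hdiff) (by positivity)
  have h7 : 4 * (∑ Y : ZMod (3 * w), gY w θ u0 R (0 - Y) L) * nrm H
      ≤ 4 * (d0 * (3 * w)) * nrm H :=
    mul_le_mul_of_nonneg_right (mul_le_mul_of_nonneg_left hG (by norm_num)) (nrm_nonneg _)
  have h8 : (3 * w : ℝ) * (1 / 24 * κ) = u * (1 / 2 * κ) := by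
    rw [hwu]; push_cast; ring
  have h9 : (3 * w : ℝ) * (1 / 24 * κ - 4 * d0 * nrm H)
      = u * (1 / 2 * κ) - 4 * (d0 * (3 * w)) * nrm H := by
    rw [← h8]; ring
  rw [h9]
  linarith

open Classical in
/-- the main lower bound: a set that separates the chain from the uniform distribution -/
theorem lower_main (S : Sys Q R E θ) (hm : 500 ≤ dd m) {N : ℕ} (hN : 4 ≤ N) {H : Q → ℝ} {q0 : Q}
    {CH : ℝ} (hO : Obs E N H q0 CH) {u0 : ℝ} (hu : 0 ≤ u0) (hu1 : u0 ≤ 1)
    (hu0 : 1 - u0 ≤ u0 * m * (1 - θ) * w) {u : ℕ} (hwu : w = 4 * u) (C rb : ℕ) (hrb : 0 < rb)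
    {d0 : ℝ} (hd0 : 0 < d0) (hd0' : 4 * d0 * nrm H ≤ 1 / 48 * (1 / N : ℝ) ^ (12 * rb)) :
    ∃ B : Finset (XX Q w),
      (24 / 25 : ℝ) ^ C - u0 * (2 + (N ^ 2 * C) / dd m) / d0 - (1 + (N ^ 2 * C) / dd m) / rb
        - 2 * Real.exp (-((1 / 48 * (1 / N : ℝ) ^ (12 * rb)) ^ 2 * (3 * w) / (16 * CH ^ 2)))
      ≤ (Pop m R)^[N ^ 2 * w ^ 2 * C] (fun x => if x ∈ B then 1 else 0) ((fun _ => q0), 0)
        - B.card / Fintype.card (XX Q w) := by
  have hd := dd_pos m
  have hN0 : (0 : ℝ) < N := by exact_mod_cast (by omega : 0 < N)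
  have hCH := hO.one_le
  have hwR : (0 : ℝ) < w := by exact_mod_cast (wpos (w := w))
  have hN1 : (1 / N : ℝ) ≤ 1 := by
    rw [div_le_one hN0]; exact_mod_cast (by omega : 1 ≤ N)
  set c : ℝ := 1 / 48 * (1 / N : ℝ) ^ (12 * rb) with hc
  have hc0 : 0 < c := by positivity
  have hc1 : c ≤ 1 := by
    have : (1 / N : ℝ) ^ (12 * rb) ≤ 1 := pow_le_one₀ (by positivity) hN1
    rw [hc]; linarith
  set lam : ℝ := c / (4 * CH ^ 2) with hlam
  have hlam0 : 0 ≤ lam := by positivity
  have hlam1 : lam * CH ≤ 1 := by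
    rw [hlam, div_mul_eq_mul_div, div_le_one (by positivity)]
    nlinarith
  set D : ℝ := Real.exp (-(c ^ 2 * (3 * w) / (16 * CH ^ 2))) with hD
  set g : XX Q w → ℝ := fun p => ∑ Y, (if far w (p.2 - Y) then H (p.1 Y) else 0) with hg
  set a : ℝ := c * (3 * w) / 2 with ha
  set B : Finset (XX Q w) := Finset.univ.filter fun x => a ≤ g x with hB
  refine ⟨B, ?_⟩
  -- uniform side
  have hexpg : ∀ (s : ℝ) (p : XX Q w), ∏ Y, (if far w (p.2 - Y) then Real.exp (s * H (p.1 Y)) else 1)
      = Real.exp (s * g p) := by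
    intro s p
    simp only [hg]
    rw [Finset.mul_sum, Real.exp_sum]
    refine Finset.prod_congr rfl fun Y _ => ?_
    split_ifs
    · rfl
    · rw [mul_zero, Real.exp_zero]
  have hX : (0 : ℝ) < Fintype.card (XX Q w) := Nat.cast_pos.2 Fintype.card_pos
  have hunif : (B.card : ℝ) / Fintype.card (XX Q w) ≤ D := by
    have h1 := unif_exp (w := w) (by linarith : (0 : ℝ) ≤ CH) hO.bound hO.mean hlam0 hlam1
    simp only [hexpg] at h1
    have h2 : (B.card : ℝ) ≤ Real.exp (-(lam * a)) * ∑ p : XX Q w, Real.exp (lam * g p) := by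
      rw [Finset.mul_sum]
      calc (B.card : ℝ) = ∑ p : XX Q w, (if p ∈ B then (1 : ℝ) else 0) := by
            rw [Finset.sum_ite_mem, Finset.univ_inter, Finset.sum_const, nsmul_eq_mul, mul_one]
        _ ≤ ∑ p : XX Q w, Real.exp (-(lam * a)) * Real.exp (lam * g p) := by
            refine Finset.sum_le_sum fun p _ => ?_
            rw [← Real.exp_add]
            split_ifs with hp
            · simp only [hB, Finset.mem_filter, Finset.mem_univ, true_and] at hp
              refine Real.one_le_exp ?_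
              have := mul_le_mul_of_nonneg_left hp hlam0
              linarith
            · positivity
    rw [div_le_iff₀ hX] at h1 ⊢
    refine h2.trans ?_
    refine (mul_le_mul_of_nonneg_left h1 (by positivity)).trans ?_
    rw [← mul_assoc]
    refine mul_le_mul_of_nonneg_right ?_ hX.le
    rw [← Real.exp_add, hD]
    refine Real.exp_le_exp.2 (le_of_eq ?_)
    rw [ha, hlam]
    field_simp
    ring
  -- chain side
  set n3 : ℝ := 3 * w with hn3
  have hn3pos : 0 < n3 := by positivity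
  set ρ : ℕ := N * u with hρ
  have hρ0 : 0 < ρ := by
    have := wpos (w := w)
    rw [hρ]; exact Nat.mul_pos (by omega) (by omega)
  have ht : N ^ 2 * w ^ 2 * C = (16 * ρ ^ 2) * C := by rw [hρ, hwu]; ring
  have hρ2 : 2 * (ρ : ℤ) ≤ ((N : ℤ) - 2) * w := by
    rw [hρ, hwu]; push_cast
    have h1 : (4 : ℤ) ≤ N := by exact_mod_cast hN
    have h2 : (0 : ℤ) ≤ u := Int.natCast_nonneg u
    nlinarith
  set t := N ^ 2 * w ^ 2 * C with htdef
  set GS : List Lab → ℝ := fun L => ∑ Y : ZMod (3 * w), gY w θ u0 R (0 - Y) L with hGS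
  set RS : List Lab → ℝ := fun L => ∑ Y : ZMod (3 * w), rY w θ R (0 - Y) L with hRS
  have hGS0 : ∀ L, 0 ≤ GS L := fun L => Finset.sum_nonneg fun Y _ =>
    GG_nonneg S hu hu1 (fin_inv S (wpos (w := w)) _ L)
  have hRS0 : ∀ L, 0 ≤ RS L := fun L => Finset.sum_nonneg fun Y _ =>
    (Nat.cast_nonneg _).trans (GR_ge (w := w) _)
  have htd : (t : ℝ) / (dd m * (w : ℝ) ^ 2) = (N ^ 2 * C) / dd m := by
    rw [htdef]; push_cast; field_simp
  have hGE : Ex m t GS ≤ n3 * (u0 * (2 + (N ^ 2 * C) / dd m)) := by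
    rw [hGS, Ex_sum]
    calc ∑ Y : ZMod (3 * w), Ex m t (fun L => gY w θ u0 R (0 - Y) L)
        ≤ ∑ _Y : ZMod (3 * w), (u0 * (2 + (N ^ 2 * C) / dd m)) := by
          refine Finset.sum_le_sum fun Y _ => ?_
          have := Ex_GG (m := m) S (wpos (w := w)) hu hu0 ((0 - Y : ZMod (3 * w)).val : ℤ) t
          rw [htd] at this
          exact this
      _ = n3 * (u0 * (2 + (N ^ 2 * C) / dd m)) := by
          rw [Finset.sum_const, Finset.card_univ, ZMod.card, nsmul_eq_mul, hn3]; push_cast; ring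
  have hRE : Ex m t RS ≤ n3 * (1 + (N ^ 2 * C) / dd m) := by
    rw [hRS, Ex_sum]
    calc ∑ Y : ZMod (3 * w), Ex m t (fun L => rY w θ R (0 - Y) L)
        ≤ ∑ _Y : ZMod (3 * w), (1 + (N ^ 2 * C) / dd m) := by
          refine Finset.sum_le_sum fun Y _ => ?_
          have := Ex_GR (m := m) S (wpos (w := w)) ((0 - Y : ZMod (3 * w)).val : ℤ) t
          rw [htd] at this
          exact this
      _ = n3 * (1 + (N ^ 2 * C) / dd m) := by
          rw [Finset.sum_const, Finset.card_univ, ZMod.card, nsmul_eq_mul, hn3]; push_cast; ring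
  have hrbR : (0 : ℝ) < rb := by exact_mod_cast hrb
  have hGM : Ex m t (fun L => if d0 * n3 ≤ GS L then 1 else 0)
      ≤ u0 * (2 + (N ^ 2 * C) / dd m) / d0 := by
    refine (Ex_markov t hGS0 (by positivity)).trans ?_
    rw [div_le_div_iff₀ (by positivity) hd0]
    have := mul_le_mul_of_nonneg_right hGE hd0.le
    linarith
  have hRM : Ex m t (fun L => if rb * n3 ≤ RS L then 1 else 0)
      ≤ (1 + (N ^ 2 * C) / dd m) / rb := by
    refine (Ex_markov t hRS0 (by positivity)).trans ?_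
    rw [div_le_div_iff₀ (by positivity) hrbR]
    have := mul_le_mul_of_nonneg_right hRE hrbR.le
    linarith
  have hstay := stay_prob hm hρ0 C
  rw [← ht] at hstay
  -- complement indicator
  have hcomp : (Pop m R)^[t] (fun x => if x ∈ B then (1 : ℝ) else 0) ((fun _ => q0), 0)
      = 1 - Ex m t (fun L => TL R L (fun x => if x ∈ B then (0 : ℝ) else 1) ((fun _ => q0), 0)) := by
    rw [Pop_iter]
    have h1 : ∀ L : List Lab, ∀ x : XX Q w, TL R L (fun x => if x ∈ B then (1 : ℝ) else 0) x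
        + TL R L (fun x => if x ∈ B then (0 : ℝ) else 1) x = 1 := by
      intro L
      induction L with
      | nil => intro x; simp only [TL]; split_ifs <;> norm_num
      | cons l L ih =>
        intro x
        have h2 : ∀ f g : XX Q w → ℝ, T R l f x + T R l g x = T R l (fun x => f x + g x) x := by
          intro f g
          cases l with
          | L k =>
            simp only [T]
            rw [← Pi.add_apply, ← Matrix.mulVec_add]; rfl
          | cp => rfl
          | cm => rfl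
          | c0 => rfl
        simp only [TL]
        rw [h2]
        simp only [ih]
        rw [T_const S.hR]
    have h3 : ∀ L : List Lab, TL R L (fun x => if x ∈ B then (1 : ℝ) else 0) ((fun _ => q0), 0)
        = 1 - TL R L (fun x => if x ∈ B then (0 : ℝ) else 1) ((fun _ => q0), 0) := fun L => by
      linarith [h1 L ((fun _ => q0), 0)]
    simp only [h3]
    rw [Ex_sub, Ex_const]
  rw [hcomp]
  have hpt : ∀ L, TL R L (fun x => if x ∈ B then (0 : ℝ) else 1) ((fun _ => q0), 0)
      ≤ (1 - (if (cur L).Al ρ then 1 else 0)) + (if d0 * n3 ≤ GS L then 1 else 0)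
        + (if rb * n3 ≤ RS L then 1 else 0) + D := by
    intro L
    have hle1 : TL R L (fun x => if x ∈ B then (0 : ℝ) else 1) ((fun _ => q0), 0) ≤ 1 := by
      have := TL_mono S.hR L (f := fun x : XX Q w => if x ∈ B then (0 : ℝ) else 1)
        (g := fun _ => 1) (fun x => by split_ifs <;> norm_num) ((fun _ => q0), 0)
      rwa [TL_const S.hR] at this
    have hDpos : 0 < D := Real.exp_pos _
    by_cases h1 : (cur L).Al ρ
    swap
    · rw [if_neg h1]
      have : (0 : ℝ) ≤ (if d0 * n3 ≤ GS L then 1 else 0) := by split_ifs <;> norm_num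
      have : (0 : ℝ) ≤ (if rb * n3 ≤ RS L then 1 else 0) := by split_ifs <;> norm_num
      linarith
    by_cases h2 : d0 * n3 ≤ GS L
    · rw [if_pos h1, if_pos h2]
      have : (0 : ℝ) ≤ (if rb * n3 ≤ RS L then 1 else 0) := by split_ifs <;> norm_num
      linarith
    by_cases h3 : rb * n3 ≤ RS L
    · rw [if_pos h1, if_neg h2, if_pos h3]
      linarith
    rw [if_pos h1, if_neg h2, if_neg h3, sub_self, zero_add, zero_add, zero_add]
    rw [not_le] at h2 h3
    have hgs := good_sum S (by omega : 1 ≤ N) hO hu hu1 hρ2 hwu h1 (rb := rb) (d0 := d0)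
      h2.le h3.le
    set Z : ℝ := ∑ Y : ZMod (3 * w), (if far w ((0 : ZMod (3 * w)) - Y
      + ((disp L : ℤ) : ZMod (3 * w))) then (Wm w R (0 - Y) L *ᵥ H) q0 else 0) with hZ
    have hZc : c * n3 ≤ Z := by
      refine le_trans ?_ hgs
      rw [mul_comm]
      refine mul_le_mul_of_nonneg_left ?_ hn3pos.le
      have h24 : 1 / 24 * (1 / N : ℝ) ^ (12 * rb) = 2 * c := by rw [hc]; ring
      rw [h24]; linarith
    -- comparison with the exponential
    have h4 : ∀ x : XX Q w, (if x ∈ B then (0 : ℝ) else 1) ≤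
        Real.exp (lam * a) * ∏ Y, (if far w (x.2 - Y) then Real.exp (-(lam * H (x.1 Y))) else 1) := by
      intro x
      have h5 := hexpg (-lam) x
      simp only [neg_mul] at h5
      rw [h5, ← Real.exp_add]
      split_ifs with hx
      · positivity
      · refine Real.one_le_exp ?_
        simp only [hB, Finset.mem_filter, Finset.mem_univ, true_and, not_le] at hx
        have := mul_le_mul_of_nonneg_left hx.le hlam0
        linarith
    have h5 := TL_mono S.hR L h4 ((fun _ => q0), 0)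
    have hscal : ∀ (L : List Lab) (s : ℝ) (f : XX Q w → ℝ) (x : XX Q w),
        TL R L (fun x => s * f x) x = s * TL R L f x := by
      intro L
      induction L with
      | nil => intro s f x; rfl
      | cons l L ih =>
        intro s f x
        simp only [TL]
        have h6 : TL R L (fun x => s * f x) = fun x => s * TL R L f x := funext (ih s f)
        rw [h6]
        cases l with
        | L k =>
          simp only [T]
          have : (fun q => s * TL R L f (Function.update x.1 (site x.2 k) q, x.2))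
              = s • fun q => TL R L f (Function.update x.1 (site x.2 k) q, x.2) := rfl
          rw [this, Matrix.mulVec_smul]; rfl
        | cp => rfl
        | cm => rfl
        | c0 => rfl
    rw [hscal] at h5
    have h6 := chain_exp (w := w) S (by linarith : (0 : ℝ) ≤ CH) hO.bound hlam0 hlam1 q0 L
    refine h5.trans ((mul_le_mul_of_nonneg_left h6 (Real.exp_pos _).le).trans ?_)
    rw [← Real.exp_add, hD]
    refine Real.exp_le_exp.2 ?_
    have h7 := mul_le_mul_of_nonneg_left hZc hlam0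
    have h8 : lam * a + (-(lam * Z) + n3 * (lam ^ 2 * CH ^ 2))
        ≤ lam * a + (-(lam * (c * n3)) + n3 * (lam ^ 2 * CH ^ 2)) := by linarith
    refine h8.trans (le_of_eq ?_)
    rw [ha, hlam]
    field_simp
    ring
  have hE := Ex_mono (m := m) t hpt
  rw [Ex_add, Ex_add, Ex_add, Ex_sub, Ex_const, Ex_const] at hE
  linarith

end Pool.Agent.D0H96
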