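import Pool.Agent.D0H96.Coup
import Pool.Agent.D0H96.LampMeas

/-! The history of one lamp: blocks of visits to its three heads. -/

set_option linter.unusedSectionVars false

namespace Pool.Agent.D0H96

open Finset Matrix

variable {Q : Type} [Fintype Q] [DecidableEq Q]

/-- a path on the integers -/
abbrev Chn (js : List ℤ) : Prop := Lamp.Chn js

/-- products of projections -/
noncomputable def wd (E : ZMod 3 → Matrix Q Q ℝ) (js : List ℤ) : Matrix Q Q ℝ :=
  (js.map fun j : ℤ => E (j : ZMod 3)).prod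

/-- state of the history of one lamp -/
structure LS (Q : Type) : Type where
  /-- cursor -/
  c : Cur
  /-- has a head been met -/
  on : Bool
  /-- index of the current block -/
  b : ℤ
  /-- actions in the current block -/
  v : ℕ
  /-- number of blocks -/
  r : ℕ
  /-- accumulated error -/
  e : ℝ
  /-- completed blocks -/
  js : List ℤ
  /-- operator of the completed blocks -/
  Wa : Matrix Q Q ℝ

variable (w : ℕ) (θ : ℝ) (R E : ZMod 3 → Matrix Q Q ℝ) (x0 : ℤ)

/-- start a block with index `q` -/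
noncomputable def newblk (q : ℤ) (σ : LS Q) : LS Q :=
  if σ.on = true then
    ⟨σ.c, true, q, 0, σ.r + 1, σ.e + θ ^ σ.v, σ.js ++ [σ.b], σ.Wa * R (σ.b : ZMod 3) ^ σ.v⟩
  else ⟨σ.c, true, q, 0, 1, 0, [], 1⟩

/-- start a block if a new multiple of `w` is met -/
noncomputable def hit (σ : LS Q) : LS Q :=
  if (w : ℤ) ∣ (x0 + σ.c.s) ∧ ¬ (σ.on = true ∧ x0 + σ.c.s = w * σ.b) then
    newblk θ R ((x0 + σ.c.s) / w) σ
  else σ

/-- one step of the history -/
noncomputable def lstep (σ : LS Q) (l : Lab) : LS Q :=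
  match l with
  | .cp => hit w θ R x0 { σ with c := cstep σ.c .cp }
  | .cm => hit w θ R x0 { σ with c := cstep σ.c .cm }
  | .c0 => { σ with c := cstep σ.c .c0 }
  | .L k => { σ with c := cstep σ.c (.L k), v := if (w : ℤ) ∣ (x0 + σ.c.s) ∧
      ((σ.b : ℤ) : ZMod 3) = k then σ.v + 1 else σ.v }

/-- invariants of the history -/
structure LInv (σ : LS Q) : Prop where
  ci : σ.c.Inv
  near : σ.on = true → |x0 + σ.c.s - w * σ.b| < w
  off : σ.on = false → ¬ (w : ℤ) ∣ (x0 + σ.c.s) ∧ σ.v = 0 ∧ σ.r = 0 ∧ σ.e = 0 ∧ σ.js = [] ∧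
    σ.Wa = 1
  chn : σ.on = true → Chn (σ.js ++ [σ.b])
  cov : ∀ j : ℤ, (x0 + σ.c.mn ≤ w * j ∧ w * j ≤ x0 + σ.c.mx) ↔
    (σ.on = true ∧ (j = σ.b ∨ j ∈ σ.js))
  len : σ.on = true → σ.r = σ.js.length + 1
  e0 : 0 ≤ σ.e
  err : Bd (σ.Wa - wd E σ.js) σ.e
  mem : σ.Wa ∈ doublyStochastic ℝ Q

theorem wd_append (js : List ℤ) (b : ℤ) : wd E (js ++ [b]) = wd E js * E (b : ZMod 3) := by
  simp [wd]

theorem wd_nil : wd E [] = 1 := rfl

variable {w θ R E x0}

theorem wd_mem (hE : ∀ k, E k ∈ doublyStochastic ℝ Q) (js : List ℤ) :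
    wd E js ∈ doublyStochastic ℝ Q := by
  induction js with
  | nil => exact one_mem _
  | cons j js ih => simp only [wd, List.map_cons, List.prod_cons]; exact mul_mem (hE _) ih

/-- the error grows by `θ^v` -/
theorem err_step (hR : ∀ k, R k ∈ doublyStochastic ℝ Q) (hE : ∀ k, E k ∈ doublyStochastic ℝ Q)
    (hgap : ∀ k v, Bd (R k ^ v - E k) (θ ^ v)) {W : Matrix Q Q ℝ} {js : List ℤ} {e : ℝ}
    (h : Bd (W - wd E js) e) (he : 0 ≤ e) (b : ℤ) (v : ℕ) :
    Bd (W * R (b : ZMod 3) ^ v - wd E (js ++ [b])) (e + θ ^ v) := by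
  rw [wd_append]
  have h1 : W * R (b : ZMod 3) ^ v - wd E js * E (b : ZMod 3)
      = (W - wd E js) * R (b : ZMod 3) ^ v + wd E js * (R (b : ZMod 3) ^ v - E (b : ZMod 3)) := by
    rw [sub_mul, mul_sub]; abel
  rw [h1]
  have h2 := h.mul (DS_Bd (pow_mem (hR (b : ZMod 3)) v)) he
  have h3 := (DS_Bd (wd_mem hE js)).mul (hgap (b : ZMod 3) v) zero_le_one
  rw [mul_one] at h2
  rw [one_mul] at h3
  exact h2.add h3

theorem dvd_cases (hw : 0 < w) {x b : ℤ} {δ : ℤ} (hδ : δ = 1 ∨ δ = -1)
    (hn : |x - w * b| < w) (hd : (w : ℤ) ∣ (x + δ)) (hne : x + δ ≠ w * b) :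
    ∃ q, x + δ = w * q ∧ (q = b + 1 ∨ q = b - 1) := by
  obtain ⟨q, hq⟩ := hd
  refine ⟨q, hq, ?_⟩
  rw [abs_lt] at hn
  have hw' : (0 : ℤ) < w := by exact_mod_cast hw
  have hqb : q ≠ b := by rintro rfl; exact hne hq
  have h1 : w * q - w * b ≤ w := by rcases hδ with h | h <;> omega
  have h2 : -(w : ℤ) ≤ w * q - w * b := by rcases hδ with h | h <;> omega
  have h3 : q - b ≤ 1 := by
    by_contra hcon
    have : 2 ≤ q - b := by omega
    nlinarith
  have h4 : -1 ≤ q - b := by
    by_contra hcon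
    have : q - b ≤ -2 := by omega
    nlinarith
  omega

theorem LInv.hit_inv (hw : 0 < w) (hR : ∀ k, R k ∈ doublyStochastic ℝ Q)
    (hE : ∀ k, E k ∈ doublyStochastic ℝ Q) (hθ : 0 ≤ θ)
    (hgap : ∀ k v, Bd (R k ^ v - E k) (θ ^ v))
    {σ : LS Q} (h : LInv w E x0 σ) {l : Lab} (hl : mv l = 1 ∨ mv l = -1) :
    LInv w E x0 (hit w θ R x0 { σ with c := cstep σ.c l }) := by
  have hw' : (0 : ℤ) < w := by exact_mod_cast hw
  have hs : ∀ x : ℤ, x0 + (σ.c.s + x) = x0 + σ.c.s + x := fun x => by ring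
  have hci : (cstep σ.c l).Inv := h.ci.step l
  have h1 := h.ci.1
  have h2 := h.ci.2
  by_cases hh : (w : ℤ) ∣ (x0 + (cstep σ.c l).s) ∧
      ¬ (σ.on = true ∧ x0 + (cstep σ.c l).s = w * σ.b)
  · -- a new block
    obtain ⟨hd, hne⟩ := hh
    have hhit : hit w θ R x0 { σ with c := cstep σ.c l }
        = newblk θ R ((x0 + (cstep σ.c l).s) / w) { σ with c := cstep σ.c l } := by
      simp only [hit]; rw [if_pos ⟨hd, hne⟩]
    rw [hhit]
    obtain ⟨q, hq⟩ := hd
    have hdiv : (x0 + (cstep σ.c l).s) / w = q := by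
      rw [hq]; exact Int.mul_ediv_cancel_left _ hw'.ne'
    rw [hdiv]
    have hq' : x0 + σ.c.s + mv l = w * q := by rw [← hq]; simp only [cstep]; ring
    -- coverage of the new interval
    have hcov : ∀ j : ℤ, (x0 + (cstep σ.c l).mn ≤ w * j ∧ w * j ≤ x0 + (cstep σ.c l).mx) ↔
        (j = q ∨ (x0 + σ.c.mn ≤ w * j ∧ w * j ≤ x0 + σ.c.mx)) := by
      intro j
      simp only [cstep]
      have e1 : j = q ↔ (w : ℤ) * j = w * q := by
        constructor
        · rintro rfl; rfl
        · intro h; exact mul_left_cancel₀ hw'.ne' h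
      rw [e1]
      generalize (w : ℤ) * j = z
      generalize (w : ℤ) * q = y at hq'
      rcases hl with hl | hl <;> rw [hl] at hq' ⊢ <;> constructor <;> intro h <;> omega
    by_cases hon : σ.on = true
    · have hnear := h.near hon
      have hne' : x0 + σ.c.s + mv l ≠ w * σ.b := fun h0 => by
        apply hne
        refine ⟨hon, ?_⟩
        simp only [cstep]; rw [← h0]; ring
      obtain ⟨q', hq1, hq2⟩ := dvd_cases hw hl hnear ⟨q, hq'⟩ hne'
      have hqq : q' = q := mul_left_cancel₀ hw'.ne' (hq1.symm.trans hq')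
      subst hqq
      have hnb : newblk θ R q' { σ with c := cstep σ.c l }
          = ⟨cstep σ.c l, true, q', 0, σ.r + 1, σ.e + θ ^ σ.v, σ.js ++ [σ.b],
            σ.Wa * R (σ.b : ZMod 3) ^ σ.v⟩ := by
        simp only [newblk]; rw [if_pos hon]
      rw [hnb]
      refine ⟨hci, fun _ => ?_, fun h0 => by simp at h0, fun _ => ?_, fun j => ?_, fun _ => ?_,
        ?_, ?_, ?_⟩
      · simp only
        rw [hq, sub_self, abs_zero]; exact hw'
      · have hc := h.chn hon
        show List.IsChain _ ((σ.js ++ [σ.b]) ++ [q'])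
        rw [List.isChain_append]
        refine ⟨hc, List.isChain_singleton _, ?_⟩
        intro a ha c hc'
        rw [List.getLast?_append, List.getLast?_singleton] at ha
        simp only [Option.some_or, Option.mem_def, Option.some.injEq] at ha
        simp only [List.head?_cons, Option.mem_def, Option.some.injEq] at hc'
        subst ha hc'
        exact hq2
      · simp only
        rw [hcov, h.cov j]
        simp [hon]
        tauto
      · simp only [List.length_append, List.length_singleton]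
        rw [h.len hon]
      · exact add_nonneg h.e0 (pow_nonneg hθ _)
      · exact err_step hR hE hgap h.err h.e0 σ.b σ.v
      · exact mul_mem h.mem (pow_mem (hR _) _)
    · have hon' : σ.on = false := by simpa using hon
      have hnb : newblk θ R q { σ with c := cstep σ.c l }
          = ⟨cstep σ.c l, true, q, 0, 1, 0, [], 1⟩ := by
        simp only [newblk]; rw [if_neg hon]
      rw [hnb]
      obtain ⟨o1, o2, o3, o4, o5, o6⟩ := h.off hon'
      refine ⟨hci, fun _ => ?_, fun h0 => by simp at h0, fun _ => List.isChain_singleton _,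
        fun j => ?_, fun _ => rfl, le_rfl, ?_, one_mem _⟩
      · simp only
        rw [hq, sub_self, abs_zero]; exact hw'
      · simp only
        rw [hcov, h.cov j]
        simp [hon]
      · rw [wd_nil, sub_self]; exact Bd_zero
  · -- no new block
    have hhit : hit w θ R x0 { σ with c := cstep σ.c l } = { σ with c := cstep σ.c l } := by
      simp only [hit]; rw [if_neg hh]
    rw [hhit]
    have hcov : ∀ j : ℤ, (x0 + (cstep σ.c l).mn ≤ w * j ∧ w * j ≤ x0 + (cstep σ.c l).mx) ↔
        (x0 + σ.c.mn ≤ w * j ∧ w * j ≤ x0 + σ.c.mx) := by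
      intro j
      by_cases hj : x0 + (cstep σ.c l).s = w * j
      · -- then the position is the current block
        have hon : σ.on = true ∧ x0 + (cstep σ.c l).s = w * σ.b := by
          by_contra hcon
          exact hh ⟨⟨j, hj⟩, hcon⟩
        have hjb : j = σ.b := mul_left_cancel₀ hw'.ne' (hj.symm.trans hon.2)
        have h3 := (h.cov j).2 ⟨hon.1, Or.inl hjb⟩
        simp only [cstep] at hj ⊢
        omega
      · simp only [cstep] at hj ⊢
        rcases hl with hl | hl <;> rw [hl] at hj ⊢ <;>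
          generalize (w : ℤ) * j = z at * <;> constructor <;> intro h <;> omega
    refine ⟨hci, fun hon => ?_, fun hoff => ?_, h.chn, fun j => ?_, h.len, h.e0, h.err, h.mem⟩
    · simp only at hon ⊢
      have hnear := h.near hon
      rw [abs_lt] at hnear ⊢
      have e1 : x0 + (cstep σ.c l).s = x0 + σ.c.s + mv l := by simp only [cstep]; ring
      rw [e1]
      by_contra hcon
      have h3 : x0 + σ.c.s + mv l = w * (σ.b + 1) ∨ x0 + σ.c.s + mv l = w * (σ.b - 1) := by
        rw [mul_add, mul_sub, mul_one]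
        generalize (w : ℤ) * σ.b = z at *
        rcases hl with hl | hl <;> rw [hl] at hcon ⊢ <;> omega
      apply hh
      refine ⟨?_, ?_⟩
      · rw [e1]
        rcases h3 with h3 | h3 <;> exact ⟨_, h3⟩
      · rintro ⟨_, h4⟩
        rw [e1] at h4
        rcases h3 with h3 | h3
        · rw [h3] at h4
          have := mul_left_cancel₀ hw'.ne' h4
          omega
        · rw [h3] at h4
          have := mul_left_cancel₀ hw'.ne' h4
          omega
    · simp only at hoff ⊢
      obtain ⟨o1, o2⟩ := h.off hoff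
      refine ⟨fun hd => hh ⟨hd, fun hc => ?_⟩, o2⟩
      rw [hoff] at hc
      simp at hc
    · simp only
      rw [hcov, h.cov j]

theorem cstep_stay {c : Cur} (h : c.Inv) {l : Lab} (hl : mv l = 0) : cstep c l = c := by
  ext
  · simp [cstep, hl]
  · simp [cstep, hl, h.1]
  · simp [cstep, hl, h.2]

theorem LInv.step (hw : 0 < w) (hR : ∀ k, R k ∈ doublyStochastic ℝ Q)
    (hE : ∀ k, E k ∈ doublyStochastic ℝ Q) (hθ : 0 ≤ θ)
    (hgap : ∀ k v, Bd (R k ^ v - E k) (θ ^ v))
    {σ : LS Q} (h : LInv w E x0 σ) (l : Lab) : LInv w E x0 (lstep w θ R x0 σ l) := by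
  cases l with
  | cp => exact h.hit_inv hw hR hE hθ hgap (Or.inl rfl)
  | cm => exact h.hit_inv hw hR hE hθ hgap (Or.inr rfl)
  | c0 =>
    simp only [lstep]
    rw [cstep_stay h.ci rfl]
    exact h
  | L k =>
    simp only [lstep]
    rw [cstep_stay h.ci rfl]
    refine ⟨h.ci, h.near, fun hoff => ?_, h.chn, h.cov, h.len, h.e0, h.err, h.mem⟩
    obtain ⟨o1, o2, o3⟩ := h.off hoff
    refine ⟨o1, ?_, o3⟩
    simp only
    rw [if_neg, o2]
    rintro ⟨h1, _⟩
    exact o1 h1

/-- initial history of a lamp at relative position `x0` -/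
noncomputable def init (w : ℕ) (x0 : ℤ) : LS Q :=
  if (w : ℤ) ∣ x0 then ⟨cur0, true, x0 / w, 0, 1, 0, [], 1⟩
  else ⟨cur0, false, 0, 0, 0, 0, [], 1⟩

theorem init_inv (hw : 0 < w) (x0 : ℤ) : LInv w E x0 (init w x0 : LS Q) := by
  have hw' : (0 : ℤ) < w := by exact_mod_cast hw
  unfold init
  split_ifs with hd
  · obtain ⟨q, rfl⟩ := hd
    rw [Int.mul_ediv_cancel_left _ hw'.ne']
    refine ⟨⟨le_rfl, le_rfl⟩, fun _ => ?_, fun h0 => by simp at h0,
      fun _ => List.isChain_singleton _, fun j => ?_, fun _ => rfl, le_rfl, ?_, one_mem _⟩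
    · simp [cur0, hw]
    · simp only [cur0, add_zero]
      constructor
      · rintro ⟨h1, h2⟩
        have := le_antisymm h2 h1
        exact ⟨trivial, Or.inl (mul_left_cancel₀ hw'.ne' this)⟩
      · rintro ⟨_, h | h⟩
        · subst h; exact ⟨le_rfl, le_rfl⟩
        · simp at h
    · rw [wd_nil, sub_self]; exact Bd_zero
  · refine ⟨⟨le_rfl, le_rfl⟩, fun h0 => by simp at h0, fun _ => ?_, fun h0 => by simp at h0,
      fun j => ?_, fun h0 => by simp at h0, le_rfl, ?_, one_mem _⟩
    · simp [cur0, hd]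
    · simp only [cur0, add_zero]
      constructor
      · rintro ⟨h1, h2⟩
        exact absurd ⟨j, le_antisymm h1 h2⟩ hd
      · rintro ⟨h1, _⟩; simp at h1
    · rw [wd_nil, sub_self]; exact Bd_zero

end Pool.Agent.D0H96
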