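import Pool.Agent.D0H96.Mach

/-! The operator of a lamp and the potentials of its history. -/

set_option linter.unusedSectionVars false

namespace Pool.Agent.D0H96

open Finset Matrix

variable {Q : Type} [Fintype Q] [DecidableEq Q]

/-- the operator of one label on a lamp, `z` being the cursor position relative to the lamp -/
def op (w : ℕ) (R : ZMod 3 → Matrix Q Q ℝ) (z : ZMod (3 * w)) : Lab → Matrix Q Q ℝ
  | .L k => if z = ((k.val * w : ℕ) : ZMod (3 * w)) then R k else 1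
  | _ => 1

/-- the operator of a list of labels on a lamp -/
def Wm (w : ℕ) (R : ZMod 3 → Matrix Q Q ℝ) : ZMod (3 * w) → List Lab → Matrix Q Q ℝ
  | _, [] => 1
  | z, l :: L => op w R z l * Wm w R (z + (mv l : ℤ)) L

theorem Wm_append (w : ℕ) (R : ZMod 3 → Matrix Q Q ℝ) : ∀ (L₁ L₂ : List Lab) (z : ZMod (3 * w)),
    Wm w R z (L₁ ++ L₂) = Wm w R z L₁ * Wm w R (z + (disp L₁ : ℤ)) L₂
  | [], L₂, z => by simp [Wm, disp]
  | l :: L₁, L₂, z => by
    rw [List.cons_append, Wm, Wm, Wm_append w R L₁ L₂, mul_assoc]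
    congr 3
    simp only [disp]; push_cast; ring

theorem op_mem {w : ℕ} {R : ZMod 3 → Matrix Q Q ℝ} (hR : ∀ k, R k ∈ doublyStochastic ℝ Q)
    (z : ZMod (3 * w)) (l : Lab) : op w R z l ∈ doublyStochastic ℝ Q := by
  cases l with
  | L k => simp only [op]; split_ifs; exacts [hR k, one_mem _]
  | _ => exact one_mem _

theorem Wm_mem {w : ℕ} {R : ZMod 3 → Matrix Q Q ℝ} (hR : ∀ k, R k ∈ doublyStochastic ℝ Q) :
    ∀ (L : List Lab) (z : ZMod (3 * w)), Wm w R z L ∈ doublyStochastic ℝ Q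
  | [], _ => one_mem _
  | l :: L, z => mul_mem (op_mem hR z l) (Wm_mem hR L _)

variable {w : ℕ} {θ : ℝ} {R E : ZMod 3 → Matrix Q Q ℝ} {x0 : ℤ}

/-- complete operator of a history -/
noncomputable def full (R : ZMod 3 → Matrix Q Q ℝ) (σ : LS Q) : Matrix Q Q ℝ :=
  if σ.on = true then σ.Wa * R (σ.b : ZMod 3) ^ σ.v else 1

theorem cast_iff (hw : 0 < w) (x : ℤ) (k : ZMod 3) :
    ((x : ZMod (3 * w)) = ((k.val * w : ℕ) : ZMod (3 * w))) ↔
      ∃ j : ℤ, x = w * j ∧ (j : ZMod 3) = k := by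
  have h1 : ((k.val * w : ℕ) : ZMod (3 * w)) = (((k.val * w : ℕ) : ℤ) : ZMod (3 * w)) := by
    rw [Int.cast_natCast]
  rw [h1, ZMod.intCast_eq_intCast_iff_dvd_sub]
  have hk : ((k.val : ℤ) : ZMod 3) = k := by rw [Int.cast_natCast, ZMod.natCast_zmod_val]
  constructor
  · rintro ⟨t, ht⟩
    refine ⟨(k.val : ℤ) - 3 * t, ?_, ?_⟩
    · push_cast at ht
      linear_combination -ht
    · push_cast
      rw [ZMod.natCast_zmod_val]
      have : (3 : ZMod 3) = 0 := by decide
      rw [this]; ring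
  · rintro ⟨j, rfl, hj⟩
    rw [← hk, ZMod.intCast_eq_intCast_iff_dvd_sub] at hj
    obtain ⟨t, ht⟩ := hj
    refine ⟨t, ?_⟩
    push_cast at ht ⊢
    linear_combination (w : ℤ) * ht

theorem hit_on (hw : 0 < w) {σ : LS Q} (h : LInv w E x0 σ) (hon : σ.on = true) {l : Lab}
    (hl : mv l = 1 ∨ mv l = -1) :
    (|x0 + σ.c.s - w * σ.b + mv l| = w ∧ ∃ q : ℤ, x0 + σ.c.s + mv l = w * q ∧
      hit w θ R x0 { σ with c := cstep σ.c l } = ⟨cstep σ.c l, true, q, 0, σ.r + 1, σ.e + θ ^ σ.v,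
        σ.js ++ [σ.b], σ.Wa * R (σ.b : ZMod 3) ^ σ.v⟩) ∨
    (|x0 + σ.c.s - w * σ.b + mv l| < w ∧
      hit w θ R x0 { σ with c := cstep σ.c l } = { σ with c := cstep σ.c l }) := by
  have hw' : (0 : ℤ) < w := by exact_mod_cast hw
  have hnear := h.near hon
  have e1 : x0 + (cstep σ.c l).s = x0 + σ.c.s + mv l := by simp only [cstep]; ring
  by_cases hh : (w : ℤ) ∣ (x0 + (cstep σ.c l).s) ∧
      ¬ (σ.on = true ∧ x0 + (cstep σ.c l).s = w * σ.b)
  · left
    have hhit : hit w θ R x0 { σ with c := cstep σ.c l }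
        = newblk θ R ((x0 + (cstep σ.c l).s) / w) { σ with c := cstep σ.c l } := by
      simp only [hit]; rw [if_pos hh]
    obtain ⟨hd, hne⟩ := hh
    rw [e1] at hd hne
    have hne' : x0 + σ.c.s + mv l ≠ w * σ.b := fun h0 => hne ⟨hon, h0⟩
    obtain ⟨q, hq1, hq2⟩ := dvd_cases hw hl hnear hd hne'
    have hdiv : (x0 + (cstep σ.c l).s) / w = q := by
      rw [e1, hq1]; exact Int.mul_ediv_cancel_left _ hw'.ne'
    refine ⟨?_, q, hq1, ?_⟩
    · have : x0 + σ.c.s - w * σ.b + mv l = w * q - w * σ.b := by rw [← hq1]; ring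
      rw [this]
      rcases hq2 with hq2 | hq2
      · have : (w : ℤ) * q - w * σ.b = w := by rw [hq2]; ring
        rw [this, abs_of_pos hw']
      · have : (w : ℤ) * q - w * σ.b = -w := by rw [hq2]; ring
        rw [this, abs_neg, abs_of_pos hw']
    · rw [hhit, hdiv]
      simp only [newblk]; rw [if_pos hon]
  · right
    have hhit : hit w θ R x0 { σ with c := cstep σ.c l } = { σ with c := cstep σ.c l } := by
      simp only [hit]; rw [if_neg hh]
    refine ⟨?_, hhit⟩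
    have hInv := h
    rw [abs_lt] at hnear ⊢
    by_contra hcon
    have h3 : x0 + σ.c.s + mv l = w * (σ.b + 1) ∨ x0 + σ.c.s + mv l = w * (σ.b - 1) := by
      rw [mul_add, mul_sub, mul_one]
      generalize (w : ℤ) * σ.b = z at *
      rcases hl with hl | hl <;> rw [hl] at hcon ⊢ <;> omega
    apply hh
    refine ⟨?_, ?_⟩
    · rw [e1]
      rcases h3 with h3 | h3 <;> exact ⟨_, h3⟩
    · rintro ⟨_, h4⟩
      rw [e1] at h4
      rcases h3 with h3 | h3
      · rw [h3] at h4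
        have := mul_left_cancel₀ hw'.ne' h4
        omega
      · rw [h3] at h4
        have := mul_left_cancel₀ hw'.ne' h4
        omega

theorem hit_off {σ : LS Q} (hoff : σ.on = false) {l : Lab} :
    (∃ q : ℤ, (w : ℤ) ∣ (x0 + (cstep σ.c l).s) ∧ q = (x0 + (cstep σ.c l).s) / w ∧
      hit w θ R x0 { σ with c := cstep σ.c l } = ⟨cstep σ.c l, true, q, 0, 1, 0, [], 1⟩) ∨
    hit w θ R x0 { σ with c := cstep σ.c l } = { σ with c := cstep σ.c l } := by
  by_cases hh : (w : ℤ) ∣ (x0 + (cstep σ.c l).s) ∧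
      ¬ (σ.on = true ∧ x0 + (cstep σ.c l).s = w * σ.b)
  · left
    refine ⟨_, hh.1, rfl, ?_⟩
    simp only [hit]; rw [if_pos hh]
    simp only [newblk]; rw [if_neg]
    rw [hoff]; simp
  · right
    simp only [hit]; rw [if_neg hh]

theorem full_step (hw : 0 < w) {σ : LS Q} (h : LInv w E x0 σ) (l : Lab) :
    full R (lstep w θ R x0 σ l) = full R σ * op w R ((x0 + σ.c.s : ℤ) : ZMod (3 * w)) l := by
  have hw' : (0 : ℤ) < w := by exact_mod_cast hw
  have key : ∀ l : Lab, (mv l = 1 ∨ mv l = -1) →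
      full R (hit w θ R x0 { σ with c := cstep σ.c l }) = full R σ := by
    intro l hl
    by_cases hon : σ.on = true
    · rcases hit_on (θ := θ) (R := R) hw h hon hl with ⟨_, q, _, hq⟩ | ⟨_, hq⟩
      · rw [hq]; simp [full, hon]
      · rw [hq]; simp [full, hon]
    · have hoff : σ.on = false := by simpa using hon
      rcases hit_off (w := w) (θ := θ) (R := R) (x0 := x0) (l := l) hoff with ⟨q, _, _, hq⟩ | hq
      · rw [hq]; simp [full, hoff]
      · rw [hq]; simp [full, hoff]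
  cases l with
  | cp => simp only [op, mul_one]; exact key .cp (Or.inl rfl)
  | cm => simp only [op, mul_one]; exact key .cm (Or.inr rfl)
  | c0 => simp only [op, mul_one, lstep, full]
  | L k =>
    simp only [op, lstep, full]
    have hci := cast_iff hw (x0 + σ.c.s) k
    by_cases hon : σ.on = true
    · rw [if_pos hon, if_pos hon]
      have hnear := h.near hon
      have hiff : (∃ j : ℤ, x0 + σ.c.s = w * j ∧ (j : ZMod 3) = k) ↔
          ((w : ℤ) ∣ (x0 + σ.c.s) ∧ ((σ.b : ℤ) : ZMod 3) = k) := by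
        have hjb : ∀ j : ℤ, x0 + σ.c.s = w * j → j = σ.b := by
          intro j hj
          rw [hj, ← mul_sub, abs_mul, abs_of_pos hw'] at hnear
          have h1 : |j - σ.b| < 1 := by
            by_contra hcon
            rw [not_lt] at hcon
            nlinarith
          have := Int.abs_lt_one_iff.1 h1
          omega
        constructor
        · rintro ⟨j, hj, hk⟩
          have := hjb j hj
          subst this
          exact ⟨⟨_, hj⟩, hk⟩
        · rintro ⟨⟨j, hj⟩, hk⟩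
          exact ⟨j, hj, by rw [hjb j hj]; exact hk⟩
      by_cases hc : (w : ℤ) ∣ (x0 + σ.c.s) ∧ ((σ.b : ℤ) : ZMod 3) = k
      · rw [if_pos hc, if_pos (hci.2 (hiff.2 hc)), pow_succ, ← mul_assoc, hc.2]
      · rw [if_neg hc, if_neg (fun hx => hc (hiff.1 (hci.1 hx))), mul_one]
    · rw [if_neg hon, if_neg hon, if_neg, mul_one]
      have hoff : σ.on = false := by simpa using hon
      intro hx
      obtain ⟨j, hj, _⟩ := hci.1 hx
      exact (h.off hoff).1 ⟨j, hj⟩

theorem lstep_c (σ : LS Q) (l : Lab) : (lstep w θ R x0 σ l).c = cstep σ.c l := by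
  have key : ∀ l : Lab, (hit w θ R x0 { σ with c := cstep σ.c l }).c = cstep σ.c l := by
    intro l
    simp only [hit]
    split_ifs
    · simp only [newblk]; split_ifs <;> rfl
    · rfl
  cases l with
  | cp => exact key .cp
  | cm => exact key .cm
  | c0 => rfl
  | L k => rfl

theorem foldl_lstep_c : ∀ (L : List Lab) (σ : LS Q),
    (L.foldl (lstep w θ R x0) σ).c = L.foldl cstep σ.c
  | [], _ => rfl
  | l :: L, σ => by
    rw [List.foldl_cons, List.foldl_cons, foldl_lstep_c L, lstep_c]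

/-- the parameters of one type of lamp -/
structure Sys (Q : Type) [Fintype Q] [DecidableEq Q] (R E : ZMod 3 → Matrix Q Q ℝ) (θ : ℝ) :
    Prop where
  hR : ∀ k, R k ∈ doublyStochastic ℝ Q
  hE : ∀ k, E k ∈ doublyStochastic ℝ Q
  h0 : 0 ≤ θ
  h1 : θ < 1
  gap : ∀ k v, Bd (R k ^ v - E k) (θ ^ v)

theorem foldl_linv (S : Sys Q R E θ) (hw : 0 < w) (L : List Lab) {σ : LS Q}
    (h : LInv w E x0 σ) : LInv w E x0 (L.foldl (lstep w θ R x0) σ) :=
  foldl_inv (lstep w θ R x0) (LInv w E x0)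
    (fun _ h l => h.step hw S.hR S.hE S.h0 S.gap l) L σ h

theorem full_foldl (S : Sys Q R E θ) (hw : 0 < w) : ∀ (L : List Lab) (σ : LS Q),
    LInv w E x0 σ → full R (L.foldl (lstep w θ R x0) σ)
      = full R σ * Wm w R ((x0 + σ.c.s : ℤ) : ZMod (3 * w)) L
  | [], σ, _ => by simp [Wm]
  | l :: L, σ, h => by
    rw [List.foldl_cons, full_foldl S hw L _ (h.step hw S.hR S.hE S.h0 S.gap l),
      full_step hw h l, Wm, mul_assoc, lstep_c]
    congr 3
    simp only [cstep]; push_cast; ring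

/-- final history of a lamp -/
noncomputable def fin (w : ℕ) (θ : ℝ) (R : ZMod 3 → Matrix Q Q ℝ) (x0 : ℤ) (L : List Lab) : LS Q :=
  L.foldl (lstep w θ R x0) (init w x0)

theorem init_c (w : ℕ) (x0 : ℤ) : (init w x0 : LS Q).c = cur0 := by
  unfold init; split_ifs <;> rfl

theorem fin_inv (S : Sys Q R E θ) (hw : 0 < w) (x0 : ℤ) (L : List Lab) :
    LInv w E x0 (fin w θ R x0 L) := foldl_linv S hw L (init_inv hw x0)

theorem fin_c (L : List Lab) : (fin w θ R x0 L).c = cur L := by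
  rw [fin, foldl_lstep_c, init_c]; rfl

theorem full_fin (S : Sys Q R E θ) (hw : 0 < w) (x0 : ℤ) (L : List Lab) :
    full R (fin w θ R x0 L) = Wm w R (x0 : ZMod (3 * w)) L := by
  rw [fin, full_foldl S hw L _ (init_inv (E := E) hw x0), init_c]
  have : full R (init w x0 : LS Q) = 1 := by
    unfold init; split_ifs <;> simp [full]
  rw [this, one_mul]
  simp [cur0]

/-! ### Potentials -/

/-- tent function -/
noncomputable def uu (w : ℕ) (u0 : ℝ) (a : ℤ) : ℝ := u0 + (1 - u0) * (|a| : ℤ) / w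

/-- error potential -/
noncomputable def GG (w : ℕ) (θ u0 : ℝ) (x0 : ℤ) (σ : LS Q) : ℝ :=
  σ.e + (if σ.on = true then θ ^ σ.v * uu w u0 (x0 + σ.c.s - w * σ.b)
    + u0 * ((x0 + σ.c.s - w * σ.b : ℤ) : ℝ) ^ 2 / (w : ℝ) ^ 2 else 2 * u0)

/-- potential for the number of blocks -/
noncomputable def GR (w : ℕ) (x0 : ℤ) (σ : LS Q) : ℝ :=
  σ.r + (if σ.on = true then ((x0 + σ.c.s - w * σ.b : ℤ) : ℝ) ^ 2 / (w : ℝ) ^ 2 else 1)

theorem GG_hit_on (hw : 0 < w) {u0 : ℝ} {σ : LS Q} (h : LInv w E x0 σ) (hon : σ.on = true)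
    {l : Lab} (hl : mv l = 1 ∨ mv l = -1) :
    GG w θ u0 x0 (hit w θ R x0 { σ with c := cstep σ.c l })
      = σ.e + θ ^ σ.v * uu w u0 (x0 + σ.c.s - w * σ.b + mv l)
        + u0 * (((x0 + σ.c.s - w * σ.b : ℤ) : ℝ) + mv l) ^ 2 / (w : ℝ) ^ 2 := by
  have hwR : (0 : ℝ) < w := by exact_mod_cast hw
  rcases hit_on (θ := θ) (R := R) hw h hon hl with ⟨ha, q, hq1, hq⟩ | ⟨_, hq⟩
  · rw [hq]
    have h1 : x0 + (cstep σ.c l).s - w * q = 0 := by
      simp only [cstep]; rw [← add_assoc, hq1, sub_self]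
    have h2 : (((x0 + σ.c.s - w * σ.b : ℤ) : ℝ) + mv l) ^ 2 = (w : ℝ) ^ 2 := by
      have h3 : (((x0 + σ.c.s - w * σ.b + mv l : ℤ)) : ℝ) ^ 2 = (w : ℝ) ^ 2 := by
        rw [← sq_abs, ← Int.cast_abs, ha]; norm_cast
      rw [← h3]; push_cast; ring
    simp only [GG, if_true, h1, h2]
    simp only [uu, ha, abs_zero, Int.cast_zero, Int.cast_natCast]
    field_simp
    ring
  · rw [hq]
    have h1 : x0 + (cstep σ.c l).s - w * σ.b = x0 + σ.c.s - w * σ.b + mv l := by
      simp only [cstep]; ring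
    simp only [GG, hon, if_true, h1]
    push_cast
    ring

theorem GR_hit_on (hw : 0 < w) {σ : LS Q} (h : LInv w E x0 σ) (hon : σ.on = true)
    {l : Lab} (hl : mv l = 1 ∨ mv l = -1) :
    GR w x0 (hit w θ R x0 { σ with c := cstep σ.c l })
      = σ.r + (((x0 + σ.c.s - w * σ.b : ℤ) : ℝ) + mv l) ^ 2 / (w : ℝ) ^ 2 := by
  have hwR : (0 : ℝ) < w := by exact_mod_cast hw
  rcases hit_on (θ := θ) (R := R) hw h hon hl with ⟨ha, q, hq1, hq⟩ | ⟨_, hq⟩
  · rw [hq]
    have h1 : x0 + (cstep σ.c l).s - w * q = 0 := by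
      simp only [cstep]; rw [← add_assoc, hq1, sub_self]
    have h2 : (((x0 + σ.c.s - w * σ.b : ℤ) : ℝ) + mv l) ^ 2 = (w : ℝ) ^ 2 := by
      have h3 : (((x0 + σ.c.s - w * σ.b + mv l : ℤ)) : ℝ) ^ 2 = (w : ℝ) ^ 2 := by
        rw [← sq_abs, ← Int.cast_abs, ha]; norm_cast
      rw [← h3]; push_cast; ring
    simp only [GR, if_true, h1, h2, Int.cast_zero]
    push_cast
    field_simp
    ring
  · rw [hq]
    have h1 : x0 + (cstep σ.c l).s - w * σ.b = x0 + σ.c.s - w * σ.b + mv l := by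
      simp only [cstep]; ring
    simp only [GR, hon, if_true, h1]
    push_cast
    ring

theorem GG_hit_off (hw : 0 < w) {u0 : ℝ} (hu : 0 ≤ u0) {σ : LS Q} (h : LInv w E x0 σ)
    (hoff : σ.on = false) {l : Lab} :
    GG w θ u0 x0 (hit w θ R x0 { σ with c := cstep σ.c l }) ≤ 2 * u0 := by
  obtain ⟨_, _, _, he, _, _⟩ := h.off hoff
  rcases hit_off (w := w) (θ := θ) (R := R) (x0 := x0) (l := l) hoff with ⟨q, hd, hq', hq⟩ | hq
  · rw [hq]
    have h1 : x0 + (cstep σ.c l).s - w * q = 0 := by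
      rw [hq', Int.mul_ediv_cancel' hd, sub_self]
    simp only [GG, if_true, h1, uu]
    simp
    linarith
  · rw [hq]
    simp [GG, hoff, he]

theorem GR_hit_off (hw : 0 < w) {σ : LS Q} (h : LInv w E x0 σ)
    (hoff : σ.on = false) {l : Lab} :
    GR w x0 (hit w θ R x0 { σ with c := cstep σ.c l }) ≤ 1 := by
  obtain ⟨_, _, hr, he, _, _⟩ := h.off hoff
  rcases hit_off (w := w) (θ := θ) (R := R) (x0 := x0) (l := l) hoff with ⟨q, hd, hq', hq⟩ | hq
  · rw [hq]
    have h1 : x0 + (cstep σ.c l).s - w * q = 0 := by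
      rw [hq', Int.mul_ediv_cancel' hd, sub_self]
    simp only [GR, if_true, h1]
    simp
  · rw [hq]
    simp [GR, hoff, hr]

variable {m : ℕ}

theorem abs_sum_aux {a : ℤ} (ha : a ≠ 0) : |a + 1| + |a - 1| = 2 * |a| := by
  rcases lt_or_gt_of_ne ha with h | h
  · rw [abs_of_nonpos (by omega : a + 1 ≤ 0), abs_of_neg (by omega : a - 1 < 0), abs_of_neg h]
    ring
  · rw [abs_of_pos (by omega : 0 < a + 1), abs_of_nonneg (by omega : 0 ≤ a - 1), abs_of_pos h]
    ring

theorem GG_drift (S : Sys Q R E θ) (hw : 0 < w) {u0 : ℝ} (hu : 0 ≤ u0)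
    (hu0 : 1 - u0 ≤ u0 * m * (1 - θ) * w) {σ : LS Q} (h : LInv w E x0 σ) :
    ex1 m (fun l => GG w θ u0 x0 (lstep w θ R x0 σ l))
      ≤ GG w θ u0 x0 σ + u0 / (dd m * (w : ℝ) ^ 2) := by
  have hd := dd_pos m
  have hwR : (0 : ℝ) < w := by exact_mod_cast hw
  have hw' : (0 : ℤ) < w := by exact_mod_cast hw
  by_cases hon : σ.on = true
  · have e1 : GG w θ u0 x0 (lstep w θ R x0 σ .cp) = _ :=
      GG_hit_on (θ := θ) (R := R) (u0 := u0) hw h hon (l := .cp) (Or.inl rfl)
    have e2 : GG w θ u0 x0 (lstep w θ R x0 σ .cm) = _ :=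
      GG_hit_on (θ := θ) (R := R) (u0 := u0) hw h hon (l := .cm) (Or.inr rfl)
    have e3 : GG w θ u0 x0 (lstep w θ R x0 σ .c0) = GG w θ u0 x0 σ := by
      simp only [lstep]; rw [cstep_stay h.ci rfl]
    simp only [ex1]
    rw [e1, e2, e3]
    simp only [mv]
    set a : ℤ := x0 + σ.c.s - w * σ.b with ha
    by_cases ha0 : a = 0
    · -- at the head
      have hdvd : (w : ℤ) ∣ (x0 + σ.c.s) := ⟨σ.b, by linarith [ha.symm.trans ha0]⟩
      have e4 : ∀ k, GG w θ u0 x0 (lstep w θ R x0 σ (.L k))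
          = if ((σ.b : ℤ) : ZMod 3) = k then σ.e + θ ^ (σ.v + 1) * u0 else σ.e + θ ^ σ.v * u0 := by
        intro k
        simp only [lstep, GG, hon, if_true]
        rw [cstep_stay h.ci rfl, ← ha, ha0]
        simp only [uu, abs_zero, Int.cast_zero, mul_zero, zero_div, add_zero, hdvd, true_and]
        split_ifs <;> simp
      simp only [e4]
      have e5 : GG w θ u0 x0 σ = σ.e + θ ^ σ.v * u0 := by
        simp only [GG, hon, if_true, ← ha, ha0, uu]
        simp
      rw [e5, ha0]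
      have e6 : ∑ k : ZMod 3, (if ((σ.b : ℤ) : ZMod 3) = k then σ.e + θ ^ (σ.v + 1) * u0
          else σ.e + θ ^ σ.v * u0) = 3 * σ.e + (θ + 2) * θ ^ σ.v * u0 := by
        have h6 : ∀ k : ZMod 3, (if ((σ.b : ℤ) : ZMod 3) = k then σ.e + θ ^ (σ.v + 1) * u0
          else σ.e + θ ^ σ.v * u0) = (σ.e + θ ^ σ.v * u0)
            + (if ((σ.b : ℤ) : ZMod 3) = k then θ ^ (σ.v + 1) * u0 - θ ^ σ.v * u0 else 0) := by
          intro k; split_ifs <;> ring
        simp only [h6]
        rw [Finset.sum_add_distrib, Finset.sum_const, Finset.card_univ, ZMod.card,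
          Finset.sum_ite_eq]
        simp only [Finset.mem_univ, if_true, nsmul_eq_mul]
        push_cast
        ring
      rw [e6]
      simp only [uu]
      have hθv : 0 ≤ θ ^ σ.v := pow_nonneg S.h0 _
      have h7 : (1 - u0) / w ≤ u0 * m * (1 - θ) := by
        rw [div_le_iff₀ hwR]; exact hu0
      have h8 : θ ^ σ.v * ((1 - u0) / w) ≤ θ ^ σ.v * (u0 * m * (1 - θ)) :=
        mul_le_mul_of_nonneg_left h7 hθv
      have e7 : (|(0 : ℤ) + 1| : ℤ) = 1 := by norm_num
      have e8 : (|(0 : ℤ) + -1| : ℤ) = 1 := by norm_num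
      rw [e7, e8]
      have h9 : 1 / (2 * dd m) * (σ.e + θ ^ σ.v * (u0 + (1 - u0) * ((1 : ℤ) : ℝ) / w)
            + u0 * (((0 : ℤ) : ℝ) + ((1 : ℤ) : ℝ)) ^ 2 / (w : ℝ) ^ 2
            + (σ.e + θ ^ σ.v * (u0 + (1 - u0) * ((1 : ℤ) : ℝ) / w)
              + u0 * (((0 : ℤ) : ℝ) + ((-1 : ℤ) : ℝ)) ^ 2 / (w : ℝ) ^ 2))
          + 1 / dd m * (σ.e + θ ^ σ.v * u0)
          + m / dd m * (3 * σ.e + (θ + 2) * θ ^ σ.v * u0)
          = σ.e + θ ^ σ.v * u0 + u0 / (dd m * (w : ℝ) ^ 2)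
            + 1 / dd m * (θ ^ σ.v * ((1 - u0) / w) - θ ^ σ.v * (u0 * m * (1 - θ))) := by
        push_cast
        field_simp
        unfold dd
        ring
      rw [h9]
      have h10 : 1 / dd m * (θ ^ σ.v * ((1 - u0) / w) - θ ^ σ.v * (u0 * m * (1 - θ))) ≤ 0 :=
        mul_nonpos_of_nonneg_of_nonpos (by positivity) (by linarith)
      linarith
    · -- away from the head
      have hndvd : ¬ (w : ℤ) ∣ (x0 + σ.c.s) := by
        rintro ⟨q, hq⟩
        have hn := h.near hon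
        rw [hq, ← mul_sub, abs_mul, abs_of_pos hw'] at hn
        have h1 : |q - σ.b| < 1 := by
          by_contra hcon
          rw [not_lt] at hcon
          nlinarith
        have h2 := Int.abs_lt_one_iff.1 h1
        apply ha0
        rw [ha, hq, ← mul_sub, h2, mul_zero]
      have e4 : ∀ k, GG w θ u0 x0 (lstep w θ R x0 σ (.L k)) = GG w θ u0 x0 σ := by
        intro k
        simp only [lstep, GG]
        rw [cstep_stay h.ci rfl]
        simp [hndvd]
      simp only [e4]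
      rw [Finset.sum_const, Finset.card_univ, ZMod.card]
      have e5 : GG w θ u0 x0 σ = σ.e + θ ^ σ.v * uu w u0 a
          + u0 * (a : ℝ) ^ 2 / (w : ℝ) ^ 2 := by
        simp only [GG, hon, if_true, ← ha]; ring
      rw [e5]
      have habs : ((|a + 1| : ℤ) : ℝ) + ((|a + -1| : ℤ) : ℝ) = 2 * ((|a| : ℤ) : ℝ) := by
        have := abs_sum_aux ha0
        rw [sub_eq_add_neg] at this
        exact_mod_cast this
      have h9 : uu w u0 (a + 1) + uu w u0 (a + -1) = 2 * uu w u0 a := by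
        simp only [uu]
        have : (1 - u0) * ((|a + 1| : ℤ) : ℝ) / w + (1 - u0) * ((|a + -1| : ℤ) : ℝ) / w
            = (1 - u0) * (((|a + 1| : ℤ) : ℝ) + ((|a + -1| : ℤ) : ℝ)) / w := by ring
        rw [habs] at this
        have h11 : (1 - u0) * (2 * ((|a| : ℤ) : ℝ)) / w = 2 * ((1 - u0) * ((|a| : ℤ) : ℝ) / w) := by
          ring
        rw [h11] at this
        linarith
      have h10 : uu w u0 (a + -1) = 2 * uu w u0 a - uu w u0 (a + 1) := by linarith
      rw [h10]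
      refine le_of_eq ?_
      simp only [nsmul_eq_mul]
      push_cast
      field_simp
      unfold dd
      ring
  · have hoff : σ.on = false := by simpa using hon
    obtain ⟨hnd, hv, _, he, _, _⟩ := h.off hoff
    have e0 : GG w θ u0 x0 σ = 2 * u0 := by simp [GG, hoff, he]
    have h1 : ∀ l, GG w θ u0 x0 (lstep w θ R x0 σ l) ≤ 2 * u0 := by
      intro l
      cases l with
      | cp => exact GG_hit_off hw hu h hoff
      | cm => exact GG_hit_off hw hu h hoff
      | c0 => simp [lstep, GG, hoff, he]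
      | L k => simp [lstep, GG, hoff, he]
    refine (ex1_mono h1).trans ?_
    rw [ex1_const, e0]
    have : 0 ≤ u0 / (dd m * (w : ℝ) ^ 2) := by positivity
    linarith

theorem GR_drift (S : Sys Q R E θ) (hw : 0 < w) {σ : LS Q} (h : LInv w E x0 σ) :
    ex1 m (fun l => GR w x0 (lstep w θ R x0 σ l)) ≤ GR w x0 σ + 1 / (dd m * (w : ℝ) ^ 2) := by
  have hd := dd_pos m
  have hwR : (0 : ℝ) < w := by exact_mod_cast hw
  by_cases hon : σ.on = true
  · have e1 : GR w x0 (lstep w θ R x0 σ .cp) = _ :=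
      GR_hit_on (θ := θ) (R := R) hw h hon (l := .cp) (Or.inl rfl)
    have e2 : GR w x0 (lstep w θ R x0 σ .cm) = _ :=
      GR_hit_on (θ := θ) (R := R) hw h hon (l := .cm) (Or.inr rfl)
    have e3 : GR w x0 (lstep w θ R x0 σ .c0) = GR w x0 σ := by
      simp only [lstep]; rw [cstep_stay h.ci rfl]
    have e4 : ∀ k, GR w x0 (lstep w θ R x0 σ (.L k)) = GR w x0 σ := by
      intro k
      simp only [lstep, GR]
      rw [cstep_stay h.ci rfl]
    simp only [ex1]
    rw [e1, e2, e3]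
    simp only [e4, mv]
    rw [Finset.sum_const, Finset.card_univ, ZMod.card]
    simp only [GR, hon, if_true]
    refine le_of_eq ?_
    simp only [nsmul_eq_mul]
    push_cast
    field_simp
    unfold dd
    ring
  · have hoff : σ.on = false := by simpa using hon
    obtain ⟨hnd, hv, hr, he, _, _⟩ := h.off hoff
    have e0 : GR w x0 σ = 1 := by simp [GR, hoff, hr]
    have h1 : ∀ l, GR w x0 (lstep w θ R x0 σ l) ≤ 1 := by
      intro l
      cases l with
      | cp => exact GR_hit_off hw h hoff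
      | cm => exact GR_hit_off hw h hoff
      | c0 => simp [lstep, GR, hoff, hr]
      | L k => simp [lstep, GR, hoff, hr]
    refine (ex1_mono h1).trans ?_
    rw [ex1_const, e0]
    have : 0 ≤ 1 / (dd m * (w : ℝ) ^ 2) := by positivity
    linarith

theorem GG_init (hw : 0 < w) {u0 : ℝ} (hu : 0 ≤ u0) : GG w θ u0 x0 (init w x0 : LS Q) ≤ 2 * u0 := by
  unfold init
  split_ifs with hd
  · simp only [GG, if_true, cur0, add_zero, Int.mul_ediv_cancel' hd, sub_self, uu]
    simp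
    linarith
  · simp [GG]

theorem GR_init (hw : 0 < w) : GR w x0 (init w x0 : LS Q) ≤ 1 := by
  unfold init
  split_ifs with hd
  · simp only [GR, if_true, cur0, add_zero, Int.mul_ediv_cancel' hd, sub_self]
    simp
  · simp [GR]

theorem Ex_GG (S : Sys Q R E θ) (hw : 0 < w) {u0 : ℝ} (hu : 0 ≤ u0)
    (hu0 : 1 - u0 ≤ u0 * m * (1 - θ) * w) (x0 : ℤ) (t : ℕ) :
    Ex m t (fun L => GG w θ u0 x0 (fin w θ R x0 L)) ≤ u0 * (2 + t / (dd m * (w : ℝ) ^ 2)) := by
  have h1 := Ex_foldl_le (m := m) (lstep w θ R x0) (GG w θ u0 x0) (LInv w E x0)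
    (u0 / (dd m * (w : ℝ) ^ 2)) (fun _ h l => h.step hw S.hR S.hE S.h0 S.gap l)
    (fun σ h => GG_drift S hw hu hu0 h) t (init w x0) (init_inv hw x0)
  refine h1.trans ?_
  have h2 := GG_init (Q := Q) (θ := θ) (x0 := x0) hw hu
  have h3 : u0 * (2 + t / (dd m * (w : ℝ) ^ 2)) = 2 * u0 + t * (u0 / (dd m * (w : ℝ) ^ 2)) := by
    ring
  rw [h3]
  linarith

theorem Ex_GR (S : Sys Q R E θ) (hw : 0 < w) (x0 : ℤ) (t : ℕ) :
    Ex m t (fun L => GR w x0 (fin w θ R x0 L)) ≤ 1 + t / (dd m * (w : ℝ) ^ 2) := by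
  have h1 := Ex_foldl_le (m := m) (lstep w θ R x0) (GR w x0) (LInv w E x0)
    (1 / (dd m * (w : ℝ) ^ 2)) (fun _ h l => h.step hw S.hR S.hE S.h0 S.gap l)
    (fun σ h => GR_drift S hw h) t (init w x0) (init_inv hw x0)
  refine h1.trans ?_
  have h2 := GR_init (Q := Q) (x0 := x0) hw
  rw [mul_one_div]
  linarith

end Pool.Agent.D0H96
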