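import Pool.Agent.D0H96.Mach2

/-! Consequences of the history invariants. -/

set_option linter.unusedSectionVars false

namespace Pool.Agent.D0H96

open Finset Matrix

variable {Q : Type} [Fintype Q] [DecidableEq Q]
variable {w : ℕ} {θ : ℝ} {R E : ZMod 3 → Matrix Q Q ℝ} {x0 : ℤ}

/-- properties of products of the projections -/
structure Words (E : ZMod 3 → Matrix Q Q ℝ) (N : ℕ) : Prop where
  short : ∀ js, Chn js → (∀ k : ZMod 3, ∃ j ∈ js, ((j : ℤ) : ZMod 3) = k) →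
    Bd0 (wd E js) (1 / Real.sqrt N)
  long : ∀ js, Chn js → (∀ k : ZMod 3, ∃ j ∈ js, ((j : ℤ) : ZMod 3) = k) →
    (∃ a ∈ js, ∃ c ∈ js, (N : ℤ) - 1 ≤ c - a) → Bd0 (wd E js) 0

theorem cover (hw : 0 < w) {σ : LS Q} (h : LInv w E x0 σ) {K : ℤ}
    (hr : (K + 1) * w ≤ σ.c.mx - σ.c.mn) :
    ∃ j0 : ℤ, ∀ i : ℤ, 0 ≤ i → i ≤ K → σ.on = true ∧ (j0 + i = σ.b ∨ j0 + i ∈ σ.js) := by
  have hw' : (0 : ℤ) < w := by exact_mod_cast hw
  refine ⟨-((-(x0 + σ.c.mn)) / w), fun i hi0 hiK => ?_⟩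
  have h1 := Int.ediv_mul_le (-(x0 + σ.c.mn)) hw'.ne'
  have h2 := Int.lt_ediv_add_one_mul_self (-(x0 + σ.c.mn)) hw'
  generalize (-(x0 + σ.c.mn)) / (w : ℤ) = d at *
  refine (h.cov _).1 ⟨?_, ?_⟩
  · nlinarith
  · nlinarith

theorem all_types {js : List ℤ} {b j0 : ℤ}
    (h : ∀ i : ℤ, 0 ≤ i → i ≤ 5 → (j0 + i = b ∨ j0 + i ∈ js)) (k : ZMod 3) :
    ∃ j ∈ js, ((j : ℤ) : ZMod 3) = k := by
  have key : ∀ i : ℤ, 0 ≤ i → i ≤ 2 → ((j0 + i : ℤ) : ZMod 3) = k →
      ∃ j ∈ js, ((j : ℤ) : ZMod 3) = k := by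
    intro i h0 h2 hk
    rcases h i h0 (by omega) with h3 | h3
    · rcases h (i + 3) (by omega) (by omega) with h4 | h4
      · omega
      · refine ⟨_, h4, ?_⟩
        rw [← hk]
        push_cast
        have : (3 : ZMod 3) = 0 := by decide
        rw [this]; ring
    · exact ⟨_, h3, hk⟩
  have h3 : ∀ a k : ZMod 3, a = k ∨ a + 1 = k ∨ a + 2 = k := by decide
  rcases h3 ((j0 : ℤ) : ZMod 3) k with h4 | h4 | h4
  · exact key 0 le_rfl (by norm_num) (by push_cast; rw [add_zero]; exact h4)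
  · exact key 1 (by norm_num) (by norm_num) (by push_cast; exact h4)
  · exact key 2 (by norm_num) le_rfl (by push_cast; exact h4)

theorem bd0_mul_DS {A B : Matrix Q Q ℝ} {c : ℝ} (hc : 0 ≤ c) (hA : Bd0 A c)
    (hB : B ∈ doublyStochastic ℝ Q) : Bd0 (A * B) c := by
  intro f hf
  rw [← Matrix.mulVec_mulVec]
  refine (hA _ (by rw [DS_sum hB, hf])).trans ?_
  have := DS_Bd hB f
  rw [one_mul] at this
  exact mul_le_mul_of_nonneg_left this hc

theorem full_long (S : Sys Q R E θ) {N : ℕ} (hN : 3 ≤ N) (hW : Words E N) (hw : 0 < w)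
    {σ : LS Q} (h : LInv w E x0 σ) (hr : ((N : ℤ) + 3) * w ≤ σ.c.mx - σ.c.mn) :
    Bd0 (full R σ) σ.e := by
  obtain ⟨j0, hj0⟩ := cover hw h (K := N + 2) (by linarith)
  have hon : σ.on = true := (hj0 0 le_rfl (by omega)).1
  have hmem : ∀ i : ℤ, 0 ≤ i → i ≤ N + 2 → (j0 + i = σ.b ∨ j0 + i ∈ σ.js) :=
    fun i h0 h1 => (hj0 i h0 h1).2
  have hch : Chn σ.js := List.IsChain.left_of_append (h.chn hon)
  have hall := all_types (js := σ.js) (b := σ.b) (j0 := j0)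
    (fun i h0 h1 => hmem i h0 (by omega))
  have ha : ∃ a ∈ σ.js, a = j0 ∨ a = j0 + 1 := by
    rcases hmem 0 le_rfl (by omega) with h1 | h1
    · rcases hmem 1 (by omega) (by omega) with h2 | h2
      · omega
      · exact ⟨_, h2, Or.inr rfl⟩
    · exact ⟨_, h1, Or.inl (by ring)⟩
  have hc : ∃ c ∈ σ.js, c = j0 + (N + 1) ∨ c = j0 + (N + 2) := by
    rcases hmem (N + 1) (by omega) (by omega) with h1 | h1
    · rcases hmem (N + 2) (by omega) (by omega) with h2 | h2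
      · omega
      · exact ⟨_, h2, Or.inr rfl⟩
    · exact ⟨_, h1, Or.inl rfl⟩
  obtain ⟨a, ha1, ha2⟩ := ha
  obtain ⟨c, hc1, hc2⟩ := hc
  have hlong := hW.long σ.js hch hall ⟨a, ha1, c, hc1, by omega⟩
  have hWa : Bd0 σ.Wa σ.e := by
    have h1 := h.err.bd0.add hlong
    rw [sub_add_cancel, add_zero] at h1
    exact h1
  simp only [full, hon, if_true]
  exact bd0_mul_DS h.e0 hWa (pow_mem (S.hR _) _)

theorem full_short (S : Sys Q R E θ) {N : ℕ} (hW : Words E N) (hw : 0 < w)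
    {σ : LS Q} (h : LInv w E x0 σ) (hr : (6 : ℤ) * w ≤ σ.c.mx - σ.c.mn) :
    Bd0 (full R σ) (σ.e + 1 / Real.sqrt N) := by
  obtain ⟨j0, hj0⟩ := cover hw h (K := 5) (by linarith)
  have hon : σ.on = true := (hj0 0 le_rfl (by omega)).1
  have hch : Chn σ.js := List.IsChain.left_of_append (h.chn hon)
  have hall := all_types (js := σ.js) (b := σ.b) (j0 := j0)
    (fun i h0 h1 => (hj0 i h0 h1).2)
  have hs := hW.short σ.js hch hall
  have hWa : Bd0 σ.Wa (σ.e + 1 / Real.sqrt N) := by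
    have h1 := h.err.bd0.add hs
    rw [sub_add_cancel] at h1
    exact h1
  simp only [full, hon, if_true]
  exact bd0_mul_DS (add_nonneg h.e0 (by positivity)) hWa (pow_mem (S.hR _) _)

/-- blocks started so far -/
def sw (σ : LS Q) : List ℤ := if σ.on = true then σ.js ++ [σ.b] else []

theorem sw_len {σ : LS Q} (h : LInv w E x0 σ) : (sw σ).length = σ.r := by
  by_cases hon : σ.on = true
  · simp [sw, hon, h.len hon]
  · have hoff : σ.on = false := by simpa using hon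
    simp [sw, hoff, (h.off hoff).2.2.1]

theorem sw_chn {σ : LS Q} (h : LInv w E x0 σ) : Chn (sw σ) := by
  by_cases hon : σ.on = true
  · simp only [sw, hon, if_true]; exact h.chn hon
  · simp only [sw, hon]; exact List.isChain_nil

theorem sw_range (hw : 0 < w) {N ρ : ℕ} (hρ : 2 * (ρ : ℤ) ≤ ((N : ℤ) - 2) * w) {σ : LS Q}
    (h : LInv w E x0 σ) (hal : σ.c.Al ρ) :
    ∃ hi : ℤ, ∀ i ∈ sw σ, i ≤ hi ∧ hi ≤ i + ((N : ℤ) - 2) := by
  have hw' : (0 : ℤ) < w := by exact_mod_cast hw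
  by_cases hon : σ.on = true
  · refine ⟨(x0 + σ.c.mx) / w, fun i hi => ?_⟩
    have hi' : i = σ.b ∨ i ∈ σ.js := by
      simp only [sw, hon, if_true, List.mem_append, List.mem_singleton] at hi
      tauto
    have hc := (h.cov i).2 ⟨hon, hi'⟩
    have h1 := Int.ediv_mul_le (x0 + σ.c.mx) hw'.ne'
    have h2 := Int.lt_ediv_add_one_mul_self (x0 + σ.c.mx) hw'
    have h3 := hal.1
    have h4 := hal.2
    generalize (x0 + σ.c.mx) / (w : ℤ) = d at *
    constructor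
    · by_contra hcon
      rw [not_le] at hcon
      nlinarith
    · by_contra hcon
      rw [not_le] at hcon
      nlinarith
  · refine ⟨0, fun i hi => ?_⟩
    simp [sw, hon] at hi

theorem full_sw (S : Sys Q R E θ) {σ : LS Q} (h : LInv w E x0 σ) :
    Bd (full R σ - wd E (sw σ)) (if σ.on = true then σ.e + θ ^ σ.v else 0) := by
  by_cases hon : σ.on = true
  · simp only [full, sw, hon, if_true]
    exact err_step S.hR S.hE S.gap h.err h.e0 _ _
  · simp only [full, sw, hon]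
    simp only [Bool.false_eq_true, if_false, wd_nil, sub_self]
    exact Bd_zero

theorem e_le_GG (S : Sys Q R E θ) {u0 : ℝ} (hu : 0 ≤ u0) (hu1 : u0 ≤ 1) {σ : LS Q} :
    σ.e ≤ GG w θ u0 x0 σ := by
  unfold GG
  have h1 := S.h0
  have h2 : 0 ≤ uu w u0 (x0 + σ.c.s - w * σ.b) := by
    unfold uu
    have : (0 : ℝ) ≤ ((|x0 + σ.c.s - w * σ.b| : ℤ) : ℝ) := by exact_mod_cast abs_nonneg _
    have h3 : 0 ≤ 1 - u0 := by linarith
    positivity
  split_ifs
  · have h3 := pow_nonneg h1 σ.v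
    have : 0 ≤ θ ^ σ.v * uu w u0 (x0 + σ.c.s - w * σ.b)
      + u0 * ((x0 + σ.c.s - w * σ.b : ℤ) : ℝ) ^ 2 / (w : ℝ) ^ 2 := by positivity
    linarith
  · linarith

theorem GG_nonneg (S : Sys Q R E θ) {u0 : ℝ} (hu : 0 ≤ u0) (hu1 : u0 ≤ 1) {σ : LS Q}
    (h : LInv w E x0 σ) : 0 ≤ GG w θ u0 x0 σ := h.e0.trans (e_le_GG S hu hu1)

theorem GR_ge (σ : LS Q) : (σ.r : ℝ) ≤ GR w x0 σ := by
  unfold GR
  split_ifs
  · have : 0 ≤ ((x0 + σ.c.s - w * σ.b : ℤ) : ℝ) ^ 2 / (w : ℝ) ^ 2 := by positivity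
    linarith
  · linarith

/-- the lamps away from the heads -/
def far (w : ℕ) (z : ZMod (3 * w)) : Prop := w ≤ 4 * z.val ∧ 4 * z.val ≤ 3 * w

instance (w : ℕ) (z : ZMod (3 * w)) : Decidable (far w z) := instDecidableAnd

theorem far_err (S : Sys Q R E θ) (hw : 0 < w) {u0 : ℝ} (hu : 0 ≤ u0) (hu1 : u0 ≤ 1)
    {σ : LS Q} (h : LInv w E x0 σ) (hf : far w ((x0 + σ.c.s : ℤ) : ZMod (3 * w))) :
    (if σ.on = true then σ.e + θ ^ σ.v else 0) ≤ 4 * GG w θ u0 x0 σ := by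
  have hG := GG_nonneg S hu hu1 h
  have hwR : (0 : ℝ) < w := by exact_mod_cast hw
  by_cases hon : σ.on = true
  · rw [if_pos hon]
    have hnear := h.near hon
    -- the distance to the head is at least a quarter
    have hfar : (w : ℤ) ≤ 4 * |x0 + σ.c.s - w * σ.b| := by
      have h3w : 0 < 3 * w := by omega
      haveI : NeZero (3 * w) := ⟨h3w.ne'⟩
      obtain ⟨f1, f2⟩ := hf
      have hval : (((((x0 + σ.c.s : ℤ) : ZMod (3 * w))).val : ℕ) : ℤ)
          = (x0 + σ.c.s) % ((3 * w : ℕ) : ℤ) := ZMod.val_intCast _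
      generalize ((x0 + σ.c.s : ℤ) : ZMod (3 * w)).val = z at *
      have hdm := Int.emod_add_mul_ediv (x0 + σ.c.s) ((3 * w : ℕ) : ℤ)
      rw [← hval] at hdm
      generalize (x0 + σ.c.s) / ((3 * w : ℕ) : ℤ) = t at *
      push_cast at hdm
      have hx : x0 + σ.c.s - w * σ.b = z - w * (σ.b - 3 * t) := by linarith
      rw [hx] at hnear ⊢
      generalize σ.b - 3 * t = s' at *
      have hw' : (0 : ℤ) < w := by exact_mod_cast hw
      have f1' : (w : ℤ) ≤ 4 * z := by exact_mod_cast f1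
      have f2' : 4 * (z : ℤ) ≤ 3 * w := by exact_mod_cast f2
      rw [abs_lt] at hnear
      have hs0 : 0 ≤ s' := by
        by_contra hcon
        have : s' ≤ -1 := by omega
        nlinarith
      have hs1 : s' ≤ 1 := by
        by_contra hcon
        have : 2 ≤ s' := by omega
        nlinarith
      have hs : s' = 0 ∨ s' = 1 := by omega
      rcases hs with rfl | rfl
      · rw [mul_zero, sub_zero, abs_of_nonneg (by positivity)]; exact f1'
      · rw [mul_one, abs_of_nonpos (by linarith)]; linarith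
    have h4 : (1 : ℝ) / 4 ≤ uu w u0 (x0 + σ.c.s - w * σ.b) := by
      unfold uu
      have h5 : (w : ℝ) ≤ 4 * ((|x0 + σ.c.s - w * σ.b| : ℤ) : ℝ) := by exact_mod_cast hfar
      have h6 : (1 : ℝ) / 4 ≤ ((|x0 + σ.c.s - w * σ.b| : ℤ) : ℝ) / w := by
        rw [le_div_iff₀ hwR]; linarith
      have h7 : (1 - u0) * (1 / 4) ≤ (1 - u0) * (((|x0 + σ.c.s - w * σ.b| : ℤ) : ℝ) / w) :=
        mul_le_mul_of_nonneg_left h6 (by linarith)
      rw [mul_div_assoc]
      linarith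
    unfold GG
    rw [if_pos hon]
    have h5 := pow_nonneg S.h0 σ.v
    have h6 : θ ^ σ.v * (1 / 4) ≤ θ ^ σ.v * uu w u0 (x0 + σ.c.s - w * σ.b) :=
      mul_le_mul_of_nonneg_left h4 h5
    have h7 : 0 ≤ u0 * ((x0 + σ.c.s - w * σ.b : ℤ) : ℝ) ^ 2 / (w : ℝ) ^ 2 := by positivity
    have h8 := h.e0
    linarith
  · rw [if_neg hon]; linarith

end Pool.Agent.D0H96
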