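import Mathlib

/-! The Euclidean norm of functions on a finite set, and bounds for matrices acting on them. -/

set_option linter.unusedSectionVars false

namespace Pool.Agent.D0H96

open Matrix Finset

variable {Q : Type} [Fintype Q]

/-- Euclidean norm of a function. -/
noncomputable def nrm (f : Q → ℝ) : ℝ := Real.sqrt (∑ q, f q ^ 2)

theorem nrm_eq (f : Q → ℝ) : nrm f = ‖(WithLp.toLp 2 f : EuclideanSpace ℝ Q)‖ := by
  rw [EuclideanSpace.norm_eq, nrm]; simp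

theorem nrm_nonneg (f : Q → ℝ) : 0 ≤ nrm f := Real.sqrt_nonneg _

theorem nrm_sq (f : Q → ℝ) : nrm f ^ 2 = ∑ q, f q ^ 2 :=
  Real.sq_sqrt (Finset.sum_nonneg fun _ _ => sq_nonneg _)

theorem nrm_add_le (f g : Q → ℝ) : nrm (f + g) ≤ nrm f + nrm g := by
  rw [nrm_eq, nrm_eq, nrm_eq, WithLp.toLp_add]; exact norm_add_le _ _

theorem nrm_sub_le (f g : Q → ℝ) : nrm (f - g) ≤ nrm f + nrm g := by
  rw [nrm_eq, nrm_eq, nrm_eq, WithLp.toLp_sub]; exact norm_sub_le _ _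

theorem nrm_smul (c : ℝ) (f : Q → ℝ) : nrm (c • f) = |c| * nrm f := by
  rw [nrm_eq, nrm_eq, WithLp.toLp_smul, norm_smul, Real.norm_eq_abs]

@[simp] theorem nrm_zero : nrm (0 : Q → ℝ) = 0 := by
  rw [nrm_eq]; simp

theorem nrm_sum_le {ι : Type} (s : Finset ι) (f : ι → Q → ℝ) :
    nrm (∑ i ∈ s, f i) ≤ ∑ i ∈ s, nrm (f i) := by
  classical
  induction s using Finset.induction_on with
  | empty => simp
  | insert a s ha ih =>
    rw [Finset.sum_insert ha, Finset.sum_insert ha]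
    exact (nrm_add_le _ _).trans (by linarith)

theorem abs_le_nrm (f : Q → ℝ) (q : Q) : |f q| ≤ nrm f := by
  rw [nrm, ← Real.sqrt_sq_eq_abs]
  exact Real.sqrt_le_sqrt (Finset.single_le_sum (f := fun q => f q ^ 2)
    (fun _ _ => sq_nonneg _) (Finset.mem_univ q))

theorem nrm_eq_zero {f : Q → ℝ} (h : nrm f = 0) : f = 0 := by
  funext q
  have := abs_le_nrm f q
  rw [h] at this
  simpa using this

theorem nrm_le_of_abs_le {f : Q → ℝ} {B : ℝ} (hB : 0 ≤ B) (h : ∀ q, |f q| ≤ B) :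
    nrm f ≤ Real.sqrt (Fintype.card Q) * B := by
  rw [nrm, ← Real.sqrt_sq hB, ← Real.sqrt_mul (Nat.cast_nonneg _)]
  refine Real.sqrt_le_sqrt ?_
  calc ∑ q, f q ^ 2 ≤ ∑ _q : Q, B ^ 2 :=
        Finset.sum_le_sum fun q _ => by
          rw [← sq_abs]; exact pow_le_pow_left₀ (abs_nonneg _) (h q) 2
    _ = Fintype.card Q * B ^ 2 := by simp

/-- Cauchy-Schwarz. -/
theorem sum_mul_le_nrm (f g : Q → ℝ) : ∑ q, f q * g q ≤ nrm f * nrm g := by
  rw [nrm, nrm, ← Real.sqrt_mul (Finset.sum_nonneg fun _ _ => sq_nonneg _)]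
  refine Real.le_sqrt_of_sq_le ?_
  exact Finset.sum_mul_sq_le_sq_mul_sq _ _ _

variable [DecidableEq Q]

/-- `A` has operator norm at most `c`. -/
def Bd (A : Matrix Q Q ℝ) (c : ℝ) : Prop := ∀ f : Q → ℝ, nrm (A *ᵥ f) ≤ c * nrm f

/-- `A` has norm at most `c` on functions of mean zero. -/
def Bd0 (A : Matrix Q Q ℝ) (c : ℝ) : Prop :=
  ∀ f : Q → ℝ, ∑ q, f q = 0 → nrm (A *ᵥ f) ≤ c * nrm f

theorem Bd.mono {A : Matrix Q Q ℝ} {c c' : ℝ} (h : Bd A c) (hc : c ≤ c') : Bd A c' :=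
  fun f => (h f).trans (mul_le_mul_of_nonneg_right hc (nrm_nonneg f))

theorem Bd0.mono {A : Matrix Q Q ℝ} {c c' : ℝ} (h : Bd0 A c) (hc : c ≤ c') : Bd0 A c' :=
  fun f hf => (h f hf).trans (mul_le_mul_of_nonneg_right hc (nrm_nonneg f))

theorem Bd.bd0 {A : Matrix Q Q ℝ} {c : ℝ} (h : Bd A c) : Bd0 A c := fun f _ => h f

theorem Bd.mul {A B : Matrix Q Q ℝ} {a b : ℝ} (hA : Bd A a) (hB : Bd B b) (ha : 0 ≤ a) :
    Bd (A * B) (a * b) := fun f => by
  rw [← Matrix.mulVec_mulVec, mul_assoc]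
  exact (hA _).trans (mul_le_mul_of_nonneg_left (hB f) ha)

theorem Bd.add {A B : Matrix Q Q ℝ} {a b : ℝ} (hA : Bd A a) (hB : Bd B b) :
    Bd (A + B) (a + b) := fun f => by
  rw [Matrix.add_mulVec, add_mul]
  exact (nrm_add_le _ _).trans (add_le_add (hA f) (hB f))

theorem Bd0.add {A B : Matrix Q Q ℝ} {a b : ℝ} (hA : Bd0 A a) (hB : Bd0 B b) :
    Bd0 (A + B) (a + b) := fun f hf => by
  rw [Matrix.add_mulVec, add_mul]
  exact (nrm_add_le _ _).trans (add_le_add (hA f hf) (hB f hf))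

theorem Bd_one : Bd (1 : Matrix Q Q ℝ) 1 := fun f => by
  rw [Matrix.one_mulVec, one_mul]

theorem Bd_zero : Bd (0 : Matrix Q Q ℝ) 0 := fun f => by
  rw [Matrix.zero_mulVec, zero_mul, nrm_zero]

theorem DS_one : (1 : Matrix Q Q ℝ) ∈ doublyStochastic ℝ Q := one_mem _

theorem DS_sum {A : Matrix Q Q ℝ} (hA : A ∈ doublyStochastic ℝ Q) (f : Q → ℝ) :
    ∑ q, (A *ᵥ f) q = ∑ q, f q := sum_mulVec_of_mem_doublyStochastic hA

theorem DS_const {A : Matrix Q Q ℝ} (hA : A ∈ doublyStochastic ℝ Q) (c : ℝ) :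
    A *ᵥ (fun _ => c) = fun _ => c := by
  funext q
  simp only [Matrix.mulVec, dotProduct]
  rw [← Finset.sum_mul, sum_row_of_mem_doublyStochastic hA, one_mul]

theorem DS_Bd {A : Matrix Q Q ℝ} (hA : A ∈ doublyStochastic ℝ Q) : Bd A 1 := fun f => by
  rw [one_mul, nrm, nrm]
  refine Real.sqrt_le_sqrt ?_
  have h1 : ∀ q, (A *ᵥ f) q ^ 2 ≤ ∑ q', A q q' * f q' ^ 2 := by
    intro q
    have h := Finset.sum_sq_le_sum_mul_sum_of_sq_le_mul (s := Finset.univ)
      (r := fun q' => A q q' * f q') (f := fun q' => A q q') (g := fun q' => A q q' * f q' ^ 2)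
      (fun q' _ => nonneg_of_mem_doublyStochastic hA)
      (fun q' _ => mul_nonneg (nonneg_of_mem_doublyStochastic hA) (sq_nonneg _))
      (fun q' _ => le_of_eq (by ring))
    rw [sum_row_of_mem_doublyStochastic hA, one_mul] at h
    exact h
  calc ∑ q, (A *ᵥ f) q ^ 2 ≤ ∑ q, ∑ q', A q q' * f q' ^ 2 := Finset.sum_le_sum fun q _ => h1 q
    _ = ∑ q', (∑ q, A q q') * f q' ^ 2 := by
        rw [Finset.sum_comm]; simp only [Finset.sum_mul]
    _ = ∑ q', f q' ^ 2 := by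
        simp only [sum_col_of_mem_doublyStochastic hA, one_mul]

theorem DS_mono {A : Matrix Q Q ℝ} (hA : A ∈ doublyStochastic ℝ Q) {f g : Q → ℝ}
    (h : ∀ q, f q ≤ g q) (q : Q) : (A *ᵥ f) q ≤ (A *ᵥ g) q := by
  simp only [Matrix.mulVec, dotProduct]
  exact Finset.sum_le_sum fun q' _ =>
    mul_le_mul_of_nonneg_left (h q') (nonneg_of_mem_doublyStochastic hA)

/-- centering -/
noncomputable def cen (f : Q → ℝ) : Q → ℝ := fun q => f q - (∑ q', f q') / Fintype.card Q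

theorem sum_cen [Nonempty Q] (f : Q → ℝ) : ∑ q, cen f q = 0 := by
  simp only [cen, Finset.sum_sub_distrib, Finset.sum_const, Finset.card_univ, nsmul_eq_mul]
  rw [mul_div_cancel₀]
  · ring
  · exact Nat.cast_ne_zero.2 Fintype.card_ne_zero

theorem cen_mulVec {A : Matrix Q Q ℝ} (hA : A ∈ doublyStochastic ℝ Q) (f : Q → ℝ) :
    cen (A *ᵥ f) = A *ᵥ cen f := by
  have h : cen f = f - fun _ => (∑ q', f q') / (Fintype.card Q : ℝ) := rfl
  rw [h, Matrix.mulVec_sub, DS_const hA]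
  funext q
  simp only [cen, DS_sum hA, Pi.sub_apply]

theorem cen_sub (f : Q → ℝ) (q q' : Q) : cen f q - cen f q' = f q - f q' := by
  simp only [cen]; ring

theorem cen_sum_smul {ι : Type} (s : Finset ι) (c : ι → ℝ) (f : ι → Q → ℝ) :
    cen (∑ i ∈ s, c i • f i) = ∑ i ∈ s, c i • cen (f i) := by
  funext q
  simp only [cen, Finset.sum_apply, Pi.smul_apply, smul_eq_mul]
  rw [Finset.sum_comm]
  simp only [← Finset.mul_sum, mul_sub, Finset.sum_sub_distrib, Finset.sum_div, mul_div_assoc]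

theorem nrm_cen_le {B : ℝ} (hB : 0 ≤ B) {f : Q → ℝ} (h : ∀ q q', |f q - f q'| ≤ B) :
    nrm (cen f) ≤ Real.sqrt (Fintype.card Q) * B := by
  rcases isEmpty_or_nonempty Q with hQ | hQ
  · have : nrm (cen f) = 0 := by simp [nrm]
    rw [this]; positivity
  refine nrm_le_of_abs_le hB fun q => ?_
  have hc : (0 : ℝ) < Fintype.card Q := Nat.cast_pos.2 Fintype.card_pos
  have h1 : cen f q = (∑ q', (f q - f q')) / Fintype.card Q := by
    simp only [cen, Finset.sum_sub_distrib, Finset.sum_const, Finset.card_univ, nsmul_eq_mul]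
    field_simp
  rw [h1, abs_div, abs_of_pos hc, div_le_iff₀ hc]
  calc |∑ q', (f q - f q')| ≤ ∑ q', |f q - f q'| := Finset.abs_sum_le_sum_abs _ _
    _ ≤ ∑ _q' : Q, B := Finset.sum_le_sum fun q' _ => h q q'
    _ = B * Fintype.card Q := by simp [mul_comm]

end Pool.Agent.D0H96
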