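import Pool.Agent.D0H96.Global

/-! Upper bounds: total variation contraction and relaxation time. -/

set_option linter.unusedSectionVars false

namespace Pool.Agent.D0H96

open Finset Matrix

variable {Q : Type} [Fintype Q] [DecidableEq Q] [Nonempty Q]
variable {w : ℕ} [NeZero w] {θ : ℝ} {R E : ZMod 3 → Matrix Q Q ℝ} {m : ℕ}

/-- error of the lamp at relative position `z` -/
noncomputable def eY (w : ℕ) (θ : ℝ) (R : ZMod 3 → Matrix Q Q ℝ) (z : ZMod (3 * w)) (L : List Lab) :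
    ℝ := (fin w θ R (z.val : ℤ) L).e

theorem wpos : 0 < w := Nat.pos_of_ne_zero (NeZero.ne w)

theorem eY_nonneg (S : Sys Q R E θ) (z : ZMod (3 * w)) (L : List Lab) : 0 ≤ eY w θ R z L :=
  (fin_inv S wpos _ L).e0

theorem full_eY (S : Sys Q R E θ) (z : ZMod (3 * w)) (L : List Lab) :
    full R (fin w θ R (z.val : ℤ) L) = Wm w R z L := by
  rw [full_fin S wpos]
  congr 1
  simp

theorem eY_long (S : Sys Q R E θ) {N : ℕ} (hN : 3 ≤ N) (hW : Words E N) (z : ZMod (3 * w))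
    {L : List Lab} (hr : ((N : ℤ) + 3) * w ≤ (cur L).mx - (cur L).mn) :
    Bd0 (Wm w R z L) (eY w θ R z L) := by
  rw [← full_eY S]
  refine full_long S hN hW wpos (fin_inv S wpos _ L) ?_
  rw [fin_c]; exact hr

theorem eY_short (S : Sys Q R E θ) {N : ℕ} (hW : Words E N) (z : ZMod (3 * w))
    {L : List Lab} (hr : (6 : ℤ) * w ≤ (cur L).mx - (cur L).mn) :
    Bd0 (Wm w R z L) (eY w θ R z L + 1 / Real.sqrt N) := by
  rw [← full_eY S]
  refine full_short S hW wpos (fin_inv S wpos _ L) ?_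
  rw [fin_c]; exact hr

theorem Ex_eY (S : Sys Q R E θ) {u0 : ℝ} (hu : 0 ≤ u0) (hu1 : u0 ≤ 1)
    (hu0 : 1 - u0 ≤ u0 * m * (1 - θ) * w) (z : ZMod (3 * w)) (t : ℕ) :
    Ex m t (fun L => eY w θ R z L) ≤ u0 * (2 + t / (dd m * (w : ℝ) ^ 2)) :=
  (Ex_mono t fun L => e_le_GG S hu hu1).trans (Ex_GG S wpos hu hu0 _ t)

theorem cur_zero (L : List Lab) : (cur L).mn ≤ 0 ∧ 0 ≤ (cur L).mx := by
  refine foldl_inv cstep (fun c => c.mn ≤ 0 ∧ 0 ≤ c.mx) (fun c h l => ⟨?_, ?_⟩) L cur0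
    ⟨le_rfl, le_rfl⟩
  · exact (min_le_left _ _).trans h.1
  · exact h.2.trans (le_max_left _ _)

/-- the range of the cursor is small -/
def bad (ρ : ℕ) (L : List Lab) : Prop := (cur L).mx - (cur L).mn < ρ

instance (ρ : ℕ) (L : List Lab) : Decidable (bad ρ L) := Int.decLt _ _

/-- indicator -/
def ibad (ρ : ℕ) (L : List Lab) : ℝ := if bad ρ L then 1 else 0

theorem ibad_nonneg (ρ : ℕ) (L : List Lab) : 0 ≤ ibad ρ L := by
  unfold ibad; split_ifs <;> norm_num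

theorem bad_prob (ρ : ℕ) {t : ℕ} (ht : 0 < t) :
    Ex m t (ibad ρ) ≤ (ρ : ℝ) ^ 2 * dd m / t := by
  refine le_trans (Ex_mono t fun L => ?_) (leave_prob ρ ht)
  unfold ibad
  by_cases hb : bad ρ L
  · have h0 := cur_zero L
    have hb' := hb
    unfold bad at hb'
    have : (cur L).Al ρ := ⟨by omega, by omega⟩
    rw [if_pos hb, if_pos this]
  · rw [if_neg hb]; split_ifs <;> norm_num

theorem cv_osc {B : ℝ} (c : Q → ℝ) (F : Q → Q → ℝ) (hc : ∀ i, 0 ≤ c i) (hc1 : ∑ i, c i = 1)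
    (hF : ∀ i, ∀ q q', |F i q - F i q'| ≤ B) :
    ∀ q q', |(∑ i, c i • F i) q - (∑ i, c i • F i) q'| ≤ B := by
  intro q q'
  simp only [Finset.sum_apply, Pi.smul_apply, smul_eq_mul]
  rw [← Finset.sum_sub_distrib]
  refine (Finset.abs_sum_le_sum_abs _ _).trans ?_
  calc ∑ i, |c i * F i q - c i * F i q'| ≤ ∑ i, c i * B := by
        refine Finset.sum_le_sum fun i _ => ?_
        rw [← mul_sub, abs_mul, abs_of_nonneg (hc i)]
        exact mul_le_mul_of_nonneg_left (hF i q q') (hc i)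
    _ = B := by rw [← Finset.sum_mul, hc1, one_mul]

theorem lamps_diff (S : Sys Q R E θ) {N : ℕ} (hN : 3 ≤ N) (hW : Words E N)
    {f : XX Q w → ℝ} {B : ℝ} (hB : 0 ≤ B) (hf : ∀ x x', |f x - f x'| ≤ B) (L₁ L₂ : List Lab)
    (ξ ξ' : Cf Q w) (y : ZMod (3 * w)) :
    |TL R (L₁ ++ L₂) f (ξ', y) - TL R (L₁ ++ L₂) f (ξ, y)| ≤
      B * (ibad ((N + 3) * w) L₁ + ibad ((N + 3) * w) L₂ + 2 * Real.sqrt (Fintype.card Q) *
        ∑ Y : ZMod (3 * w), eY w θ R (y - Y) L₁ *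
          eY w θ R (y - Y + ((disp L₁ : ℤ) : ZMod (3 * w))) L₂) := by
  have hsum : 0 ≤ 2 * Real.sqrt (Fintype.card Q) *
        ∑ Y : ZMod (3 * w), eY w θ R (y - Y) L₁ *
          eY w θ R (y - Y + ((disp L₁ : ℤ) : ZMod (3 * w))) L₂ :=
    mul_nonneg (by positivity) (Finset.sum_nonneg fun Y _ =>
      mul_nonneg (eY_nonneg S _ _) (eY_nonneg S _ _))
  by_cases hb : bad ((N + 3) * w) L₁ ∨ bad ((N + 3) * w) L₂
  · have h1 : 1 ≤ ibad ((N + 3) * w) L₁ + ibad ((N + 3) * w) L₂ := by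
      have n1 := ibad_nonneg ((N + 3) * w) L₁
      have n2 := ibad_nonneg ((N + 3) * w) L₂
      rcases hb with hb | hb
      · have : ibad ((N + 3) * w) L₁ = 1 := by unfold ibad; rw [if_pos hb]
        linarith
      · have : ibad ((N + 3) * w) L₂ = 1 := by unfold ibad; rw [if_pos hb]
        linarith
    refine (TL_osc S.hR hf (L₁ ++ L₂) (ξ', y) (ξ, y)).trans ?_
    nlinarith
  · rw [not_or] at hb
    obtain ⟨hb1, hb2⟩ := hb
    have hr : ∀ L : List Lab, ¬ bad ((N + 3) * w) L →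
        ((N : ℤ) + 3) * w ≤ (cur L).mx - (cur L).mn := by
      intro L hL
      unfold bad at hL
      rw [not_lt] at hL
      push_cast at hL
      exact hL
    have hhyb := hybrid (fun ξ : Cf Q w => TL R (L₁ ++ L₂) f (ξ, y))
      (fun Y => 2 * (eY w θ R (y - Y) L₁ * eY w θ R (y - Y + ((disp L₁ : ℤ) : ZMod (3 * w))) L₂ *
        (Real.sqrt (Fintype.card Q) * B))) ?_ ξ ξ'
    · refine hhyb.trans ?_
      have h3 : ∑ Y : ZMod (3 * w), 2 * (eY w θ R (y - Y) L₁ *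
          eY w θ R (y - Y + ((disp L₁ : ℤ) : ZMod (3 * w))) L₂ * (Real.sqrt (Fintype.card Q) * B))
          = B * (2 * Real.sqrt (Fintype.card Q) * ∑ Y : ZMod (3 * w), eY w θ R (y - Y) L₁ *
          eY w θ R (y - Y + ((disp L₁ : ℤ) : ZMod (3 * w))) L₂) := by
        rw [Finset.mul_sum, Finset.mul_sum]
        refine Finset.sum_congr rfl fun Y _ => ?_
        ring
      rw [h3]
      refine mul_le_mul_of_nonneg_left ?_ hB
      have n1 := ibad_nonneg ((N + 3) * w) L₁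
      have n2 := ibad_nonneg ((N + 3) * w) L₂
      linarith
    · intro ξ Y q
      obtain ⟨Ψ, hΨ, hs⟩ := slice_TL Y S.hR (fun Ψ => ∀ q q', |Ψ q - Ψ q'| ≤ B)
        (fun c F hc hc1 hF => cv_osc c F hc hc1 hF) (f := f) (fun ξ y q q' => hf _ _)
        (L₁ ++ L₂) ξ y
      have h1 : TL R (L₁ ++ L₂) f (Function.update ξ Y q, y)
          = (Wm w R (y - Y) (L₁ ++ L₂) *ᵥ Ψ) q := by rw [← hs]; rfl
      have h2 : TL R (L₁ ++ L₂) f (ξ, y) = (Wm w R (y - Y) (L₁ ++ L₂) *ᵥ Ψ) (ξ Y) := by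
        rw [← hs]; simp [slc]
      have hWbd : Bd0 (Wm w R (y - Y) (L₁ ++ L₂)) (eY w θ R (y - Y) L₁ *
          eY w θ R (y - Y + ((disp L₁ : ℤ) : ZMod (3 * w))) L₂) := by
        intro g hg
        rw [Wm_append, ← Matrix.mulVec_mulVec]
        have a1 := eY_long S hN hW (y - Y) (hr L₁ hb1)
          (Wm w R (y - Y + ((disp L₁ : ℤ) : ZMod (3 * w))) L₂ *ᵥ g)
          (by rw [DS_sum (Wm_mem S.hR _ _), hg])
        have a2 := eY_long S hN hW (y - Y + ((disp L₁ : ℤ) : ZMod (3 * w))) (hr L₂ hb2) g hg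
        refine a1.trans ?_
        rw [mul_assoc]
        exact mul_le_mul_of_nonneg_left a2 (eY_nonneg S _ _)
      have hcen := hWbd (cen Ψ) (sum_cen Ψ)
      rw [← cen_mulVec (Wm_mem S.hR _ _)] at hcen
      have hnc : nrm (cen Ψ) ≤ Real.sqrt (Fintype.card Q) * B := nrm_cen_le hB hΨ
      have hee : 0 ≤ eY w θ R (y - Y) L₁ *
          eY w θ R (y - Y + ((disp L₁ : ℤ) : ZMod (3 * w))) L₂ :=
        mul_nonneg (eY_nonneg S _ _) (eY_nonneg S _ _)
      have hfin := hcen.trans (mul_le_mul_of_nonneg_left hnc hee)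
      show |TL R (L₁ ++ L₂) f (Function.update ξ Y q, y) - TL R (L₁ ++ L₂) f (ξ, y)| ≤ _
      rw [h1, h2, ← cen_sub]
      have b1 := abs_le_nrm (cen (Wm w R (y - Y) (L₁ ++ L₂) *ᵥ Ψ)) q
      have b2 := abs_le_nrm (cen (Wm w R (y - Y) (L₁ ++ L₂) *ᵥ Ψ)) (ξ Y)
      refine (abs_sub _ _).trans ?_
      linarith

theorem lamps_iter (S : Sys Q R E θ) {N : ℕ} (hN : 3 ≤ N) (hW : Words E N) {u0 : ℝ}
    (hu : 0 ≤ u0) (hu1 : u0 ≤ 1) (hu0 : 1 - u0 ≤ u0 * m * (1 - θ) * w)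
    {f : XX Q w → ℝ} {B : ℝ} (hB : 0 ≤ B) (hf : ∀ x x', |f x - f x'| ≤ B) {t : ℕ} (ht : 0 < t)
    (ξ ξ' : Cf Q w) (y : ZMod (3 * w)) :
    |(Pop m R)^[t + t] f (ξ', y) - (Pop m R)^[t + t] f (ξ, y)| ≤
      B * (2 * ((((N + 3) * w : ℕ) : ℝ) ^ 2 * dd m / t) + 2 * Real.sqrt (Fintype.card Q) *
        (3 * w * (u0 * (2 + t / (dd m * (w : ℝ) ^ 2))) ^ 2)) := by
  set M : ℝ := u0 * (2 + t / (dd m * (w : ℝ) ^ 2)) with hM
  have hM0 : 0 ≤ M := by
    have := dd_pos m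
    rw [hM]; positivity
  set P : ℝ := (((N + 3) * w : ℕ) : ℝ) ^ 2 * dd m / t with hP
  have hbp : Ex m t (ibad ((N + 3) * w)) ≤ P := bad_prob _ ht
  rw [Pop_iter, Pop_iter, ← Ex_sub]
  refine (Ex_abs_le _ _).trans ?_
  rw [Ex_append]
  have h1 : Ex m t (fun L₁ => Ex m t fun L₂ =>
      |TL R (L₁ ++ L₂) f (ξ', y) - TL R (L₁ ++ L₂) f (ξ, y)|) ≤
      Ex m t (fun L₁ => B * (ibad ((N + 3) * w) L₁ + P + 2 * Real.sqrt (Fintype.card Q) *
        ∑ Y : ZMod (3 * w), M * eY w θ R (y - Y) L₁)) := by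
    refine Ex_mono t fun L₁ => ?_
    refine (Ex_mono t fun L₂ => lamps_diff S hN hW hB hf L₁ L₂ ξ ξ' y).trans ?_
    rw [Ex_mul, Ex_add, Ex_add, Ex_const, Ex_mul, Ex_sum]
    refine mul_le_mul_of_nonneg_left ?_ hB
    refine add_le_add (add_le_add le_rfl hbp) ?_
    refine mul_le_mul_of_nonneg_left ?_ (by positivity)
    refine Finset.sum_le_sum fun Y _ => ?_
    rw [Ex_mul, mul_comm]
    exact mul_le_mul_of_nonneg_right (Ex_eY S hu hu1 hu0 _ t) (eY_nonneg S _ _)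
  refine h1.trans ?_
  rw [Ex_mul, Ex_add, Ex_add, Ex_const, Ex_mul, Ex_sum]
  refine mul_le_mul_of_nonneg_left ?_ hB
  have h2 : ∑ Y : ZMod (3 * w), Ex m t (fun L => M * eY w θ R (y - Y) L)
      ≤ ∑ _Y : ZMod (3 * w), M ^ 2 := by
    refine Finset.sum_le_sum fun Y _ => ?_
    rw [Ex_mul, sq]
    exact mul_le_mul_of_nonneg_left (Ex_eY S hu hu1 hu0 _ t) hM0
  rw [Finset.sum_const, Finset.card_univ, ZMod.card, nsmul_eq_mul] at h2
  push_cast at h2
  have h3 : 2 * Real.sqrt (Fintype.card Q) * ∑ Y : ZMod (3 * w),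
      Ex m t (fun L => M * eY w θ R (y - Y) L)
      ≤ 2 * Real.sqrt (Fintype.card Q) * (3 * w * M ^ 2) :=
    mul_le_mul_of_nonneg_left h2 (by positivity)
  linarith

theorem bar_near {f : XX Q w → ℝ} {δ : ℝ} (y : ZMod (3 * w))
    (h : ∀ ξ ξ', |f (ξ', y) - f (ξ, y)| ≤ δ) (ξ : Cf Q w) : |f (ξ, y) - bar f y| ≤ δ := by
  have hc : (0 : ℝ) < Fintype.card (Cf Q w) := Nat.cast_pos.2 Fintype.card_pos
  have h1 : f (ξ, y) - bar f y
      = (∑ ξ' : Cf Q w, (f (ξ, y) - f (ξ', y))) / Fintype.card (Cf Q w) := by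
    unfold bar
    rw [Finset.sum_sub_distrib, Finset.sum_const, Finset.card_univ, nsmul_eq_mul, sub_div,
      mul_div_cancel_left₀ _ hc.ne']
  rw [h1, abs_div, abs_of_pos hc, div_le_iff₀ hc]
  calc |∑ ξ' : Cf Q w, (f (ξ, y) - f (ξ', y))| ≤ ∑ ξ' : Cf Q w, |f (ξ, y) - f (ξ', y)| :=
        Finset.abs_sum_le_sum_abs _ _
    _ ≤ ∑ _ξ' : Cf Q w, δ := Finset.sum_le_sum fun ξ' _ => h _ _
    _ = δ * Fintype.card (Cf Q w) := by simp [mul_comm]

theorem bar_osc {f : XX Q w → ℝ} {B : ℝ} (hf : ∀ x x', |f x - f x'| ≤ B)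
    (y y' : ZMod (3 * w)) : |bar f y - bar f y'| ≤ B := by
  have hc : (0 : ℝ) < Fintype.card (Cf Q w) := Nat.cast_pos.2 Fintype.card_pos
  have h1 : bar f y - bar f y'
      = (∑ ξ : Cf Q w, (f (ξ, y) - f (ξ, y'))) / Fintype.card (Cf Q w) := by
    unfold bar
    rw [Finset.sum_sub_distrib, sub_div]
  rw [h1, abs_div, abs_of_pos hc, div_le_iff₀ hc]
  calc |∑ ξ : Cf Q w, (f (ξ, y) - f (ξ, y'))| ≤ ∑ ξ : Cf Q w, |f (ξ, y) - f (ξ, y')| :=
        Finset.abs_sum_le_sum_abs _ _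
    _ ≤ ∑ _ξ' : Cf Q w, B := Finset.sum_le_sum fun ξ' _ => hf _ _
    _ = B * Fintype.card (Cf Q w) := by simp [mul_comm]

/-- contraction of oscillations -/
theorem iter_osc (S : Sys Q R E θ) {N : ℕ} (hN : 3 ≤ N) (hW : Words E N) {u0 : ℝ}
    (hu : 0 ≤ u0) (hu1 : u0 ≤ 1) (hu0 : 1 - u0 ≤ u0 * m * (1 - θ) * w)
    {f : XX Q w → ℝ} {B : ℝ} (hB : 0 ≤ B) (hf : ∀ x x', |f x - f x'| ≤ B) {t : ℕ} (ht : 0 < t)
    (x x' : XX Q w) :
    |(Pop m R)^[t + t] f x - (Pop m R)^[t + t] f x'| ≤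
      B * (2 * (2 * ((((N + 3) * w : ℕ) : ℝ) ^ 2 * dd m / t) + 2 * Real.sqrt (Fintype.card Q) *
        (3 * w * (u0 * (2 + t / (dd m * (w : ℝ) ^ 2))) ^ 2))
        + dd m * ((3 * w : ℕ) : ℝ) ^ 2 / (8 * ((t + t : ℕ) : ℝ))) := by
  obtain ⟨ξ, y⟩ := x
  obtain ⟨ξ', y'⟩ := x'
  set δ : ℝ := B * (2 * ((((N + 3) * w : ℕ) : ℝ) ^ 2 * dd m / t) + 2 * Real.sqrt (Fintype.card Q) *
        (3 * w * (u0 * (2 + t / (dd m * (w : ℝ) ^ 2))) ^ 2)) with hδ
  have h1 := bar_near (f := (Pop m R)^[t + t] f) y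
    (fun ξ ξ' => lamps_iter S hN hW hu hu1 hu0 hB hf ht ξ ξ' y) ξ
  have h2 := bar_near (f := (Pop m R)^[t + t] f) y'
    (fun ξ ξ' => lamps_iter S hN hW hu hu1 hu0 hB hf ht ξ ξ' y') ξ'
  rw [bar_iter S.hR] at h1 h2
  have h3 := cursor_osc (m := m) (bar f) hB (bar_osc hf) (t := t + t) (by omega) y y'
  rw [abs_le] at h1 h2 h3 ⊢
  rw [mul_add, mul_left_comm B 2, ← hδ]
  rw [mul_comm (dd m * ((3 * w : ℕ) : ℝ) ^ 2 / (8 * ((t + t : ℕ) : ℝ))) B] at h3
  constructor <;> linarith [h1.1, h1.2, h2.1, h2.2, h3.1, h3.2]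

/-! ### Relaxation -/

theorem nrm_Ex (t : ℕ) (Φ : List Lab → Q → ℝ) :
    nrm (fun q => Ex m t fun L => Φ L q) ≤ Ex m t fun L => nrm (Φ L) := by
  set g : Q → ℝ := fun q => Ex m t fun L => Φ L q with hg
  have h1 : nrm g * nrm g ≤ (Ex m t fun L => nrm (Φ L)) * nrm g := by
    calc nrm g * nrm g = ∑ q, g q * g q := by
          rw [← sq, nrm_sq]; exact Finset.sum_congr rfl fun q _ => sq _
      _ = Ex m t (fun L => ∑ q, g q * Φ L q) := by
          rw [Ex_sum]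
          refine Finset.sum_congr rfl fun q _ => ?_
          rw [Ex_mul]
      _ ≤ Ex m t (fun L => nrm g * nrm (Φ L)) := Ex_mono t fun L => sum_mul_le_nrm _ _
      _ = (Ex m t fun L => nrm (Φ L)) * nrm g := by rw [Ex_mul, mul_comm]
  rcases (nrm_nonneg g).lt_or_eq with h | h
  · exact le_of_mul_le_mul_right h1 h
  · rw [← h]; exact Ex_nonneg t fun L => nrm_nonneg _

theorem cen_Ex (t : ℕ) (Φ : List Lab → Q → ℝ) :
    cen (fun q => Ex m t fun L => Φ L q) = fun q => Ex m t fun L => cen (Φ L) q := by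
  funext q
  simp only [cen]
  rw [Ex_sub]
  congr 1
  rw [← Ex_sum, div_eq_inv_mul, ← Ex_mul]
  congr 1
  funext L
  rw [div_eq_inv_mul]

theorem cen_smul (c : ℝ) (f : Q → ℝ) : cen (c • f) = c • cen f := by
  funext q
  simp only [cen, Pi.smul_apply, smul_eq_mul]
  rw [← Finset.mul_sum]; ring

/-- decay of the dependence on one lamp -/
theorem lamp_decay (S : Sys Q R E θ) {N : ℕ} (hW : Words E N) {u0 : ℝ}
    (hu : 0 ≤ u0) (hu1 : u0 ≤ 1) (hu0 : 1 - u0 ≤ u0 * m * (1 - θ) * w)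
    {f : XX Q w → ℝ} (Y : ZMod (3 * w)) {B : ℝ} (hf : ∀ ξ y, nrm (cen (slc Y f ξ y)) ≤ B)
    (hB : 0 ≤ B) {t : ℕ} (ht : 0 < t) (ξ : Cf Q w) (y : ZMod (3 * w)) :
    nrm (cen (slc Y ((Pop m R)^[t] f) ξ y)) ≤
      (((6 * w : ℕ) : ℝ) ^ 2 * dd m / t + 1 / Real.sqrt N
        + u0 * (2 + t / (dd m * (w : ℝ) ^ 2))) * B := by
  have h0 : slc Y ((Pop m R)^[t] f) ξ y
      = fun q => Ex m t fun L => slc Y (TL R L f) ξ y q := by
    funext q
    simp only [slc]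
    rw [Pop_iter]
  rw [h0, cen_Ex]
  refine (nrm_Ex t _).trans ?_
  have h1 : ∀ L, nrm (fun q => cen (slc Y (TL R L f) ξ y) q)
      ≤ (ibad (6 * w) L + 1 / Real.sqrt N + eY w θ R (y - Y) L) * B := by
    intro L
    obtain ⟨Ψ, hΨ, hs⟩ := slice_TL Y S.hR (fun Ψ => nrm (cen Ψ) ≤ B) (fun c F hc hc1 hF => by
      rw [cen_sum_smul]
      refine (nrm_sum_le _ _).trans ?_
      calc ∑ i, nrm (c i • cen (F i)) ≤ ∑ i, c i * B := by
            refine Finset.sum_le_sum fun i _ => ?_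
            rw [nrm_smul, abs_of_nonneg (hc i)]
            exact mul_le_mul_of_nonneg_left (hF i) (hc i)
        _ = B := by rw [← Finset.sum_mul, hc1, one_mul]) (f := f) hf L ξ y
    show nrm (cen (slc Y (TL R L f) ξ y)) ≤ _
    rw [hs, cen_mulVec (Wm_mem S.hR _ _)]
    have he := eY_nonneg S (y - Y) L
    have hs0 : 0 ≤ 1 / Real.sqrt N := by positivity
    by_cases hb : bad (6 * w) L
    · have h2 : ibad (6 * w) L = 1 := by unfold ibad; rw [if_pos hb]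
      have h3 := DS_Bd (Wm_mem S.hR L (y - Y)) (cen Ψ)
      rw [one_mul] at h3
      rw [h2]
      have h4 : 1 * B ≤ (1 + 1 / Real.sqrt N + eY w θ R (y - Y) L) * B :=
        mul_le_mul_of_nonneg_right (by linarith) hB
      linarith
    · have h2 : ibad (6 * w) L = 0 := by unfold ibad; rw [if_neg hb]
      unfold bad at hb
      rw [not_lt] at hb
      push_cast at hb
      have h3 := eY_short S hW (y - Y) hb (cen Ψ) (sum_cen Ψ)
      refine h3.trans ?_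
      rw [h2, zero_add, add_comm (1 / Real.sqrt N)]
      exact mul_le_mul_of_nonneg_left hΨ (by linarith)
  refine (Ex_mono t h1).trans ?_
  have h2 : Ex m t (fun L => (ibad (6 * w) L + 1 / Real.sqrt N + eY w θ R (y - Y) L) * B)
      = (Ex m t (ibad (6 * w)) + 1 / Real.sqrt N + Ex m t (fun L => eY w θ R (y - Y) L)) * B := by
    have : (fun L => (ibad (6 * w) L + 1 / Real.sqrt N + eY w θ R (y - Y) L) * B)
        = fun L => B * (ibad (6 * w) L + 1 / Real.sqrt N + eY w θ R (y - Y) L) := by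
      funext L; ring
    rw [this, Ex_mul, Ex_add, Ex_add, Ex_const, mul_comm]
  rw [h2]
  refine mul_le_mul_of_nonneg_right ?_ hB
  have h3 := bad_prob (m := m) (6 * w) ht
  have h4 := Ex_eY (m := m) S hu hu1 hu0 (y - Y) t
  linarith

theorem iter_eig {f : XX Q w → ℝ} {lam : ℝ} (h : ∀ x, Pop m R f x = lam * f x) (t : ℕ) :
    ∀ x, (Pop m R)^[t] f x = lam ^ t * f x := by
  induction t with
  | zero => intro x; simp
  | succ t ih =>
    intro x
    rw [Function.iterate_succ_apply']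
    have h1 : (Pop m R)^[t] f = fun x => lam ^ t * f x := funext ih
    rw [h1]
    have h2 : Pop m R (fun x => lam ^ t * f x) x = lam ^ t * Pop m R f x := by
      unfold Pop
      rw [← ex1_mul]
      congr 1
      funext l
      cases l with
      | L k =>
        simp only [T, Matrix.mulVec, dotProduct]
        rw [Finset.mul_sum]
        exact Finset.sum_congr rfl fun q _ => by ring
      | cp => rfl
      | cm => rfl
      | c0 => rfl
    rw [h2, h, pow_succ]; ring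

/-- bound for the eigenvalues different from one -/
theorem eig_bound (S : Sys Q R E θ) {N : ℕ} (hW : Words E N) {u0 : ℝ}
    (hu : 0 ≤ u0) (hu1 : u0 ≤ 1) (hu0 : 1 - u0 ≤ u0 * m * (1 - θ) * w)
    {f : XX Q w → ℝ} {lam : ℝ} (hlam : 0 ≤ lam) (hne : lam ≠ 1)
    (h : ∀ x, Pop m R f x = lam * f x) (hf : f ≠ 0) {t : ℕ} (ht : 0 < t) :
    lam ^ t ≤ ((6 * w : ℕ) : ℝ) ^ 2 * dd m / t + 1 / Real.sqrt N
        + u0 * (2 + t / (dd m * (w : ℝ) ^ 2)) ∨
    lam ^ t ≤ dd m * ((3 * w : ℕ) : ℝ) ^ 2 / (8 * t) := by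
  have hit := iter_eig h t
  by_cases hY : ∃ Y : ZMod (3 * w), ∃ ξ y, cen (slc Y f ξ y) ≠ 0
  · left
    obtain ⟨Y, ξ₁, y₁, hne1⟩ := hY
    obtain ⟨⟨ξ, y⟩, hmax⟩ := Finite.exists_max fun x : XX Q w => nrm (cen (slc Y f x.1 x.2))
    set B := nrm (cen (slc Y f ξ y)) with hB
    have hBpos : 0 < B := by
      have h1 := hmax (ξ₁, y₁)
      refine lt_of_lt_of_le ?_ h1
      exact lt_of_le_of_ne (nrm_nonneg _) fun h0 => hne1 (nrm_eq_zero h0.symm)
    have h1 := lamp_decay (m := m) S hW hu hu1 hu0 Y (fun ξ y => hmax (ξ, y)) hBpos.le ht ξ y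
    have h2 : slc Y ((Pop m R)^[t] f) ξ y = lam ^ t • slc Y f ξ y := by
      funext q
      simp only [slc, Pi.smul_apply, smul_eq_mul]
      rw [hit]
    rw [h2, cen_smul, nrm_smul, abs_of_nonneg (pow_nonneg hlam t)] at h1
    exact le_of_mul_le_mul_right h1 hBpos
  · right
    push Not at hY
    have hconst : ∀ (ξ ξ' : Cf Q w) (y : ZMod (3 * w)), f (ξ', y) = f (ξ, y) := by
      intro ξ ξ' y
      have h1 := hybrid (fun ξ : Cf Q w => f (ξ, y)) (fun _ => 0) (fun ξ Y q => by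
        have h2 := congrFun (hY Y ξ y) q
        have h3 := congrFun (hY Y ξ y) (ξ Y)
        have h4 := cen_sub (slc Y f ξ y) q (ξ Y)
        rw [h2, h3] at h4
        simp only [slc, Function.update_eq_self, Pi.zero_apply, sub_self] at h4
        show |f (Function.update ξ Y q, y) - f (ξ, y)| ≤ 0
        rw [← h4, abs_zero]) ξ ξ'
      simp only [Finset.sum_const_zero] at h1
      have := abs_nonpos_iff.1 h1
      linarith
    obtain ⟨ξ0⟩ : Nonempty (Cf Q w) := inferInstance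
    have hbar : ∀ g : XX Q w → ℝ, (∀ (ξ ξ' : Cf Q w) (y : ZMod (3 * w)), g (ξ', y) = g (ξ, y)) →
        ∀ y, bar g y = g (ξ0, y) := by
      intro g hg y
      unfold bar
      rw [Finset.sum_congr rfl fun ξ _ => hg ξ0 ξ y, Finset.sum_const, Finset.card_univ,
        nsmul_eq_mul, mul_div_cancel_left₀]
      exact Nat.cast_ne_zero.2 Fintype.card_ne_zero
    have h1 : ∀ y, lam ^ t * f (ξ0, y) = gt m (bar f) t y := by
      intro y
      rw [← bar_iter (R := R) S.hR, hbar, hit]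
      intro ξ ξ' y
      rw [hit, hit, hconst ξ ξ' y]
    obtain ⟨y1, hy1⟩ := Finite.exists_max fun y : ZMod (3 * w) => f (ξ0, y)
    obtain ⟨y2, hy2⟩ := Finite.exists_min fun y : ZMod (3 * w) => f (ξ0, y)
    set B := f (ξ0, y1) - f (ξ0, y2) with hB
    have hB0 : 0 ≤ B := by rw [hB]; linarith [hy1 y2]
    rcases hB0.lt_or_eq with hBpos | hBz
    · have h2 := cursor_osc (m := m) (bar f) hB0 (fun y y' => by
        rw [hbar f hconst, hbar f hconst, abs_le]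
        constructor <;> linarith [hy1 y, hy1 y', hy2 y, hy2 y']) ht y1 y2
      rw [← h1, ← h1, ← mul_sub, ← hB, abs_of_nonneg (mul_nonneg (pow_nonneg hlam t) hB0)] at h2
      exact le_of_mul_le_mul_right h2 hBpos
    · exfalso
      have h3 : ∀ x : XX Q w, f x = f (ξ0, y1) := by
        rintro ⟨ξ, y⟩
        rw [hconst ξ0 ξ y]
        have h4 := hy1 y
        have h5 := hy2 y
        linarith
      have h6 : f = fun _ => f (ξ0, y1) := funext h3
      have h7 := h (ξ0, y1)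
      have h8 : Pop m R f (ξ0, y1) = f (ξ0, y1) := by
        conv_lhs => rw [h6]
        unfold Pop
        have : ∀ l, T R l (fun _ : XX Q w => f (ξ0, y1)) (ξ0, y1) = f (ξ0, y1) := fun l => by
          rw [T_const S.hR]
        simp only [this]
        exact ex1_const _
      rw [h8] at h7
      have h9 : f (ξ0, y1) ≠ 0 := by
        intro h0
        apply hf
        rw [h6, h0]; rfl
      apply hne
      have h10 : (lam - 1) * f (ξ0, y1) = 0 := by linarith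
      rcases mul_eq_zero.1 h10 with h | h
      · linarith
      · exact absurd h h9

end Pool.Agent.D0H96
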